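import Mathlib
import Pool.Agent.Y114.AP.Pot

/-!
# Nilpotent endomorphisms with one Jordan block
-/

set_option autoImplicit false
set_option linter.unusedSectionVars false

namespace Pool.Agent.Y114.MU

open Module Polynomial Pool.Agent.Y114.AP

variable {k : Type*} [Field k] [CharZero k] {V : Type*} [AddCommGroup V] [Module k V] [FiniteDimensional k V]

/-- `N` is nilpotent with one Jordan block, of size `r + 1`. -/
structure Reg (N : End k V) (r : ℕ) : Prop where
  dim : finrank k V = r + 1
  nil : IsNilpotent N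
  ne : N ^ r ≠ 0

variable {N : End k V} {r : ℕ}

theorem Reg.pow_dim (h : Reg N r) : N ^ (r + 1) = 0 := by
  have h2 := N.aeval_self_charpoly
  rw [(show LinearMap.charpoly N = _ from IsNilpotent.charpoly_eq_X_pow_finrank h.nil)] at h2
  simpa [h.dim] using h2

theorem Reg.pow_zero_of_lt (h : Reg N r) {m : ℕ} (hm : r < m) : N ^ m = 0 := by
  obtain ⟨c, rfl⟩ := Nat.exists_eq_add_of_le (show r + 1 ≤ m from hm)
  rw [pow_add, h.pow_dim, zero_mul]

theorem Reg.exists_vec (h : Reg N r) : ∃ v, (N ^ r) v ≠ 0 := by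
  by_contra hcon
  push Not at hcon
  exact h.ne (LinearMap.ext fun v => hcon v)

theorem Reg.linInd (h : Reg N r) {v : V} (hv : (N ^ r) v ≠ 0) :
    LinearIndependent k (fun j : Fin (r + 1) => (N ^ (j : ℕ)) v) := by
  rw [Fintype.linearIndependent_iff]
  intro c hc
  have key : ∀ m : ℕ, ∀ hm : m < r + 1, c ⟨m, hm⟩ = 0 := by
    intro m
    induction m using Nat.strong_induction_on with
    | _ m ih =>
      intro hm
      have h1 := congrArg (N ^ (r - m)) hc
      rw [map_zero, map_sum, Finset.sum_eq_single ⟨m, hm⟩] at h1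
      · rw [map_smul, ← Module.End.mul_apply, ← pow_add] at h1
        have h2 : r - m + ((⟨m, hm⟩ : Fin (r + 1)) : ℕ) = r := by simp; omega
        rw [h2, smul_eq_zero] at h1
        exact h1.resolve_right hv
      · intro j _ hj
        rw [map_smul, ← Module.End.mul_apply, ← pow_add]
        rcases lt_or_gt_of_ne (fun h : (j : ℕ) = m => hj (Fin.ext h)) with h2 | h2
        · have := ih j h2 j.2
          rw [show c j = 0 from this, zero_smul]
        · rw [h.pow_zero_of_lt (by omega), LinearMap.zero_apply, smul_zero]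
      · intro h2
        exact absurd (Finset.mem_univ _) h2
  exact fun j => key j j.2

/-- The basis given by a cyclic vector. -/
noncomputable def Reg.bas (h : Reg N r) {v : V} (hv : (N ^ r) v ≠ 0) : Basis (Fin (r + 1)) k V :=
  basisOfLinearIndependentOfCardEqFinrank (h.linInd hv) (by rw [Fintype.card_fin, h.dim])

theorem Reg.bas_apply (h : Reg N r) {v : V} (hv : (N ^ r) v ≠ 0) (j : Fin (r + 1)) :
    h.bas hv j = (N ^ (j : ℕ)) v := by
  unfold Reg.bas
  rw [coe_basisOfLinearIndependentOfCardEqFinrank]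

theorem Reg.exists_coeff (h : Reg N r) {v : V} (hv : (N ^ r) v ≠ 0) (x : V) :
    ∃ c : ℕ → k, x = ∑ i ∈ Finset.range (r + 1), c i • (N ^ i) v := by
  refine ⟨fun i => if hi : i < r + 1 then (h.bas hv).repr x ⟨i, hi⟩ else 0, ?_⟩
  conv_lhs => rw [← (h.bas hv).sum_repr x]
  rw [Finset.sum_range]
  refine Finset.sum_congr rfl fun i _ => ?_
  rw [h.bas_apply hv]
  simp only [Fin.is_lt, dif_pos, Fin.eta]

/-- An endomorphism which commutes with `N` is a polynomial in `N`. -/
theorem Reg.comm (h : Reg N r) {X : End k V} (hX : X * N = N * X) :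
    ∃ c : ℕ → k, X = ∑ i ∈ Finset.range (r + 1), c i • N ^ i := by
  obtain ⟨v, hv⟩ := h.exists_vec
  obtain ⟨c, hc⟩ := h.exists_coeff hv (X v)
  refine ⟨c, (h.bas hv).ext fun j => ?_⟩
  have hXp : ∀ m : ℕ, X * N ^ m = N ^ m * X := fun m => (Commute.pow_right hX m)
  rw [h.bas_apply hv]
  calc X ((N ^ (j : ℕ)) v) = (X * N ^ (j : ℕ)) v := rfl
    _ = (N ^ (j : ℕ)) (X v) := by rw [hXp]; rfl
    _ = _ := by
      rw [hc, map_sum, LinearMap.sum_apply]
      refine Finset.sum_congr rfl fun i _ => ?_
      rw [map_smul, LinearMap.smul_apply, ← Module.End.mul_apply, ← Module.End.mul_apply,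
        ← pow_add, ← pow_add, add_comm]

/-- The kernel of `N` is spanned by `N ^ r v`. -/
theorem Reg.ker_pow (h : Reg N r) {v : V} (hv : (N ^ r) v ≠ 0) {m : ℕ} {x : V}
    (hx : (N ^ m) x = 0) :
    ∃ c : ℕ → k, x = ∑ i ∈ (Finset.range (r + 1)).filter (fun i => r < i + m), c i • (N ^ i) v := by
  obtain ⟨c, hc⟩ := h.exists_coeff hv x
  refine ⟨c, ?_⟩
  rw [Finset.sum_filter]
  conv_lhs => rw [hc]
  refine Finset.sum_congr rfl fun i hi => ?_
  rw [Finset.mem_range] at hi
  split_ifs with h1
  · rfl
  · have h2 : ∑ i ∈ Finset.range (r + 1), (if i + m < r + 1 then c i • (N ^ (i + m)) v else 0) =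
        0 := by
      refine Eq.trans ?_ hx
      conv_rhs => rw [hc]
      rw [map_sum]
      refine Finset.sum_congr rfl fun j _ => ?_
      rw [map_smul, ← Module.End.mul_apply, ← pow_add, add_comm m j]
      split_ifs with h3
      · rfl
      · have h4 : N ^ (j + m) = 0 := h.pow_zero_of_lt (by omega)
        rw [h4, LinearMap.zero_apply, smul_zero]
    have h3 : ∑ j : Fin (r + 1), (if m ≤ (j : ℕ) then c (j - m) else 0) • (N ^ (j : ℕ)) v = 0 := by
      refine Eq.trans ?_ h2
      rw [← Finset.sum_range (fun j => (if m ≤ j then c (j - m) else 0) • (N ^ j) v)]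
      symm
      rw [← Finset.sum_filter]
      have h4 : ∑ j ∈ Finset.range (r + 1), (if m ≤ j then c (j - m) else 0) • (N ^ j) v =
          ∑ j ∈ (Finset.range (r + 1)).filter (fun j => m ≤ j), c (j - m) • (N ^ j) v := by
        rw [Finset.sum_filter]
        refine Finset.sum_congr rfl fun j _ => ?_
        split_ifs
        · rfl
        · rw [zero_smul]
      rw [h4]
      refine Finset.sum_bij (fun i _ => i + m) ?_ ?_ ?_ ?_
      · intro a ha
        rw [Finset.mem_filter, Finset.mem_range] at ha ⊢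
        omega
      · intro a _ b _ hab
        omega
      · intro b hb
        rw [Finset.mem_filter, Finset.mem_range] at hb
        refine ⟨b - m, ?_, by omega⟩
        rw [Finset.mem_filter, Finset.mem_range]
        omega
      · intro a _
        rw [Nat.add_sub_cancel]
    have h4 := Fintype.linearIndependent_iff.1 (h.linInd hv) _ h3 ⟨i + m, by omega⟩
    simp only at h4
    rw [if_pos (by omega), Nat.add_sub_cancel] at h4
    rw [h4, zero_smul]

theorem Reg.ker_one (h : Reg N r) {v : V} (hv : (N ^ r) v ≠ 0) {x : V} (hx : N x = 0) :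
    ∃ c : k, x = c • (N ^ r) v := by
  obtain ⟨c, hc⟩ := h.ker_pow hv (m := 1) (x := x) (by rw [pow_one]; exact hx)
  refine ⟨c r, ?_⟩
  rw [hc]
  have h1 : (Finset.range (r + 1)).filter (fun i => r < i + 1) = {r} := by
    ext i
    simp
    omega
  rw [h1, Finset.sum_singleton]

theorem Reg.finrank_ker_le (h : Reg N r) (m : ℕ) : finrank k (LinearMap.ker (N ^ m)) ≤ m := by
  classical
  obtain ⟨v, hv⟩ := h.exists_vec
  have h1 : LinearMap.ker (N ^ m) ≤ Submodule.span k
      (((Finset.range (r + 1)).filter (fun i => r < i + m)).image fun i => (N ^ i) v : Set V) := by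
    intro x hx
    obtain ⟨c, hc⟩ := h.ker_pow hv hx
    rw [hc]
    refine Submodule.sum_mem _ fun i hi => Submodule.smul_mem _ _ (Submodule.subset_span ?_)
    exact Finset.mem_coe.2 (Finset.mem_image_of_mem _ hi)
  refine le_trans (Submodule.finrank_mono h1) ?_
  have h2 := finrank_span_finset_le_card (R := k)
    (((Finset.range (r + 1)).filter (fun i => r < i + m)).image fun i => (N ^ i) v)
  refine le_trans h2 (le_trans Finset.card_image_le ?_)
  have h3 : (Finset.range (r + 1)).filter (fun i => r < i + m) ⊆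
      Finset.Ico (r + 1 - m) (r + 1) := by
    intro i hi
    rw [Finset.mem_filter, Finset.mem_range] at hi
    rw [Finset.mem_Ico]
    omega
  refine le_trans (Finset.card_le_card h3) ?_
  rw [Nat.card_Ico]
  omega

/-- A subspace stable under `N` is the kernel of a power of `N`. -/
theorem Reg.stable (h : Reg N r) {U : Submodule k V} (hU : ∀ u ∈ U, N u ∈ U) :
    U = LinearMap.ker (N ^ finrank k U) := by
  refine Submodule.eq_of_le_of_finrank_le ?_ (h.finrank_ker_le _)
  intro u hu
  exact pow_finrank_restrict h.nil hU hu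

end Pool.Agent.Y114.MU
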