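import Mathlib
import Pool.Agent.Y114.MU.Eig

/-!
# The trace form of an irreducible Lie algebra of endomorphisms with a regular nilpotent element
-/

set_option autoImplicit false
set_option linter.unusedSectionVars false

namespace Pool.Agent.Y114.MU

open Module Pool.Agent.Y114.AP

variable {k : Type*} [Field k] [CharZero k] {V : Type*} [AddCommGroup V] [Module k V]
  [FiniteDimensional k V]

attribute [local instance 100] LieRing.ofAssociativeRing

theorem exists_killed (R : Submodule k (End k V)) (hR : ∀ X ∈ R, ∀ Y ∈ R, X * Y - Y * X ∈ R)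
    (htr : ∀ X ∈ R, ∀ Y ∈ R, LinearMap.trace k V (X * Y) = 0) [Nontrivial V] :
    ∃ v : V, v ≠ 0 ∧ ∀ X ∈ R, ∀ Y ∈ R, (X * Y - Y * X) v = 0 := by
  let 𝔯 : LieSubalgebra k (End k V) := { R with
    lie_mem' := by
      intro X Y hX hY
      exact hR X hX Y hY }
  have h0 : LieModule.traceForm k 𝔯 V = 0 := by
    refine LinearMap.ext fun X => LinearMap.ext fun Y => ?_
    rw [LieModule.traceForm_apply_apply]
    exact htr X.1 X.2 Y.1 Y.2
  have h1 := LieModule.isNilpotent_derivedSeries_of_traceForm_eq_zero h0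
  have h2 := LieModule.nontrivial_max_triv_of_isNilpotent k (LieAlgebra.derivedSeries k 𝔯 1) V
  obtain ⟨⟨v, hv⟩, hv0⟩ := exists_ne (0 : LieModule.maxTrivSubmodule k
    (LieAlgebra.derivedSeries k 𝔯 1) V)
  refine ⟨v, fun h => hv0 (Subtype.ext h), fun X hX Y hY => ?_⟩
  rw [LieModule.mem_maxTrivSubmodule] at hv
  have h3 : ⁅(⟨X, hX⟩ : 𝔯), (⟨Y, hY⟩ : 𝔯)⁆ ∈ LieAlgebra.derivedSeries k 𝔯 1 := by
    rw [LieAlgebra.derivedSeries_def, LieAlgebra.derivedSeriesOfIdeal_succ,
      LieAlgebra.derivedSeriesOfIdeal_zero]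
    exact LieSubmodule.lie_mem_lie (LieSubmodule.mem_top _) (LieSubmodule.mem_top _)
  exact hv ⟨_, h3⟩

/-- Commuting nilpotent endomorphisms have a common eigenvector. -/
theorem common_kernel (S : Set (End k V)) (hcomm : ∀ X ∈ S, ∀ Y ∈ S, X * Y = Y * X)
    (hnil : ∀ X ∈ S, IsNilpotent X) [Nontrivial V] : ∃ v : V, v ≠ 0 ∧ ∀ X ∈ S, X v = 0 := by
  classical
  let P : ℕ → Prop := fun d => ∃ U : Submodule k V, U ≠ ⊥ ∧ (∀ X ∈ S, ∀ u ∈ U, X u ∈ U) ∧
    finrank k U = d
  have hP : ∃ d, P d := ⟨_, ⊤, top_ne_bot, fun _ _ _ _ => trivial, rfl⟩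
  obtain ⟨U, hU0, hUs, hUd⟩ := Nat.find_spec hP
  have hmin : ∀ W : Submodule k V, W ≠ ⊥ → (∀ X ∈ S, ∀ u ∈ W, X u ∈ W) →
      finrank k U ≤ finrank k W := by
    intro W h1 h2
    rw [hUd]
    exact Nat.find_min' hP ⟨W, h1, h2, rfl⟩
  obtain ⟨v, hv, hv0⟩ := Submodule.exists_mem_ne_zero_of_ne_bot hU0
  refine ⟨v, hv0, fun X hX => ?_⟩
  have hpow : ∀ m, (X ^ m) v ∈ U := by
    intro m
    induction m with
    | zero => exact hv
    | succ m ih =>
      rw [pow_succ', Module.End.mul_apply]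
      exact hUs X hX _ ih
  have hne : U ⊓ LinearMap.ker X ≠ ⊥ := by
    obtain ⟨e, he⟩ := hnil X hX
    have hex : ∃ m, (X ^ m) v = 0 := ⟨e, by rw [he]; rfl⟩
    have h1 := Nat.find_spec hex
    have h2 : Nat.find hex ≠ 0 := by
      intro h0
      rw [h0, pow_zero] at h1
      exact hv0 h1
    obtain ⟨m, hm⟩ := Nat.exists_eq_succ_of_ne_zero h2
    have h3 : (X ^ m) v ≠ 0 := Nat.find_min hex (by omega)
    intro h4
    apply h3
    have h5 : (X ^ m) v ∈ U ⊓ LinearMap.ker X := by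
      refine ⟨hpow m, LinearMap.mem_ker.2 ?_⟩
      rw [← Module.End.mul_apply, ← pow_succ']
      rw [hm] at h1
      exact h1
    rw [h4] at h5
    exact h5
  have hst : ∀ Y ∈ S, ∀ u ∈ U ⊓ LinearMap.ker X, Y u ∈ U ⊓ LinearMap.ker X := by
    intro Y hY u hu
    refine ⟨hUs Y hY u hu.1, LinearMap.mem_ker.2 ?_⟩
    rw [← Module.End.mul_apply, hcomm X hX Y hY, Module.End.mul_apply,
      LinearMap.mem_ker.1 hu.2, map_zero]
  have h6 := Submodule.eq_of_le_of_finrank_le (inf_le_left) (hmin _ hne hst)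
  rw [← h6] at hv
  exact hv.2

/-- A derivation maps nilpotent elements to nilpotent elements. -/
theorem nilpotent_bracket {X Y : End k V} (hX : IsNilpotent X)
    (h1 : X * (Y * X - X * Y) = (Y * X - X * Y) * X)
    (h2 : (Y * X - X * Y) * (Y * (Y * X - X * Y) - (Y * X - X * Y) * Y) =
      (Y * (Y * X - X * Y) - (Y * X - X * Y) * Y) * (Y * X - X * Y)) :
    IsNilpotent (Y * X - X * Y) := by
  set C := Y * X - X * Y with hC
  set D := Y * C - C * Y with hD
  have hXC : Commute X C := h1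
  have hCD : Commute C D := h2
  have hYX : Y * X = X * Y + C := by rw [hC]; abel
  have hYC : Y * C = C * Y + D := by rw [hD]; abel
  clear_value D
  clear_value C
  have hXm : ∀ a : ℕ, Y * X ^ (a + 1) = X ^ (a + 1) * Y + ((a + 1 : ℕ) : k) • (X ^ a * C) := by
    intro a
    induction a with
    | zero => simp [hYX]
    | succ a ih =>
      have h3 : X ^ a * C * X = X ^ (a + 1) * C := by
        rw [mul_assoc, ← hXC.eq, ← mul_assoc, ← pow_succ]
      rw [pow_succ X (a + 1), ← mul_assoc, ih, add_mul, mul_assoc (X ^ (a + 1)) Y X, hYX, mul_add,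
        smul_mul_assoc, h3, ← mul_assoc]
      push_cast
      module
  have hG : ∀ b : ℕ, C * (Y * C ^ b - C ^ b * Y) = (b : k) • (C ^ b * D) := by
    intro b
    induction b with
    | zero => simp
    | succ b ih =>
      have h3 : Y * C ^ (b + 1) - C ^ (b + 1) * Y = (Y * C ^ b - C ^ b * Y) * C + C ^ b * D := by
        rw [pow_succ, hD, mul_sub, sub_mul]
        noncomm_ring
      rw [h3, mul_add, ← mul_assoc, ih, smul_mul_assoc, mul_assoc (C ^ b) D C, ← hCD.eq,
        ← mul_assoc, ← mul_assoc, ← pow_succ, ← pow_succ']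
      push_cast
      module
  have hstep : ∀ a b : ℕ, X ^ (a + 1) * C ^ b = 0 → X ^ a * C ^ (b + 2) = 0 := by
    intro a b hab
    have h3 : Y * (X ^ (a + 1) * C ^ b) = X ^ (a + 1) * (Y * C ^ b - C ^ b * Y) +
        X ^ (a + 1) * C ^ b * Y + ((a + 1 : ℕ) : k) • (X ^ a * C ^ (b + 1)) := by
      rw [← mul_assoc, hXm, add_mul, smul_mul_assoc, mul_sub]
      have : X ^ a * C * C ^ b = X ^ a * C ^ (b + 1) := by rw [mul_assoc, ← pow_succ']
      rw [this]
      noncomm_ring
    rw [hab, mul_zero, zero_mul, add_zero] at h3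
    have h4 : C * (X ^ (a + 1) * (Y * C ^ b - C ^ b * Y)) = 0 := by
      rw [← mul_assoc, (hXC.symm.pow_right (a + 1)).eq, mul_assoc, hG, mul_smul_comm, ← mul_assoc,
        hab, zero_mul, smul_zero]
    have h5 := congrArg (fun T => C * T) h3
    simp only [mul_zero, mul_add] at h5
    rw [h4, zero_add, mul_smul_comm, ← mul_assoc, (hXC.symm.pow_right a).eq, mul_assoc,
      ← pow_succ'] at h5
    have h6 : ((a + 1 : ℕ) : k) ≠ 0 := Nat.cast_ne_zero.2 (by omega)
    exact (smul_eq_zero.1 h5.symm).resolve_left h6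
  obtain ⟨e, he⟩ := hX
  have hP : ∀ s a : ℕ, a + s = e → X ^ a * C ^ (2 * s) = 0 := by
    intro s
    induction s with
    | zero =>
      intro a ha
      rw [add_zero] at ha
      rw [ha, he, zero_mul]
    | succ s ih =>
      intro a ha
      exact hstep a (2 * s) (ih (a + 1) (by omega))
  refine ⟨2 * e, ?_⟩
  have := hP e 0 (by omega)
  rwa [pow_zero, one_mul] at this

section main

variable (L : Submodule k (End k V)) (hbr : ∀ X ∈ L, ∀ Y ∈ L, X * Y - Y * X ∈ L)
  (hirr : ∀ U : Submodule k V, (∀ X ∈ L, ∀ u ∈ U, X u ∈ U) → U = ⊥ ∨ U = ⊤)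
  (htr : ∀ X ∈ L, LinearMap.trace k V X = 0)

include hbr hirr htr in
/-- The trace form is nondegenerate. -/
theorem rad_zero {N : End k V} {r : ℕ} (h : Reg N r) (hN : N ∈ L) {X : End k V} (hX : X ∈ L)
    (hX' : ∀ Y ∈ L, LinearMap.trace k V (X * Y) = 0) : X = 0 := by
  classical
  have hnt : Nontrivial V := by
    apply Module.nontrivial_of_finrank_pos (R := k)
    rw [h.dim]
    omega
  -- the radical
  have hRmem : ∀ X : End k V, (X ∈ L ∧ ∀ Y ∈ L, LinearMap.trace k V (X * Y) = 0) →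
      ∀ Y ∈ L, (X * Y - Y * X ∈ L ∧ ∀ Z ∈ L, LinearMap.trace k V ((X * Y - Y * X) * Z) = 0) := by
    intro X hX Y hY
    refine ⟨hbr X hX.1 Y hY, fun Z hZ => ?_⟩
    have h1 := hX.2 (Y * Z - Z * Y) (hbr Y hY Z hZ)
    have h2 : LinearMap.trace k V (Y * X * Z) = LinearMap.trace k V (X * (Z * Y)) := by
      rw [mul_assoc, LinearMap.trace_mul_comm, mul_assoc]
    rw [sub_mul, map_sub, h2, mul_assoc, ← map_sub, ← mul_sub]
    exact h1
  let R : Submodule k (End k V) :=
    { carrier := {X | X ∈ L ∧ ∀ Y ∈ L, LinearMap.trace k V (X * Y) = 0}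
      zero_mem' := ⟨Submodule.zero_mem _, fun Y _ => by rw [zero_mul, map_zero]⟩
      add_mem' := fun {a b} ha hb => ⟨Submodule.add_mem _ ha.1 hb.1, fun Y hY => by
        rw [add_mul, map_add, ha.2 Y hY, hb.2 Y hY, add_zero]⟩
      smul_mem' := fun c a ha => ⟨Submodule.smul_mem _ _ ha.1, fun Y hY => by
        rw [smul_mul_assoc, map_smul, ha.2 Y hY, smul_zero]⟩ }
  have hRL : ∀ X ∈ R, X ∈ L := fun X hX => hX.1
  have hRid : ∀ X ∈ R, ∀ Y ∈ L, X * Y - Y * X ∈ R := fun X hX Y hY => hRmem X hX Y hY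
  -- `R` is commutative
  have hcomm : ∀ X ∈ R, ∀ Y ∈ R, X * Y = Y * X := by
    obtain ⟨v, hv0, hv⟩ := exists_killed R (fun X hX Y hY => hRid X hX Y (hRL Y hY))
      (fun X hX Y hY => hX.2 Y (hRL Y hY))
    let U : Submodule k V :=
      { carrier := {v | ∀ X ∈ R, ∀ Y ∈ R, (X * Y - Y * X) v = 0}
        zero_mem' := fun X _ Y _ => map_zero _
        add_mem' := fun {a b} ha hb X hX Y hY => by rw [map_add, ha X hX Y hY, hb X hX Y hY, add_zero]
        smul_mem' := fun c a ha X hX Y hY => by rw [map_smul, ha X hX Y hY, smul_zero] }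
    have hUs : ∀ Z ∈ L, ∀ u ∈ U, Z u ∈ U := by
      intro Z hZ u hu X hX Y hY
      have h1 : (X * Y - Y * X) * Z = Z * (X * Y - Y * X) +
          (((X * Z - Z * X) * Y - Y * (X * Z - Z * X)) +
            (X * (Y * Z - Z * Y) - (Y * Z - Z * Y) * X)) := by noncomm_ring
      have h2 := hu (X * Z - Z * X) (hRid X hX Z hZ) Y hY
      have h3 := hu X hX (Y * Z - Z * Y) (hRid Y hY Z hZ)
      calc (X * Y - Y * X) (Z u) = ((X * Y - Y * X) * Z) u := rfl
        _ = Z ((X * Y - Y * X) u) + (((X * Z - Z * X) * Y - Y * (X * Z - Z * X)) u +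
            (X * (Y * Z - Z * Y) - (Y * Z - Z * Y) * X) u) := by rw [h1]; rfl
        _ = 0 := by rw [hu X hX Y hY, h2, h3, map_zero, add_zero, add_zero]
    rcases hirr U hUs with h1 | h1
    · exfalso
      have h2 : v ∈ U := hv
      rw [h1] at h2
      exact hv0 h2
    · intro X hX Y hY
      rw [← sub_eq_zero]
      refine LinearMap.ext fun u => ?_
      have h2 : u ∈ U := by rw [h1]; trivial
      exact h2 X hX Y hY
  by_contra hX0
  have hXR : X ∈ R := ⟨hX, hX'⟩
  -- an element which commutes with `N`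
  obtain ⟨z, hzR, hz0, hzN⟩ : ∃ z ∈ R, z ≠ 0 ∧ z * N = N * z := by
    let A : End k V →ₗ[k] End k V := LinearMap.mulLeft k N - LinearMap.mulRight k N
    have hA : ∀ Y, A Y = N * Y - Y * N := fun Y => rfl
    have hAnil : IsNilpotent A := by
      have h1 : Commute (LinearMap.mulLeft k N) (LinearMap.mulRight k N) :=
        LinearMap.commute_mulLeft_right N N
      refine h1.isNilpotent_sub ?_ ?_
      · obtain ⟨e, he⟩ := h.nil
        exact ⟨e, by rw [LinearMap.pow_mulLeft, he]; exact LinearMap.mulLeft_zero_eq_zero k _⟩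
      · obtain ⟨e, he⟩ := h.nil
        exact ⟨e, by rw [LinearMap.pow_mulRight, he]; exact LinearMap.mulRight_zero_eq_zero k _⟩
    have hAR : ∀ m, (A ^ m) X ∈ R := by
      intro m
      induction m with
      | zero => exact hXR
      | succ m ih =>
        rw [pow_succ', Module.End.mul_apply, hA, ← neg_sub]
        exact Submodule.neg_mem _ (hRid _ ih N hN)
    obtain ⟨e, he⟩ := hAnil
    have hex : ∃ m, (A ^ m) X = 0 := ⟨e, by rw [he]; rfl⟩
    have h1 := Nat.find_spec hex
    have h2 : Nat.find hex ≠ 0 := by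
      intro h0
      rw [h0, pow_zero] at h1
      exact hX0 h1
    obtain ⟨m, hm⟩ := Nat.exists_eq_succ_of_ne_zero h2
    refine ⟨(A ^ m) X, hAR m, Nat.find_min hex (by omega), ?_⟩
    rw [hm, Nat.succ_eq_add_one, pow_succ', Module.End.mul_apply, hA, sub_eq_zero] at h1
    exact h1.symm
  obtain ⟨c, hc⟩ := h.comm hzN
  have hNi : ∀ i, 0 < i → LinearMap.trace k V (N ^ i) = 0 := by
    intro i hi
    exact (LinearMap.isNilpotent_trace_of_isNilpotent (h.nil.pow_of_pos hi.ne')).eq_zero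
  have hc0 : c 0 = 0 := by
    have h1 := htr z (hRL z hzR)
    rw [hc, map_sum, Finset.sum_range_succ', Finset.sum_eq_zero, zero_add, map_smul, pow_zero,
      LinearMap.trace_one, h.dim, smul_eq_mul] at h1
    · have h2 : ((r + 1 : ℕ) : k) ≠ 0 := Nat.cast_ne_zero.2 (by omega)
      exact (mul_eq_zero.1 h1).resolve_right h2
    · intro i _
      rw [map_smul, hNi _ (Nat.succ_pos i), smul_zero]
  have hznil : IsNilpotent z := by
    have h1 : z = N * ∑ i ∈ Finset.range r, c (i + 1) • N ^ i := by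
      rw [hc, Finset.sum_range_succ', hc0, zero_smul, add_zero, Finset.mul_sum]
      refine Finset.sum_congr rfl fun i _ => ?_
      rw [mul_smul_comm, ← pow_succ']
    rw [h1]
    refine Commute.isNilpotent_mul_right ?_ h.nil
    refine Commute.sum_right _ _ _ fun i _ => ?_
    exact ((Commute.refl N).pow_right i).smul_right _
  -- the common kernel
  obtain ⟨v, hv0, hv⟩ := common_kernel {Y : End k V | Y ∈ R ∧ IsNilpotent Y}
    (fun X hX Y hY => hcomm X hX.1 Y hY.1) (fun X hX => hX.2)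
  let U : Submodule k V :=
    { carrier := {v | ∀ X ∈ R, IsNilpotent X → X v = 0}
      zero_mem' := fun X _ _ => map_zero _
      add_mem' := fun {a b} ha hb X hX hX' => by rw [map_add, ha X hX hX', hb X hX hX', add_zero]
      smul_mem' := fun c a ha X hX hX' => by rw [map_smul, ha X hX hX', smul_zero] }
  have hUs : ∀ Y ∈ L, ∀ u ∈ U, Y u ∈ U := by
    intro Y hY u hu X hX hXn
    have h1 : Y * X - X * Y ∈ R := by
      rw [← neg_sub]
      exact Submodule.neg_mem _ (hRid X hX Y hY)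
    have h2 : Y * (Y * X - X * Y) - (Y * X - X * Y) * Y ∈ R := by
      rw [← neg_sub]
      exact Submodule.neg_mem _ (hRid _ h1 Y hY)
    have h3 := nilpotent_bracket hXn (hcomm X hX _ h1) (hcomm _ h1 _ h2)
    have h4 := hu _ h1 h3
    calc X (Y u) = (X * Y) u := rfl
      _ = Y (X u) - (Y * X - X * Y) u := by
        rw [LinearMap.sub_apply, Module.End.mul_apply Y X, sub_sub_cancel]
      _ = 0 := by rw [hu X hX hXn, h4, map_zero, sub_zero]
  rcases hirr U hUs with h1 | h1
  · have h2 : v ∈ U := fun X hX hXn => hv X ⟨hX, hXn⟩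
    rw [h1] at h2
    exact hv0 h2
  · apply hz0
    refine LinearMap.ext fun u => ?_
    have h2 : u ∈ U := by rw [h1]; trivial
    exact h2 z hzR hznil

end main

end Pool.Agent.Y114.MU
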