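import Mathlib
import Pool.Agent.Y114.MU.Cube
import Pool.Agent.H204R3.SP.Irr

/-!
# The diagonal torus in an irreducible Lie algebra with a regular nilpotent element
-/

set_option autoImplicit false
set_option linter.unusedSectionVars false
set_option linter.unusedVariables false

namespace Pool.Agent.Y114.MU

open Module Pool.Agent.Y114.AP

variable {k : Type*} [Field k] [CharZero k] {V : Type*} [AddCommGroup V] [Module k V]
  [FiniteDimensional k V] {N H f : End k V} {r : ℕ} {v : V}

/-- Two endomorphisms which agree on the basis `N ^ j v`. -/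
theorem Reg.ext_le (h : Reg N r) (hv : (N ^ r) v ≠ 0) {X Y : End k V}
    (hXY : ∀ j : ℕ, j ≤ r → X ((N ^ j) v) = Y ((N ^ j) v)) : X = Y := by
  refine (h.bas hv).ext fun j => ?_
  rw [h.bas_apply hv]
  exact hXY j (by omega)

/-- The diagonal endomorphism with given coefficients in the basis `N ^ j v`. -/
noncomputable def Dg (h : Reg N r) (hv : (N ^ r) v ≠ 0) (φ : ℕ → k) : End k V :=
  (h.bas hv).constr k (fun j => φ (j : ℕ) • (N ^ (j : ℕ)) v)

theorem Dg_apply (h : Reg N r) (hv : (N ^ r) v ≠ 0) (φ : ℕ → k) (j : ℕ) :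
    Dg h hv φ ((N ^ j) v) = φ j • (N ^ j) v := by
  by_cases hj : j < r + 1
  · have h1 := (h.bas hv).constr_basis k (fun j => φ (j : ℕ) • (N ^ (j : ℕ)) v) ⟨j, hj⟩
    rw [h.bas_apply hv] at h1
    exact h1
  · rw [h.pow_zero_of_lt (show r < j by omega), LinearMap.zero_apply, map_zero, smul_zero]

/-- The indicator of a class of simple roots. -/
noncomputable def ind (k : Type*) [Field k] (r c s : ℕ) : k := if s = c ∨ s + c + 1 = r then 1 else 0

theorem ind_sum {p : ℕ} {s : ℕ} (hs : s ≤ 2 * p) :
    ∑ c ∈ Finset.range (p + 1), ind k (2 * p + 1) c s = 1 := by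
  rw [Finset.sum_eq_single (if s ≤ p then s else 2 * p - s)]
  · unfold ind
    rw [if_pos]
    split_ifs with h
    · exact Or.inl rfl
    · right
      omega
  · intro c hc hne
    rw [Finset.mem_range] at hc
    unfold ind
    rw [if_neg]
    rintro (h | h)
    · apply hne
      rw [if_pos (by omega), h]
    · apply hne
      split_ifs with h2 <;> omega
  · intro h
    exfalso
    apply h
    rw [Finset.mem_range]
    split_ifs <;> omega

theorem delta_eq (r : ℕ) (c s : ℕ) (h : s = c ∨ s + c + 1 = r) :
    xc (k := k) r ((s : k) + 1) - xc r (s : k) = xc r ((c : k) + 1) - xc r (c : k) := by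
  rcases h with rfl | h
  · rfl
  · subst h
    unfold xc
    push_cast
    ring

theorem delta_inj {p c c' : ℕ} (hc : c ≤ p) (hc' : c' ≤ p)
    (h : xc (k := k) (2 * p + 1) ((c : k) + 1) - xc (2 * p + 1) (c : k) =
      xc (2 * p + 1) ((c' : k) + 1) - xc (2 * p + 1) (c' : k)) : c = c' := by
  have h1 : ((c : k) - c') * ((c : k) + c' - 2 * p) = 0 := by
    unfold xc at h
    push_cast at h
    linear_combination (-1 / 45) * h
  rcases mul_eq_zero.1 h1 with h2 | h2
  · have : (c : k) = c' := by linear_combination h2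
    exact_mod_cast this
  · have h3 : ((c + c' : ℕ) : k) = ((2 * p : ℕ) : k) := by
      push_cast
      linear_combination h2
    have h4 : c + c' = 2 * p := by exact_mod_cast h3
    omega

variable (L : Submodule k (End k V)) (hbr : ∀ X ∈ L, ∀ Y ∈ L, X * Y - Y * X ∈ L)

include hbr in
theorem Z_mem {p : ℕ} (T : Triple N H f (2 * p + 1) v) (hN : N ∈ L) (hX : X3 N f ∈ L) {c : ℕ}
    (hc : c ≤ p) : N * Dg T.reg T.vec (ind k (2 * p + 1) c) ∈ L := by
  classical
  refine split_mem (LinearMap.mulLeft k (X3 N f) - LinearMap.mulRight k (X3 N f)) L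
    (fun z hz => hbr _ hX z hz) (Finset.range (p + 1))
    (fun c => xc (2 * p + 1) ((c : k) + 1) - xc (2 * p + 1) (c : k))
    (fun i hi j hj hij => delta_inj (by rw [Finset.mem_range] at hi; omega)
      (by rw [Finset.mem_range] at hj; omega) hij)
    (fun c => N * Dg T.reg T.vec (ind k (2 * p + 1) c)) (fun i _ => ?_) ?_ c
    (Finset.mem_range.2 (by omega))
  · change X3 N f * (N * Dg T.reg T.vec (ind k (2 * p + 1) i)) -
      (N * Dg T.reg T.vec (ind k (2 * p + 1) i)) * X3 N f = _
    refine T.reg.ext_le T.vec fun s hs => ?_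
    simp only [LinearMap.sub_apply, LinearMap.smul_apply, Module.End.mul_apply, Dg_apply, map_smul,
      T.X3_apply, T.N_apply]
    rw [smul_smul, smul_smul, smul_smul, ← sub_smul]
    congr 1
    by_cases h : s = i ∨ s + i + 1 = 2 * p + 1
    · have h1 := delta_eq (k := k) (2 * p + 1) i s h
      push_cast
      rw [show ind k (2 * p + 1) i s = 1 from if_pos h]
      rw [← h1]
      ring
    · rw [show ind k (2 * p + 1) i s = 0 from if_neg h]
      ring
  · have h1 : ∑ i ∈ Finset.range (p + 1), N * Dg T.reg T.vec (ind k (2 * p + 1) i) = N := by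
      refine T.reg.ext_le T.vec fun s hs => ?_
      rw [LinearMap.sum_apply]
      simp only [Module.End.mul_apply, Dg_apply, map_smul]
      rw [← Finset.sum_smul]
      rcases eq_or_lt_of_le hs with h2 | h2
      · rw [T.N_apply, T.reg.pow_zero_of_lt (show 2 * p + 1 < s + 1 by omega), LinearMap.zero_apply,
          smul_zero]
      · rw [ind_sum (by omega), one_smul]
    rw [h1]
    exact hN

include hbr in
theorem Z'_mem {p : ℕ} (T : Triple N H f (2 * p + 1) v) (hf : f ∈ L) (hX : X3 N f ∈ L) {c : ℕ}
    (hc : c ≤ p) : Dg T.reg T.vec (ind k (2 * p + 1) c) * f ∈ L := by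
  classical
  refine split_mem (LinearMap.mulLeft k (X3 N f) - LinearMap.mulRight k (X3 N f)) L
    (fun z hz => hbr _ hX z hz) (Finset.range (p + 1))
    (fun c => -(xc (2 * p + 1) ((c : k) + 1) - xc (2 * p + 1) (c : k)))
    (fun i hi j hj hij => delta_inj (by rw [Finset.mem_range] at hi; omega)
      (by rw [Finset.mem_range] at hj; omega) (neg_injective hij))
    (fun c => Dg T.reg T.vec (ind k (2 * p + 1) c) * f) (fun i _ => ?_) ?_ c
    (Finset.mem_range.2 (by omega))
  · change X3 N f * (Dg T.reg T.vec (ind k (2 * p + 1) i) * f) -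
      (Dg T.reg T.vec (ind k (2 * p + 1) i) * f) * X3 N f = _
    refine T.reg.ext_le T.vec fun s hs => ?_
    rcases s with _ | s
    · have h1 := T.X3_apply 0
      rw [pow_zero, Module.End.one_apply] at h1 ⊢
      simp only [LinearMap.sub_apply, LinearMap.smul_apply, Module.End.mul_apply, T.low0, h1,
        map_smul, map_zero, smul_zero, sub_zero]
    · simp only [LinearMap.sub_apply, LinearMap.smul_apply, Module.End.mul_apply, T.low, Dg_apply,
        map_smul, T.X3_apply]
      simp only [smul_smul]
      rw [← sub_smul]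
      congr 1
      by_cases h : s = i ∨ s + i + 1 = 2 * p + 1
      · have h1 := delta_eq (k := k) (2 * p + 1) i s h
        push_cast
        rw [show ind k (2 * p + 1) i s = 1 from if_pos h]
        rw [← h1]
        ring
      · rw [show ind k (2 * p + 1) i s = 0 from if_neg h]
        ring
  · have h1 : ∑ i ∈ Finset.range (p + 1), Dg T.reg T.vec (ind k (2 * p + 1) i) * f = f := by
      refine T.reg.ext_le T.vec fun s hs => ?_
      rw [LinearMap.sum_apply]
      rcases s with _ | s
      · simp only [Module.End.mul_apply, pow_zero, Module.End.one_apply, T.low0, map_zero,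
          Finset.sum_const_zero]
      · simp only [Module.End.mul_apply, T.low, Dg_apply, map_smul]
        rw [← Finset.smul_sum, ← Finset.sum_smul, ind_sum (by omega), one_smul]
    rw [h1]
    exact hf

/-- The basic diagonal elements. -/
noncomputable def dn (k : Type*) [Field k] (r c s : ℕ) : k :=
  (if s = c then 1 else 0) - (if s + c = r then 1 else 0)

theorem Fc_symm {p c : ℕ} (hc : c ≤ p) (s : k) (hs : s = ((2 * p + 1 - c : ℕ) : k)) :
    Fc (2 * p + 1) s = Fc (2 * p + 1) ((c : k) + 1) := by
  rw [hs, Nat.cast_sub (by omega)]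
  unfold Fc
  push_cast
  ring

theorem bracket_apply {p : ℕ} (T : Triple N H f (2 * p + 1) v) {c : ℕ} (s : ℕ) :
    ((N * Dg T.reg T.vec (ind k (2 * p + 1) c)) * (Dg T.reg T.vec (ind k (2 * p + 1) c) * f) -
      (Dg T.reg T.vec (ind k (2 * p + 1) c) * f) * (N * Dg T.reg T.vec (ind k (2 * p + 1) c)))
      ((N ^ s) v) =
    ((if s = c + 1 ∨ s + c = 2 * p + 1 then Fc (2 * p + 1) (s : k) else 0) -
      (if s = c ∨ s + c + 1 = 2 * p + 1 then Fc (2 * p + 1) ((s : k) + 1) else 0)) • (N ^ s) v := by
  rcases s with _ | s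
  · have h1 := Dg_apply T.reg T.vec (ind k (2 * p + 1) c) 0
    rw [pow_zero, Module.End.one_apply] at h1
    have h2 := T.low 0
    have h3 := T.N_apply 0
    rw [pow_zero, Module.End.one_apply] at h2 h3
    simp only [LinearMap.sub_apply, Module.End.mul_apply, pow_zero, Module.End.one_apply, T.low0,
      map_zero, zero_sub, h1, map_smul, h2, h3]
    rw [Nat.cast_zero, Fc_zero, ite_self, zero_sub, neg_smul, smul_smul, smul_smul]
    congr 2
    unfold ind
    split_ifs <;> ring
  · simp only [LinearMap.sub_apply, Module.End.mul_apply, T.low, Dg_apply, map_smul, T.N_apply]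
    simp only [smul_smul]
    rw [← sub_smul]
    congr 1
    have h1 : (s + 1 = c + 1 ∨ s + 1 + c = 2 * p + 1) ↔ (s = c ∨ s + c + 1 = 2 * p + 1) := by
      omega
    simp only [h1]
    unfold ind
    push_cast
    split_ifs <;> ring

include hbr in
theorem dn_mem {p : ℕ} (T : Triple N H f (2 * p + 1) v) (hN : N ∈ L) (hf : f ∈ L)
    (hX : X3 N f ∈ L) : ∀ d c : ℕ, c + d = p → Dg T.reg T.vec (dn k (2 * p + 1) c) ∈ L := by
  intro d
  induction d with
  | zero =>
    intro c hc
    rw [add_zero] at hc
    subst hc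
    have h1 := hbr _ (Z_mem L hbr T hN hX le_rfl) _ (Z'_mem L hbr T hf hX le_rfl)
    have hF : Fc (k := k) (2 * c + 1) ((c : k) + 1) ≠ 0 := by
      unfold Fc
      push_cast
      have h2 : (c : k) + 1 ≠ 0 := by exact_mod_cast Nat.succ_ne_zero c
      rw [show (2 * (c : k) + 1 + 1 - (c + 1)) = c + 1 by ring]
      exact div_ne_zero (mul_ne_zero h2 h2) two_ne_zero
    have h2 := Submodule.smul_mem L (-(Fc (k := k) (2 * c + 1) ((c : k) + 1))⁻¹) h1
    convert h2 using 1
    refine T.reg.ext_le T.vec fun s hs => ?_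
    rw [LinearMap.smul_apply, bracket_apply T, Dg_apply, smul_smul]
    congr 1
    unfold dn
    by_cases h3 : s = c
    · subst h3
      rw [if_pos rfl, if_neg (by omega), if_neg (by omega), if_pos (by omega)]
      field_simp
      ring
    · by_cases h4 : s = c + 1
      · subst h4
        rw [if_neg (by omega), if_pos (by omega), if_pos (by omega), if_neg (by omega)]
        push_cast
        field_simp
        ring
      · rw [if_neg (by omega), if_neg (by omega), if_neg (by omega), if_neg (by omega)]
        ring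
  | succ d ih =>
    intro c hc
    have h0 := ih (c + 1) (by omega)
    have h1 := hbr _ (Z_mem L hbr T hN hX (show c ≤ p by omega)) _
      (Z'_mem L hbr T hf hX (show c ≤ p by omega))
    have hF : Fc (k := k) (2 * p + 1) ((c : k) + 1) ≠ 0 := by
      unfold Fc
      have h2 : (c : k) + 1 ≠ 0 := by exact_mod_cast Nat.succ_ne_zero c
      have h3 : (((2 * p + 1 : ℕ) : k) + 1 - ((c : k) + 1)) = ((2 * p + 1 - c : ℕ) : k) := by
        rw [Nat.cast_sub (by omega)]
        ring
      rw [h3]
      exact div_ne_zero (mul_ne_zero h2 (Nat.cast_ne_zero.2 (by omega))) two_ne_zero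
    have h2 := Submodule.sub_mem _ h0
      (Submodule.smul_mem L ((Fc (k := k) (2 * p + 1) ((c : k) + 1))⁻¹) h1)
    convert h2 using 1
    refine T.reg.ext_le T.vec fun s hs => ?_
    rw [LinearMap.sub_apply, LinearMap.smul_apply, bracket_apply T, Dg_apply, Dg_apply, smul_smul,
      ← sub_smul]
    congr 1
    unfold dn
    by_cases h3 : s = c
    · subst h3
      rw [if_pos rfl, if_neg (by omega), if_neg (by omega), if_neg (by omega), if_neg (by omega),
        if_pos (by omega)]
      field_simp
      ring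
    · by_cases h4 : s = c + 1
      · subst h4
        rw [if_neg (by omega), if_neg (by omega), if_pos rfl, if_neg (by omega), if_pos (by omega),
          if_neg (by omega)]
        push_cast
        field_simp
        ring
      · by_cases h5 : s + c = 2 * p + 1
        · rw [if_neg (by omega), if_pos (by omega), if_neg (by omega), if_neg (by omega),
            if_pos (by omega), if_neg (by omega), Fc_symm (show c ≤ p by omega) (s : k) (by
              congr 1
              omega)]
          field_simp
          ring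
        · by_cases h6 : s + c + 1 = 2 * p + 1
          · rw [if_neg (by omega), if_neg (by omega), if_neg (by omega), if_pos (by omega),
              if_neg (by omega), if_pos (by omega), Fc_symm (show c ≤ p by omega) ((s : k) + 1) (by
                rw [← Nat.cast_succ]
                congr 1
                omega)]
            field_simp
            ring
          · rw [if_neg (by omega), if_neg (by omega), if_neg (by omega), if_neg (by omega),
              if_neg (by omega), if_neg (by omega)]
            ring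

include hbr in
/-- The Lie algebra contains the diagonal torus of the symplectic Lie algebra. -/
theorem torus_mem (T : Triple N H f r v) (hodd : Odd r) (hN : N ∈ L) (hf : f ∈ L)
    (hN3 : N ^ 3 ∈ L) (y : Fin (r + 1)) :
    Pool.Agent.H204R3.SP.DD (T.reg.bas T.vec) Fin.rev y ∈ L := by
  classical
  have hX : X3 N f ∈ L := by
    have h1 : ∀ Z ∈ L, f * Z - Z * f ∈ L := fun Z hZ => hbr _ hf _ hZ
    exact h1 _ (h1 _ (h1 _ hN3))
  obtain ⟨p, rfl⟩ := hodd
  have hmem : ∀ c : ℕ, c ≤ p → Dg T.reg T.vec (dn k (2 * p + 1) c) ∈ L := fun c hc =>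
    dn_mem L hbr T hN hf hX (p - c) c (by omega)
  have hDD : ∀ y : Fin (2 * p + 1 + 1),
      Pool.Agent.H204R3.SP.DD (T.reg.bas T.vec) Fin.rev y =
        Dg T.reg T.vec (dn k (2 * p + 1) (y : ℕ)) := by
    intro y
    refine (T.reg.bas T.vec).ext fun a => ?_
    rw [Pool.Agent.H204R3.SP.DD_basis, T.reg.bas_apply T.vec, Dg_apply]
    congr 1
    unfold Pool.Agent.H204R3.SP.dd dn
    have h1 : (a = y) ↔ ((a : ℕ) = (y : ℕ)) := Fin.ext_iff
    have h2 : (a = Fin.rev y) ↔ ((a : ℕ) + (y : ℕ) = 2 * p + 1) := by
      rw [Fin.ext_iff, Fin.val_rev]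
      omega
    simp only [h1, h2]
  rw [hDD]
  by_cases hy : (y : ℕ) ≤ p
  · exact hmem _ hy
  · have h1 := Submodule.neg_mem _ (hmem (2 * p + 1 - (y : ℕ)) (by omega))
    convert h1 using 1
    refine T.reg.ext_le T.vec fun s hs => ?_
    rw [LinearMap.neg_apply, Dg_apply, Dg_apply, ← neg_smul]
    congr 1
    unfold dn
    have h2 : (s = 2 * p + 1 - (y : ℕ)) ↔ (s + (y : ℕ) = 2 * p + 1) := by omega
    have h3 : (s + (2 * p + 1 - (y : ℕ)) = 2 * p + 1) ↔ (s = (y : ℕ)) := by omega
    simp only [h2, h3]
    ring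

include hbr in
/-- The dichotomy: the torus is in `L`, or `L` is spanned by a principal triple. -/
theorem classify (hirr : ∀ U : Submodule k V, (∀ X ∈ L, ∀ u ∈ U, X u ∈ U) → U = ⊥ ∨ U = ⊤)
    (htr : ∀ X ∈ L, LinearMap.trace k V X = 0) (h : Reg N r) (hodd : Odd r) (hN : N ∈ L) :
    ∃ (H f : End k V) (v : V), ∃ T : Triple N H f r v, H ∈ L ∧ f ∈ L ∧
      ((∀ y, Pool.Agent.H204R3.SP.DD (T.reg.bas T.vec) Fin.rev y ∈ L) ∨
        (3 ≤ r ∧ ∀ X ∈ L, ∃ a b c : k, X = a • N + b • H + c • f)) := by
  have hnd : ∀ X ∈ L, (∀ Y ∈ L, LinearMap.trace k V (X * Y) = 0) → X = 0 :=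
    fun X hX hX' => rad_zero L hbr hirr htr h hN hX hX'
  obtain ⟨H, f, v, T, hH, hf⟩ := exists_triple L hbr hirr htr h hN
  refine ⟨H, f, v, T, hH, hf, ?_⟩
  by_cases hr : 3 ≤ r
  · rcases three L hbr htr T (by omega) hN hH hf with h1 | ⟨m, hm2, hmr, hm⟩
    · exact Or.inr ⟨hr, h1⟩
    · exact Or.inl fun y => torus_mem L hbr T hodd hN hf
        (cube_mem L hbr hnd T hodd hN hH hf hm2 hmr hm) y
  · refine Or.inl fun y => torus_mem L hbr T hodd hN hf ?_ y
    rw [h.pow_zero_of_lt (show r < 3 by omega)]
    exact Submodule.zero_mem _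

end Pool.Agent.Y114.MU
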