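import Mathlib
import Pool.Agent.Y114.MU.Exc
import Pool.Agent.Y114.MU.Defs

/-!
# The normalizer of a principal triple: three eigenvalues are multiplicatively dependent
-/

set_option autoImplicit false
set_option linter.unusedSectionVars false
set_option linter.unusedVariables false

namespace Pool.Agent.Y114.MU

open Module Polynomial Pool.Agent.Y114.AP
open scoped TensorProduct

variable {k : Type*} [Field k] [CharZero k] {V : Type*} [AddCommGroup V] [Module k V]
  [FiniteDimensional k V] {N H f : End k V} {r : ℕ} {v : V}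

theorem Reg.bc (K : Type*) [Field K] [Algebra k K] (h : Reg N r) : Reg (N.baseChange K) r := by
  refine ⟨?_, ?_, ?_⟩
  · rw [Module.finrank_baseChange, h.dim]
  · obtain ⟨m, hm⟩ := h.nil
    refine ⟨m, ?_⟩
    rw [← LinearMap.baseChange_pow, hm, LinearMap.baseChange_zero]
  · rw [← LinearMap.baseChange_pow]
    intro h0
    apply h.ne
    refine LinearMap.ext fun x => ?_
    have h1 := congrArg (fun X : End K (K ⊗[k] V) => X (1 ⊗ₜ x)) h0
    simp only [LinearMap.baseChange_tmul, LinearMap.zero_apply] at h1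
    have h2 := Module.Flat.tensorProduct_mk_injective k V K
      (a₁ := (N ^ r) x) (a₂ := 0) (by
        rw [map_zero]
        exact h1)
    rw [h2, LinearMap.zero_apply]

theorem Triple.bc (K : Type*) [Field K] [Algebra k K] (T : Triple N H f r v) :
    Triple (N.baseChange K) (H.baseChange K) (f.baseChange K) r (1 ⊗ₜ[k] v) := by
  have h2 : algebraMap k K 2 = 2 := map_ofNat _ 2
  have hF : ∀ s : k, algebraMap k K (Fc r s) = Fc r (algebraMap k K s) := by
    intro s
    unfold Fc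
    simp [h2]
  refine ⟨T.reg.bc K, ?_, ?_, ?_, ?_⟩
  · rw [← LinearMap.baseChange_pow, LinearMap.baseChange_tmul]
    intro h0
    apply T.vec
    exact Module.Flat.tensorProduct_mk_injective k V K (by
      rw [map_zero]
      exact h0)
  · intro j
    rw [← LinearMap.baseChange_pow, LinearMap.baseChange_tmul, LinearMap.baseChange_tmul, T.wt,
      TensorProduct.tmul_smul, ← algebraMap_smul K ((j : k) - r / 2)]
    congr 1
    simp [h2]
  · rw [LinearMap.baseChange_tmul, T.low0, TensorProduct.tmul_zero]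
  · intro j
    rw [← LinearMap.baseChange_pow, ← LinearMap.baseChange_pow, LinearMap.baseChange_tmul,
      LinearMap.baseChange_tmul, LinearMap.baseChange_tmul, T.low, TensorProduct.tmul_smul,
      ← algebraMap_smul K (Fc r ((j : k) + 1)), hF]
    congr 2
    simp

/-- The eigenvalues of the elements of the normalizer of the principal triple. -/
theorem Triple.roots (K : Type*) [Field K] [Algebra k K] [IsAlgClosed K] [CharZero K]
    (T : Triple N H f r v) (hr : 0 < r) {g g' : End k V}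
    (hgg : g * g' = 1) (hgg' : g' * g = 1)
    (hN : ∃ a b c : k, g * N * g' = a • N + b • H + c • f)
    (hH : ∃ a b c : k, g * H * g' = a • N + b • H + c • f)
    (hf : ∃ a b c : k, g * f * g' = a • N + b • H + c • f) :
    ∃ b μ : K, b ≠ 0 ∧ μ ≠ 0 ∧ ∀ lam : K, (g.charpoly.map (algebraMap k K)).IsRoot lam →
      ∃ j : ℕ, lam ^ 2 * μ ^ j = b := by
  have h1 : (g.baseChange K) * (g'.baseChange K) = 1 := by
    rw [← LinearMap.baseChange_mul, hgg, LinearMap.baseChange_one]
  have h2 : (g'.baseChange K) * (g.baseChange K) = 1 := by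
    rw [← LinearMap.baseChange_mul, hgg', LinearMap.baseChange_one]
  have hX : ∀ X : End k V, (∃ a b c : k, g * X * g' = a • N + b • H + c • f) → ∃ a b c : K,
      g.baseChange K * X.baseChange K * g'.baseChange K =
        a • N.baseChange K + b • H.baseChange K + c • f.baseChange K := by
    rintro X ⟨a, b, c, h⟩
    refine ⟨algebraMap k K a, algebraMap k K b, algebraMap k K c, ?_⟩
    rw [← LinearMap.baseChange_mul, ← LinearMap.baseChange_mul, h, LinearMap.baseChange_add,
      LinearMap.baseChange_add, LinearMap.baseChange_smul, LinearMap.baseChange_smul,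
      LinearMap.baseChange_smul, algebraMap_smul, algebraMap_smul, algebraMap_smul]
  obtain ⟨a1, b1, c1, e1⟩ := hX N hN
  obtain ⟨a2, b2, c2, e2⟩ := hX H hH
  obtain ⟨a3, b3, c3, e3⟩ := hX f hf
  obtain ⟨b, μ, hb, hμ, hroots⟩ := (T.bc K).eigenvalues hr h1 h2 (fun a b c => by
    refine ⟨a * a1 + b * a2 + c * a3, a * b1 + b * b2 + c * b3, a * c1 + b * c2 + c * c3, ?_⟩
    simp only [mul_add, add_mul, mul_smul_comm, smul_mul_assoc, e1, e2, e3]
    module)
  refine ⟨b, μ, hb, hμ, fun lam hlam => hroots lam ?_⟩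
  rw [LinearMap.charpoly_baseChange]
  exact hlam

/-- Three eigenvalues are multiplicatively dependent. -/
theorem dep_of {K : Type*} [Field K] {b μ : K} (hb : b ≠ 0) (hμ : μ ≠ 0) {z : Fin 3 → K}
    (hz : ∀ i, ∃ j : ℕ, z i ^ 2 * μ ^ j = b) : ∃ e : Fin 3 → ℤ, e ≠ 0 ∧ ∏ i, z i ^ e i = 1 := by
  choose j hj using hz
  have hz0 : ∀ i, z i ≠ 0 := by
    intro i h0
    apply hb
    rw [← hj i, h0]
    ring
  by_cases h01 : j 0 = j 1
  · refine ⟨![2, -2, 0], fun h => ?_, ?_⟩
    · have := congrFun h 0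
      simp at this
    · have h1 : z 0 ^ 2 = z 1 ^ 2 := by
        have h2 := (hj 0).trans (hj 1).symm
        rw [h01] at h2
        exact mul_right_cancel₀ (pow_ne_zero _ hμ) h2
      rw [Fin.prod_univ_three]
      simp only [Matrix.cons_val, zpow_neg, zpow_zero, mul_one]
      have h3 : z 0 ^ (2 : ℤ) = z 0 ^ 2 := by exact_mod_cast rfl
      have h4 : z 1 ^ (2 : ℤ) = z 1 ^ 2 := by exact_mod_cast rfl
      rw [h3, h4, h1, mul_inv_cancel₀ (pow_ne_zero _ (hz0 1))]
  · refine ⟨![2 * ((j 1 : ℤ) - j 2), 2 * ((j 2 : ℤ) - j 0), 2 * ((j 0 : ℤ) - j 1)], fun h => ?_, ?_⟩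
    · have := congrFun h 2
      simp only [Matrix.cons_val, Pi.zero_apply] at this
      omega
    · have h1 : ∀ i, z i ^ (2 : ℤ) = b * μ ^ (-(j i : ℤ)) := by
        intro i
        rw [← hj i, mul_assoc, zpow_neg, zpow_natCast, mul_inv_cancel₀ (pow_ne_zero _ hμ), mul_one]
        exact_mod_cast rfl
      rw [Fin.prod_univ_three]
      simp only [Matrix.cons_val_zero, Matrix.cons_val_one, Matrix.cons_val]
      rw [zpow_mul, zpow_mul, zpow_mul, h1, h1, h1, mul_zpow, mul_zpow, mul_zpow, ← zpow_mul,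
        ← zpow_mul, ← zpow_mul]
      have h2 : b ^ ((j 1 : ℤ) - j 2) * μ ^ (-(j 0 : ℤ) * ((j 1 : ℤ) - j 2)) *
          (b ^ ((j 2 : ℤ) - j 0) * μ ^ (-(j 1 : ℤ) * ((j 2 : ℤ) - j 0))) *
          (b ^ ((j 0 : ℤ) - j 1) * μ ^ (-(j 2 : ℤ) * ((j 0 : ℤ) - j 1))) =
          b ^ (((j 1 : ℤ) - j 2) + ((j 2 : ℤ) - j 0) + ((j 0 : ℤ) - j 1)) *
            μ ^ (-(j 0 : ℤ) * ((j 1 : ℤ) - j 2) + -(j 1 : ℤ) * ((j 2 : ℤ) - j 0) +
              -(j 2 : ℤ) * ((j 0 : ℤ) - j 1)) := by
        rw [zpow_add₀ hb, zpow_add₀ hb, zpow_add₀ hμ, zpow_add₀ hμ]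
        ring
      rw [h2]
      have h3 : ((j 1 : ℤ) - j 2) + ((j 2 : ℤ) - j 0) + ((j 0 : ℤ) - j 1) = 0 := by ring
      have h4 : -(j 0 : ℤ) * ((j 1 : ℤ) - j 2) + -(j 1 : ℤ) * ((j 2 : ℤ) - j 0) +
              -(j 2 : ℤ) * ((j 0 : ℤ) - j 1) = 0 := by ring
      rw [h3, h4, zpow_zero, zpow_zero, mul_one]

/-- The elements of the normalizer of the principal triple do not have three independent
eigenvalues. -/
theorem Triple.not_independent (T : Triple N H f r v) (hr : 0 < r) {g g' : End k V}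
    (hgg : g * g' = 1) (hgg' : g' * g = 1)
    (hN : ∃ a b c : k, g * N * g' = a • N + b • H + c • f)
    (hH : ∃ a b c : k, g * H * g' = a • N + b • H + c • f)
    (hf : ∃ a b c : k, g * f * g' = a • N + b • H + c • f) {P : ℚ[X]}
    (hP : g.charpoly = P.map (algebraMap ℚ k)) : ¬ ThreeIndependent P := by
  rintro ⟨z, hz, hind⟩
  let K := AlgebraicClosure k
  have hK : CharZero K := charZero_of_injective_algebraMap (algebraMap k K).injective
  obtain ⟨b, μ, hb, hμ, hroots⟩ := T.roots K hr hgg hgg' hN hH hf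
  have hP0 : P ≠ 0 := by
    rintro rfl
    rw [Polynomial.map_zero] at hP
    exact g.charpoly_monic.ne_zero hP
  have hzQ : ∀ i, z i ∈ algebraicClosure ℚ ℂ := by
    intro i
    exact mem_algebraicClosure_iff.2 ⟨P, hP0, hz i⟩
  have hQalg : Algebra.IsAlgebraic ℚ (algebraicClosure ℚ ℂ) := algebraicClosure.isAlgebraic ℚ ℂ
  let j : (algebraicClosure ℚ ℂ) →ₐ[ℚ] K := IsAlgClosed.lift
  let z' : Fin 3 → K := fun i => j ⟨z i, hzQ i⟩
  have hz' : ∀ i, ∃ m : ℕ, z' i ^ 2 * μ ^ m = b := by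
    intro i
    apply hroots
    rw [hP, Polynomial.map_map, IsRoot.def, Polynomial.eval_map]
    have h1 : aeval (⟨z i, hzQ i⟩ : algebraicClosure ℚ ℂ) P = 0 := by
      have h3 : (algebraicClosure ℚ ℂ).val (aeval (⟨z i, hzQ i⟩ : algebraicClosure ℚ ℂ) P) = 0 := by
        rw [← Polynomial.aeval_algHom_apply]
        exact hz i
      exact (map_eq_zero (algebraicClosure ℚ ℂ).val).1 h3
    have h2 := congrArg j h1
    rw [← Polynomial.aeval_algHom_apply, map_zero, Polynomial.aeval_def] at h2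
    rw [show (algebraMap k K).comp (algebraMap ℚ k) = algebraMap ℚ K from Subsingleton.elim _ _]
    exact h2
  obtain ⟨e, he, h1⟩ := dep_of hb hμ hz'
  apply he
  apply hind
  have h2 : j (∏ i, (⟨z i, hzQ i⟩ : algebraicClosure ℚ ℂ) ^ e i) = 1 := by
    rw [map_prod]
    rw [← h1]
    exact Finset.prod_congr rfl fun i _ => by rw [map_zpow₀]
  have h3 : (∏ i, (⟨z i, hzQ i⟩ : algebraicClosure ℚ ℂ) ^ e i) = 1 := by
    have h5 : j (∏ i, (⟨z i, hzQ i⟩ : algebraicClosure ℚ ℂ) ^ e i) = j 1 := by rw [h2, map_one]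
    exact (RingHom.injective (j : algebraicClosure ℚ ℂ →+* K)) h5
  have h4 := congrArg (algebraicClosure ℚ ℂ).val h3
  rw [map_prod, map_one] at h4
  rw [← h4]
  exact Finset.prod_congr rfl fun i _ => by rw [map_zpow₀]; rfl

end Pool.Agent.Y114.MU
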