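import Mathlib
import Pool.Agent.Y114.MU.Log

/-!
# Subalgebras of a product of simple Lie algebras
-/

set_option autoImplicit false
set_option linter.unusedSectionVars false
set_option linter.unusedVariables false

namespace Pool.Agent.Y114.MU

open Module

variable {k : Type*} [Field k] {ι : Type*} [Fintype ι] [DecidableEq ι] {V : ι → Type*}
  [∀ i, AddCommGroup (V i)] [∀ i, Module k (V i)]

variable (𝔞 : Submodule k (∀ i, End k (V i)))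
  (hbr : ∀ A ∈ 𝔞, ∀ B ∈ 𝔞, (fun i => A i * B i - B i * A i) ∈ 𝔞)
  (𝔰 : ∀ i, Submodule k (End k (V i)))
  (hle : ∀ A ∈ 𝔞, ∀ i, A i ∈ 𝔰 i)
  (hsurj : ∀ i, ∀ X ∈ 𝔰 i, ∃ A ∈ 𝔞, A i = X)
  (hsimple : ∀ i, ∀ J : Submodule k (End k (V i)), J ≤ 𝔰 i →
    (∀ X ∈ 𝔰 i, ∀ Y ∈ J, X * Y - Y * X ∈ J) → (∃ Y ∈ J, Y ≠ 0) → 𝔰 i ≤ J)
  (hnab : ∀ i, ∃ X ∈ 𝔰 i, ∃ Y ∈ 𝔰 i, X * Y - Y * X ≠ 0)
  (hpair : ∀ i j, i ≠ j → (∃ A ∈ 𝔞, A j = 0 ∧ A i ≠ 0) ∨ ∃ A ∈ 𝔞, A i = 0 ∧ A j ≠ 0)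

/-- The ideal of the `i`-th components of the elements which vanish on `s`. -/
def Jd (i : ι) (s : Finset ι) : Submodule k (End k (V i)) where
  carrier := {X | ∃ A ∈ 𝔞, A i = X ∧ ∀ j ∈ s, A j = 0}
  zero_mem' := ⟨0, Submodule.zero_mem _, rfl, fun _ _ => rfl⟩
  add_mem' := by
    rintro _ _ ⟨A, hA, rfl, hA'⟩ ⟨B, hB, rfl, hB'⟩
    exact ⟨A + B, Submodule.add_mem _ hA hB, rfl, fun j hj => by
      rw [Pi.add_apply, hA' j hj, hB' j hj, add_zero]⟩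
  smul_mem' := by
    rintro c _ ⟨A, hA, rfl, hA'⟩
    exact ⟨c • A, Submodule.smul_mem _ _ hA, rfl, fun j hj => by
      rw [Pi.smul_apply, hA' j hj, smul_zero]⟩

include hbr hle hsurj hsimple in
theorem Jd_top {i : ι} {s : Finset ι} (h : ∃ Y ∈ Jd 𝔞 i s, Y ≠ 0) : 𝔰 i ≤ Jd 𝔞 i s := by
  refine hsimple i _ ?_ ?_ h
  · rintro _ ⟨A, hA, rfl, -⟩
    exact hle A hA i
  · rintro X hX _ ⟨B, hB, rfl, hB'⟩
    obtain ⟨A, hA, rfl⟩ := hsurj i X hX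
    refine ⟨_, hbr A hA B hB, rfl, fun j hj => ?_⟩
    change A j * B j - B j * A j = 0
    rw [hB' j hj, mul_zero, zero_mul, sub_zero]

include hbr hle hsurj hsimple hpair in
theorem Jd_pair {i j : ι} (hij : i ≠ j) : 𝔰 i ≤ Jd 𝔞 i {j} := by
  rcases hpair i j hij with ⟨A, hA, h1, h2⟩ | ⟨A, hA, h1, h2⟩
  · exact Jd_top 𝔞 hbr 𝔰 hle hsurj hsimple ⟨A i, ⟨A, hA, rfl, fun l hl => by
      rw [Finset.mem_singleton.1 hl, h1]⟩, h2⟩
  · have h3 : 𝔰 j ≤ Jd 𝔞 j {i} := Jd_top 𝔞 hbr 𝔰 hle hsurj hsimple ⟨A j, ⟨A, hA, rfl, fun l hl => by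
      rw [Finset.mem_singleton.1 hl, h1]⟩, h2⟩
    intro X hX
    obtain ⟨B, hB, rfl⟩ := hsurj i X hX
    obtain ⟨C, hC, h4, h5⟩ := h3 (hle B hB j)
    refine ⟨B - C, Submodule.sub_mem _ hB hC, ?_, fun l hl => ?_⟩
    · rw [Pi.sub_apply, h5 i (Finset.mem_singleton_self i), sub_zero]
    · rw [Finset.mem_singleton.1 hl, Pi.sub_apply, h4, sub_self]

include hbr hle hsurj hsimple hpair hnab in
theorem Jd_all {i : ι} (s : Finset ι) (hi : i ∉ s) : 𝔰 i ≤ Jd 𝔞 i s := by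
  induction s using Finset.induction_on with
  | empty =>
    intro X hX
    obtain ⟨A, hA, rfl⟩ := hsurj i X hX
    exact ⟨A, hA, rfl, fun j hj => absurd hj (Finset.notMem_empty j)⟩
  | insert j s hj ih =>
    rw [Finset.mem_insert, not_or] at hi
    have h1 := ih hi.2
    have h2 := Jd_pair 𝔞 hbr 𝔰 hle hsurj hsimple hpair hi.1
    refine Jd_top 𝔞 hbr 𝔰 hle hsurj hsimple ?_
    obtain ⟨X, hX, Y, hY, hne⟩ := hnab i
    obtain ⟨A, hA, rfl, hA'⟩ := h1 hX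
    obtain ⟨B, hB, rfl, hB'⟩ := h2 hY
    refine ⟨_, ⟨_, hbr A hA B hB, rfl, fun l hl => ?_⟩, hne⟩
    change A l * B l - B l * A l = 0
    rcases Finset.mem_insert.1 hl with rfl | hl
    · rw [hB' l (Finset.mem_singleton_self l), mul_zero, zero_mul, sub_zero]
    · rw [hA' l hl, mul_zero, zero_mul, sub_zero]

include hbr hle hsurj hsimple hpair hnab in
/-- The subalgebra contains all the factors. -/
theorem goursat (i : ι) {X : End k (V i)} (hX : X ∈ 𝔰 i) : Pi.single i X ∈ 𝔞 := by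
  obtain ⟨A, hA, rfl, h1⟩ := Jd_all 𝔞 hbr 𝔰 hle hsurj hsimple hnab hpair (Finset.univ.erase i)
    (Finset.notMem_erase i _) hX
  have h2 : Pi.single i (A i) = A := by
    funext j
    by_cases hj : j = i
    · subst hj
      rw [Pi.single_eq_same]
    · rw [Pi.single_eq_of_ne hj, h1 j (Finset.mem_erase.2 ⟨hj, Finset.mem_univ j⟩)]
  rw [h2]
  exact hA

end Pool.Agent.Y114.MU
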