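import Mathlib
import Pool.Agent.Y114.MU.Goursat

/-!
# The symplectic Lie algebra is simple
-/

set_option autoImplicit false
set_option linter.unusedSectionVars false
set_option linter.unusedVariables false

namespace Pool.Agent.Y114.MU

open Module Pool.Agent.H204R3.SP

variable {k : Type*} [Field k] [CharZero k] {V : Type*} [AddCommGroup V] [Module k V]

/-- The Lie algebra of a bilinear form. -/
def SpL (ω : V →ₗ[k] V →ₗ[k] k) : Submodule k (End k V) where
  carrier := {X | ∀ u w, ω (X u) w + ω u (X w) = 0}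
  zero_mem' := fun u w => by simp
  add_mem' := by
    intro X Y hX hY u w
    have h1 := hX u w
    have h2 := hY u w
    simp only [LinearMap.add_apply, map_add]
    linear_combination h1 + h2
  smul_mem' := by
    intro c X hX u w
    have h1 := hX u w
    simp only [LinearMap.smul_apply, map_smul, smul_eq_mul]
    linear_combination c * h1

variable (ω : V →ₗ[k] V →ₗ[k] k) (halt : ∀ v, ω v v = 0)

include halt in
theorem alt_neg (u w : V) : ω u w = -ω w u := by
  have h1 := halt (u + w)
  simp only [map_add, LinearMap.add_apply, halt, zero_add, add_zero] at h1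
  linear_combination h1

theorem SS_add (u u' w : V) : SS ω (u + u') w = SS ω u w + SS ω u' w := by
  refine LinearMap.ext fun v => ?_
  simp only [SS_apply, LinearMap.add_apply, map_add, add_smul, smul_add]
  abel

theorem SS_smul (c : k) (u w : V) : SS ω (c • u) w = c • SS ω u w := by
  refine LinearMap.ext fun v => ?_
  simp only [SS_apply, LinearMap.smul_apply, map_smul, smul_add, smul_eq_mul, mul_smul]
  rw [smul_comm (ω w v) c]

include halt in
theorem SS_mem_SpL (u w : V) : SS ω u w ∈ SpL ω := by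
  intro x y
  simp only [SS_apply, map_add, map_smul, LinearMap.add_apply, LinearMap.smul_apply, smul_eq_mul]
  rw [alt_neg ω halt x w, alt_neg ω halt x u]
  ring

theorem bracket_SS {X : End k V} (hX : X ∈ SpL ω) (u w : V) :
    X * SS ω u w - SS ω u w * X = SS ω (X u) w + SS ω u (X w) := by
  refine LinearMap.ext fun v => ?_
  have h1 := hX u v
  have h2 := hX w v
  simp only [LinearMap.sub_apply, LinearMap.add_apply, Module.End.mul_apply, SS_apply, map_add,
    map_smul]
  have h3 : ω u (X v) = -ω (X u) v := by linear_combination h1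
  have h4 : ω w (X v) = -ω (X w) v := by linear_combination h2
  rw [h3, h4, neg_smul, neg_smul]
  abel

section basis

variable {R : Type*} [Fintype R] [DecidableEq R] (e : Basis R k V) {inv : R → R} {jj : R → k}
  (hinv : ∀ x, inv (inv x) = x) (hjj : ∀ x, jj (inv x) = -jj x) (hj0 : ∀ x, jj x ≠ 0)
  (hω : ∀ x y, ω (e x) (e y) = JJ inv jj x y)

include hinv hj0 hω in
theorem expand (v : V) : v = ∑ a, ((jj (inv a))⁻¹ * ω (e (inv a)) v) • e a := by
  conv_lhs => rw [← e.sum_repr v]
  refine Finset.sum_congr rfl fun a _ => ?_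
  congr 1
  have h1 : ω (e (inv a)) v = e.repr v a * jj (inv a) := by
    conv_lhs => rw [← e.sum_repr v]
    rw [map_sum, Finset.sum_eq_single a]
    · rw [map_smul, hω, smul_eq_mul]
      unfold JJ
      rw [if_pos (hinv a).symm]
    · intro b _ hb
      rw [map_smul, hω]
      unfold JJ
      rw [hinv, if_neg hb, smul_zero]
    · intro h
      exact absurd (Finset.mem_univ _) h
  rw [h1, mul_comm (e.repr v a), ← mul_assoc, inv_mul_cancel₀ (hj0 _), one_mul]

include hinv hj0 hjj hω in
/-- The symplectic Lie algebra is spanned by the elements `SS u w`. -/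
theorem SpL_le {J : Submodule k (End k V)} (hJ : ∀ u w, SS ω u w ∈ J) : SpL ω ≤ J := by
  intro X hX
  have h1 : X = (2 : k)⁻¹ • ∑ a, (jj (inv a))⁻¹ • SS ω (e (inv a)) (X (e a)) := by
    refine LinearMap.ext fun v => ?_
    rw [LinearMap.smul_apply, LinearMap.sum_apply]
    have h2 : ∀ a, ((jj (inv a))⁻¹ • SS ω (e (inv a)) (X (e a))) v =
        ((jj (inv a))⁻¹ * ω (e (inv a)) v) • X (e a) +
          ((jj a)⁻¹ * ω (e a) (X v)) • e (inv a) := by
      intro a
      have h3 : ω (X (e a)) v = -ω (e a) (X v) := by linear_combination hX (e a) v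
      rw [LinearMap.smul_apply, SS_apply, smul_add, smul_smul, smul_smul, h3, hjj, inv_neg]
      congr 2
      ring
    rw [Finset.sum_congr rfl fun a _ => h2 a, Finset.sum_add_distrib]
    have h3 : ∑ a, ((jj (inv a))⁻¹ * ω (e (inv a)) v) • X (e a) = X v := by
      conv_rhs => rw [expand ω e hinv hj0 hω v]
      rw [map_sum]
      exact Finset.sum_congr rfl fun a _ => by rw [map_smul]
    have h4 : ∑ a, ((jj a)⁻¹ * ω (e a) (X v)) • e (inv a) = X v := by
      conv_rhs => rw [expand ω e hinv hj0 hω (X v)]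
      refine Finset.sum_bij' (fun a _ => inv a) (fun a _ => inv a) (fun a _ => Finset.mem_univ _)
        (fun a _ => Finset.mem_univ _) (fun a _ => hinv a) (fun a _ => hinv a) fun a _ => ?_
      rw [hinv]
    rw [h3, h4, ← two_smul k (X v), smul_smul, inv_mul_cancel₀ two_ne_zero, one_smul]
  rw [h1]
  exact Submodule.smul_mem _ _ (Submodule.sum_mem _ fun a _ => Submodule.smul_mem _ _ (hJ _ _))

theorem SS_mem_of_basis {J : Submodule k (End k V)} (hJ : ∀ a b, SS ω (e a) (e b) ∈ J) (u w : V) :
    SS ω u w ∈ J := by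
  have h0 : ∀ (u : V) (b : R), SS ω u (e b) ∈ J := by
    intro u b
    rw [← e.sum_repr u]
    have h1 : ∀ s : Finset R, SS ω (∑ i ∈ s, e.repr u i • e i) (e b) ∈ J := by
      intro s
      induction s using Finset.induction_on with
      | empty =>
        rw [Finset.sum_empty]
        have : SS ω 0 (e b) = 0 := by
          have h := SS_smul ω (0 : k) 0 (e b)
          rwa [zero_smul, zero_smul] at h
        rw [this]
        exact Submodule.zero_mem _
      | insert a s ha ih =>
        rw [Finset.sum_insert ha, SS_add, SS_smul]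
        exact Submodule.add_mem _ (Submodule.smul_mem _ _ (hJ a b)) ih
    exact h1 _
  rw [SS_comm, ← e.sum_repr w]
  have h1 : ∀ s : Finset R, SS ω (∑ i ∈ s, e.repr w i • e i) u ∈ J := by
    intro s
    induction s using Finset.induction_on with
    | empty =>
      rw [Finset.sum_empty]
      have : SS ω 0 u = 0 := by
        have h := SS_smul ω (0 : k) 0 u
        rwa [zero_smul, zero_smul] at h
      rw [this]
      exact Submodule.zero_mem _
    | insert a s ha ih =>
      rw [Finset.sum_insert ha, SS_add, SS_smul, SS_comm ω (e a) u]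
      exact Submodule.add_mem _ (Submodule.smul_mem _ _ (h0 u a)) ih
  exact h1 _

end basis

section simple

variable {J : Submodule k (End k V)} (hJle : J ≤ SpL ω)
  (hJ : ∀ X ∈ SpL ω, ∀ Y ∈ J, X * Y - Y * X ∈ J)

include halt hJ in
theorem J_of_one {u x : V} (hux : ω x u = 1) (h : SS ω u u ∈ J) (y z : V) : SS ω z y ∈ J := by
  -- the elements `SS z u`
  have h1 : ∀ z, SS ω z u + ω z u • SS ω x u ∈ J := by
    intro z
    have h2 := hJ _ (SS_mem_SpL ω halt x z) _ h
    rw [bracket_SS ω (SS_mem_SpL ω halt x z), SS_comm ω u, ← two_smul k, SS_apply, hux, one_smul,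
      SS_add, SS_smul] at h2
    have h3 := Submodule.smul_mem _ (2 : k)⁻¹ h2
    rwa [smul_smul, inv_mul_cancel₀ two_ne_zero, one_smul] at h3
  have h2 : SS ω x u ∈ J := by
    have h3 := h1 x
    rw [hux, one_smul, ← two_smul k] at h3
    have h4 := Submodule.smul_mem _ (2 : k)⁻¹ h3
    rwa [smul_smul, inv_mul_cancel₀ two_ne_zero, one_smul] at h4
  have h3 : ∀ z, SS ω z u ∈ J := by
    intro z
    have h4 := Submodule.sub_mem _ (h1 z) (Submodule.smul_mem _ (ω z u) h2)
    rwa [add_sub_cancel_right] at h4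
  -- all elements
  have h5 : ∀ y z, SS ω z y + ω y u • SS ω z x ∈ J := by
    intro y z
    have h6 := hJ _ (SS_mem_SpL ω halt x y) _ (h3 z)
    rw [bracket_SS ω (SS_mem_SpL ω halt x y)] at h6
    have h7 := Submodule.sub_mem _ h6 (h3 (SS ω x y z))
    rw [add_sub_cancel_left, SS_apply, hux, one_smul, SS_comm ω z, SS_add, SS_smul,
      SS_comm ω y, SS_comm ω x] at h7
    exact h7
  have h6 : SS ω z x ∈ J := by
    have h7 := h5 x z
    rw [hux, one_smul, ← two_smul k] at h7
    have h8 := Submodule.smul_mem _ (2 : k)⁻¹ h7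
    rwa [smul_smul, inv_mul_cancel₀ two_ne_zero, one_smul] at h8
  have h7 := Submodule.sub_mem _ (h5 y z) (Submodule.smul_mem _ (ω y u) h6)
  rwa [add_sub_cancel_right] at h7

include halt hJle hJ in
theorem J_all (hnd : ∀ u, (∀ v, ω v u = 0) → u = 0) (hne : ∃ Y ∈ J, Y ≠ 0) (y z : V) :
    SS ω z y ∈ J := by
  obtain ⟨Y, hY, hY0⟩ := hne
  have hsp := hJle hY
  -- a vector with `ω (Y u) u ≠ 0`
  have hex : ∃ u, ω (Y u) u ≠ 0 := by
    by_contra hcon
    push Not at hcon
    apply hY0
    refine LinearMap.ext fun u => ?_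
    rw [LinearMap.zero_apply]
    refine hnd _ fun v => ?_
    have h1 := hcon (u + v)
    simp only [map_add, LinearMap.add_apply, hcon, zero_add, add_zero] at h1
    have h2 := hsp u v
    have h3 := alt_neg ω halt u (Y v)
    have h4 := alt_neg ω halt v (Y u)
    rw [h4]
    have h5 : (2 : k) * ω (Y u) v = 0 := by linear_combination h1 + h2 - h3
    rw [(mul_eq_zero.1 h5).resolve_left two_ne_zero, neg_zero]
  obtain ⟨u, hu⟩ := hex
  have h1 := hJ _ (SS_mem_SpL ω halt u u) _ hY
  have h2 := hJ _ (SS_mem_SpL ω halt u u) _ h1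
  have h3 : SS ω u u * Y - Y * SS ω u u = (-2 : k) • SS ω (Y u) u := by
    rw [← neg_sub, bracket_SS ω hsp, SS_comm ω u (Y u), ← two_smul k, ← neg_smul]
  rw [h3, mul_smul_comm, smul_mul_assoc, ← smul_sub, bracket_SS ω (SS_mem_SpL ω halt u u)] at h2
  have h4 : SS ω u u u = 0 := by rw [SS_apply, halt, zero_smul, add_zero]
  have h5 : SS ω (Y u) 0 = 0 := by
    have h := SS_smul ω (0 : k) 0 (Y u)
    rw [zero_smul, zero_smul, SS_comm] at h
    exact h
  have h6 : SS ω u u (Y u) = (2 * ω u (Y u)) • u := by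
    rw [SS_apply, ← two_smul k, smul_smul]
  rw [h4, h5, h6, add_zero, SS_smul, smul_smul] at h2
  have h7 : SS ω u u ∈ J := by
    have h8 := Submodule.smul_mem _ (-2 * (2 * ω u (Y u)))⁻¹ h2
    rwa [smul_smul, inv_mul_cancel₀, one_smul] at h8
    have h9 := alt_neg ω halt u (Y u)
    rw [h9]
    exact mul_ne_zero (by norm_num) (mul_ne_zero two_ne_zero (neg_ne_zero.2 hu))
  have hu' : ω (Y u) u * (ω (Y u) u)⁻¹ = 1 := mul_inv_cancel₀ hu
  refine J_of_one ω halt hJ (u := u) (x := (ω (Y u) u)⁻¹ • Y u) ?_ h7 y z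
  rw [map_smul, LinearMap.smul_apply, smul_eq_mul, mul_comm, hu']

end simple

/-- Two elements which do not commute. -/
theorem SpL_nab (hnd : ∀ u, (∀ v, ω v u = 0) → u = 0) (halt : ∀ v, ω v v = 0) {u : V} (hu : u ≠ 0) :
    ∃ X ∈ SpL ω, ∃ Y ∈ SpL ω, X * Y - Y * X ≠ 0 := by
  have hex : ∃ x, ω x u ≠ 0 := by
    by_contra hcon
    push Not at hcon
    exact hu (hnd u hcon)
  obtain ⟨x, hx⟩ := hex
  refine ⟨_, SS_mem_SpL ω halt x x, _, SS_mem_SpL ω halt u u, ?_⟩
  rw [bracket_SS ω (SS_mem_SpL ω halt x x)]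
  intro h0
  have h1 := congrArg (fun T : End k V => T u) h0
  have h2 : SS ω x x u = (2 * ω x u) • x := by rw [SS_apply, ← two_smul k, smul_smul]
  simp only [LinearMap.add_apply, LinearMap.zero_apply, h2, SS_apply, map_smul,
    LinearMap.smul_apply, halt, zero_smul, zero_add, add_zero, smul_eq_mul] at h1
  rw [← add_smul] at h1
  have h3 := (smul_eq_zero.1 h1).resolve_right hu
  have h4 : (2 * ω x u) * ω x u + (2 * ω x u) * ω x u ≠ 0 := by
    rw [← two_mul]
    exact mul_ne_zero two_ne_zero (mul_ne_zero (mul_ne_zero two_ne_zero hx) hx)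
  exact h4 h3

section ad

/-- The iterated commutator with `N`. -/
theorem ad_pow (N Y : End k V) (m : ℕ) :
    ((LinearMap.mulLeft k N - LinearMap.mulRight k N) ^ m) Y =
      ∑ i ∈ Finset.range (m + 1), ((-1 : k) ^ (m - i) * (m.choose i : k)) • (N ^ i * Y * N ^ (m - i)) := by
  have h1 : LinearMap.mulLeft k N - LinearMap.mulRight k N =
      LinearMap.mulLeft k N + -LinearMap.mulRight k N := sub_eq_add_neg _ _
  have hc0 : Commute (LinearMap.mulLeft k N) (LinearMap.mulRight k N) :=
    LinearMap.commute_mulLeft_right ..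
  have hc : Commute (LinearMap.mulLeft k N) (-LinearMap.mulRight k N) := hc0.neg_right
  rw [h1, hc.add_pow, LinearMap.sum_apply]
  refine Finset.sum_congr rfl fun i _ => ?_
  rw [← Nat.cast_comm, ← nsmul_eq_mul, LinearMap.smul_apply, Module.End.mul_apply,
    neg_pow (LinearMap.mulRight k N),
    LinearMap.pow_mulLeft, LinearMap.pow_mulRight, ← Nat.cast_smul_eq_nsmul k]
  have h2 : ((-1 : End k (End k V)) ^ (m - i)) = ((-1 : k) ^ (m - i)) • (1 : End k (End k V)) := by
    rw [← neg_one_smul k (1 : End k (End k V)), smul_pow, one_pow]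
  rw [h2, smul_mul_assoc, one_mul, LinearMap.smul_apply, map_smul, smul_smul, mul_comm]
  congr 1

theorem ad_zero {N : End k V} {r : ℕ} (hN : N ^ r = 0) (Y : End k V) :
    ((LinearMap.mulLeft k N - LinearMap.mulRight k N) ^ (2 * r)) Y = 0 := by
  rw [ad_pow]
  refine Finset.sum_eq_zero fun i hi => ?_
  rcases le_or_gt r i with h | h
  · obtain ⟨c, rfl⟩ := Nat.exists_eq_add_of_le h
    rw [pow_add, hN, zero_mul, zero_mul, zero_mul, smul_zero]
  · obtain ⟨c, hc⟩ := Nat.exists_eq_add_of_le (show r ≤ 2 * r - i by omega)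
    rw [hc, pow_add N, hN, zero_mul, mul_zero, smul_zero]

theorem ad_top {N : End k V} {r : ℕ} (hN : N ^ (r + 1) = 0) (Y : End k V) :
    ((LinearMap.mulLeft k N - LinearMap.mulRight k N) ^ (2 * r)) Y =
      ((-1 : k) ^ r * ((2 * r).choose r : k)) • (N ^ r * Y * N ^ r) := by
  rw [ad_pow, Finset.sum_eq_single r]
  · rw [show 2 * r - r = r by omega]
  · intro i _ hi
    rcases lt_or_gt_of_ne hi with h | h
    · obtain ⟨c, hc⟩ := Nat.exists_eq_add_of_le (show r + 1 ≤ 2 * r - i by omega)
      rw [hc, pow_add N, hN, zero_mul, mul_zero, smul_zero]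
    · obtain ⟨c, rfl⟩ := Nat.exists_eq_add_of_le (show r + 1 ≤ i by omega)
      rw [pow_add, hN, zero_mul, zero_mul, zero_mul, smul_zero]
  · intro h
    exact absurd (Finset.mem_range.2 (by omega)) h

end ad

end Pool.Agent.Y114.MU
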