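import Mathlib
import Pool.Agent.Y114.MU.Sp

/-!
# The Lie algebra of one factor
-/

set_option autoImplicit false
set_option linter.unusedSectionVars false
set_option linter.unusedVariables false

namespace Pool.Agent.Y114.MU

open Module Polynomial Pool.Agent.H204R3.SP

variable {k : Type*} [Field k] [CharZero k] {V : Type*} [AddCommGroup V] [Module k V]
  [FiniteDimensional k V]

/-- The elements of the symplectic Lie algebra have trace zero. -/
theorem SpL_trace (ω : V →ₗ[k] V →ₗ[k] k) (hnd : ∀ u, (∀ v, ω v u = 0) → u = 0)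
    {X : End k V} (hX : X ∈ SpL ω) : LinearMap.trace k V X = 0 := by
  have hinj : Function.Injective ω.flip := by
    intro u u' h
    rw [← sub_eq_zero]
    refine hnd _ fun v => ?_
    have h1 := congrArg (fun T => T v) h
    simp only [LinearMap.flip_apply] at h1
    rw [map_sub, h1, sub_self]
  let D : V ≃ₗ[k] Dual k V := LinearEquiv.ofInjectiveOfFinrankEq ω.flip hinj
    Subspace.dual_finrank_eq.symm
  have hD : ∀ u v, D u v = ω v u := fun u v => rfl
  have h1 : D.conj (-X) = Module.Dual.transpose (R := k) X := by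
    refine LinearMap.ext fun l => ?_
    obtain ⟨u, rfl⟩ := D.surjective l
    rw [LinearEquiv.conj_apply_apply, LinearEquiv.symm_apply_apply]
    refine LinearMap.ext fun v => ?_
    rw [hD, LinearMap.neg_apply, Module.Dual.transpose_apply,
      LinearMap.comp_apply, hD, map_neg]
    linear_combination -hX v u
  have h2 := LinearMap.trace_conj' (-X) D
  rw [h1, map_neg, LinearMap.trace_transpose'] at h2
  have h3 : (2 : k) * LinearMap.trace k V X = 0 := by linear_combination h2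
  exact (mul_eq_zero.1 h3).resolve_left two_ne_zero

section irr

variable {R : Type*} [Fintype R] [DecidableEq R] (e : Basis R k V) {inv : R → R} {jj : R → k}
  (𝔤 : Submodule k (End k V))
  (hbr : ∀ X ∈ 𝔤, ∀ Y ∈ 𝔤, X * Y - Y * X ∈ 𝔤)
  (hD : ∀ y, DD e inv y ∈ 𝔤)
  (hinv : ∀ x, inv (inv x) = x) (hne : ∀ x, inv x ≠ x)
  (hjj : ∀ x, jj (inv x) = -jj x) (hj0 : ∀ x, jj x ≠ 0)
  (ω : V →ₗ[k] V →ₗ[k] k) (hω : ∀ x y, ω (e x) (e y) = JJ inv jj x y)
  (hsp : ∀ X ∈ 𝔤, ∀ u w, ω (X u) w + ω u (X w) = 0)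
  (hirr : ∀ U : Submodule k V, (∀ X ∈ 𝔤, ∀ u ∈ U, X u ∈ U) → U = ⊥ ∨ U = ⊤)

theorem SS_inv (hinv : ∀ x, inv (inv x) = x) (hne : ∀ x, inv x ≠ x)
    (hjj : ∀ x, jj (inv x) = -jj x)
    (hω : ∀ x y, ω (e x) (e y) = JJ inv jj x y) (a : R) :
    SS ω (e a) (e (inv a)) = (-jj a) • DD e inv a := by
  refine e.ext fun c => e.repr.injective (Finsupp.ext fun d => ?_)
  rw [LinearMap.smul_apply, map_smul, Finsupp.smul_apply, SS_repr e ω hω, DD_repr, e.repr_self,
    Finsupp.single_apply, smul_eq_mul]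
  unfold JJ
  rw [hinv]
  by_cases hc : c = a
  · subst hc
    rw [if_neg (fun h => hne c h.symm), if_pos rfl, hjj]
    by_cases hd : c = d
    · subst hd
      rw [if_neg (hne c), if_pos rfl, dd_self hne]
      ring
    · rw [if_neg hd]
      ring
  · rw [if_neg hc]
    by_cases hc2 : c = inv a
    · subst hc2
      rw [if_pos rfl]
      by_cases hd : inv a = d
      · subst hd
        rw [if_pos rfl, dd_inv hne]
        ring
      · rw [if_neg hd]
        ring
    · rw [if_neg hc2]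
      by_cases hd : c = d
      · subst hd
        rw [dd_other hc hc2]
        ring
      · rw [if_neg hd]
        ring

include hbr hD hinv hne hjj hj0 hω hsp hirr in
theorem SS_mem_irr (a b : R) : SS ω (e a) (e b) ∈ 𝔤 := by
  by_cases hb : b = inv a
  · subst hb
    rw [SS_inv e ω hinv hne hjj hω]
    exact Submodule.smul_mem _ _ (hD a)
  · have h1 : Submodule.span k (e '' CC e 𝔤 ω inv (inv a)) = ⊤ := by
      rcases hirr _ (UU_stable e 𝔤 hbr hD hinv hne hjj hj0 ω hω hsp (inv a)) with h | h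
      · exfalso
        have h1 : e (inv a) ∈ Submodule.span k (e '' CC e 𝔤 ω inv (inv a)) :=
          Submodule.subset_span ⟨inv a, Or.inl rfl, rfl⟩
        rw [h, Submodule.mem_bot] at h1
        exact e.ne_zero _ h1
      · exact h
    have h2 : e b ∈ Submodule.span k (e '' CC e 𝔤 ω inv (inv a)) := by rw [h1]; trivial
    rw [e.mem_span_image, e.repr_self] at h2
    have h3 : b ∈ CC e 𝔤 ω inv (inv a) := h2 (by
      rw [Finset.mem_coe, Finsupp.mem_support_iff, Finsupp.single_eq_same]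
      exact one_ne_zero)
    rcases h3 with h3 | h3
    · exact absurd h3 hb
    · rwa [hinv] at h3

end irr

section factor

variable {r : ℕ} {N : End k V} (hN : Reg N r) (hodd : Odd r) (ω : V →ₗ[k] V →ₗ[k] k)
  (halt : ∀ v, ω v v = 0) (hnd : ∀ u, (∀ v, ω v u = 0) → u = 0)

/-- The values of the form on the adapted basis. -/
theorem adapted_form (hodd : Odd r) (halt : ∀ v, ω v v = 0)
    (hnd : ∀ u, (∀ v, ω v u = 0) → u = 0) {H f : End k V} {v : V} (T : Triple N H f r v)
    (hH : H ∈ SpL ω) : ∃ jj : Fin (r + 1) → k, (∀ x, jj (Fin.rev x) = -jj x) ∧ (∀ x, jj x ≠ 0) ∧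
      ∀ x y, ω (T.reg.bas T.vec x) (T.reg.bas T.vec y) = JJ Fin.rev jj x y := by
  classical
  have horth : ∀ x y : Fin (r + 1), y ≠ Fin.rev x →
      ω (T.reg.bas T.vec x) (T.reg.bas T.vec y) = 0 := by
    intro x y hxy
    rw [T.reg.bas_apply, T.reg.bas_apply]
    have h1 := hH ((N ^ (x : ℕ)) v) ((N ^ (y : ℕ)) v)
    rw [T.wt, T.wt, map_smul, map_smul, LinearMap.smul_apply, smul_eq_mul, smul_eq_mul,
      ← add_mul] at h1
    refine (mul_eq_zero.1 h1).resolve_left ?_
    intro h2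
    apply hxy
    have h3 : (((x : ℕ) + (y : ℕ) : ℕ) : k) = (r : ℕ) := by
      push_cast
      linear_combination h2
    have h4 : (x : ℕ) + (y : ℕ) = r := by exact_mod_cast h3
    rw [Fin.ext_iff, Fin.val_rev]
    omega
  refine ⟨fun x => ω (T.reg.bas T.vec x) (T.reg.bas T.vec (Fin.rev x)), fun x => ?_, fun x => ?_,
    fun x y => ?_⟩
  · beta_reduce
    rw [Fin.rev_rev]
    exact alt_neg ω halt _ _
  · intro h0
    beta_reduce at h0
    have h1 : T.reg.bas T.vec (Fin.rev x) = 0 := by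
      refine hnd _ fun w => ?_
      rw [← (T.reg.bas T.vec).sum_repr w, map_sum, LinearMap.sum_apply]
      refine Finset.sum_eq_zero fun y _ => ?_
      rw [map_smul, LinearMap.smul_apply]
      by_cases hyx : y = x
      · rw [hyx, h0, smul_zero]
      · rw [horth y (Fin.rev x) (fun h => hyx (Fin.rev_injective h).symm), smul_zero]
    exact (T.reg.bas T.vec).ne_zero _ h1
  · unfold JJ
    by_cases h : y = Fin.rev x
    · rw [if_pos h, h]
    · rw [if_neg h, horth x y h]

include hN hodd halt hnd in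
/-- The Lie algebra of one factor is the full symplectic Lie algebra. -/
theorem factor {Γ : Type*} [Group Γ] (ρ : Representation k Γ V) (L : Submodule k (End k V))
    (hbr : ∀ X ∈ L, ∀ Y ∈ L, X * Y - Y * X ∈ L) (hsp : L ≤ SpL ω)
    (hconj : ∀ (s : Γ) (X : End k V), X ∈ L → ρ s * X * ρ s⁻¹ ∈ L)
    (hirr : ∀ U : Submodule k V, (∀ s, ∀ u ∈ U, ρ s u ∈ U) → U = ⊥ ∨ U = ⊤) (hNL : N ∈ L)
    (hfrob : 3 ≤ r → ∃ (g : Γ) (P : ℚ[X]), (ρ g).charpoly = P.map (algebraMap ℚ k) ∧
      ThreeIndependent P) :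
    ∃ (e : Basis (Fin (r + 1)) k V) (jj : Fin (r + 1) → k), (∀ x, jj (Fin.rev x) = -jj x) ∧
      (∀ x, jj x ≠ 0) ∧ (∀ x y, ω (e x) (e y) = JJ Fin.rev jj x y) ∧ ∀ u w, SS ω u w ∈ L := by
  classical
  have htr : ∀ X ∈ L, LinearMap.trace k V X = 0 := fun X hX => SpL_trace ω hnd (hsp hX)
  have hirrL : ∀ U : Submodule k V, (∀ X ∈ L, ∀ u ∈ U, X u ∈ U) → U = ⊥ ∨ U = ⊤ := by
    intro U hU
    refine hirr U fun s => ?_
    have h1 : ∀ X ∈ L, ∀ u ∈ U.map (ρ s), X u ∈ U.map (ρ s) :=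
      map_stable L ρ hconj U hU s
    have h2 := hN.stable (hU N hNL)
    have h3 := hN.stable (h1 N hNL)
    have h4 : finrank k (U.map (ρ s)) = finrank k U := by
      refine LinearEquiv.finrank_eq (LinearEquiv.symm (Submodule.equivMapOfInjective (ρ s) ?_ U))
      intro x y hxy
      have := congrArg (ρ s⁻¹) hxy
      rwa [Pool.Agent.Y114.AP.rho_mul_inv, Pool.Agent.Y114.AP.rho_mul_inv] at this
    rw [h4, ← h2] at h3
    intro u hu
    rw [← h3]
    exact ⟨u, hu, rfl⟩
  obtain ⟨H, f, v, T, hHL, hfL, hcase⟩ := classify L hbr hirrL htr hN hodd hNL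
  have hDD : ∀ y, DD (T.reg.bas T.vec) Fin.rev y ∈ L := by
    rcases hcase with h | ⟨hr, h⟩
    · exact h
    · exfalso
      obtain ⟨g, P, hP, hind⟩ := hfrob hr
      have hgg : ρ g * ρ g⁻¹ = 1 := by rw [← map_mul, mul_inv_cancel, map_one]
      have hgg' : ρ g⁻¹ * ρ g = 1 := by rw [← map_mul, inv_mul_cancel, map_one]
      exact T.not_independent (by omega) hgg hgg' (h _ (hconj g N hNL)) (h _ (hconj g H hHL))
        (h _ (hconj g f hfL)) hP hind
  obtain ⟨jj, hjj, hj0, hω⟩ := adapted_form ω hodd halt hnd T (hsp hHL)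
  refine ⟨T.reg.bas T.vec, jj, hjj, hj0, hω, ?_⟩
  refine SS_mem_of_basis ω (T.reg.bas T.vec) fun a b => ?_
  refine SS_mem_irr (T.reg.bas T.vec) L hbr hDD Fin.rev_rev ?_ hjj hj0 ω hω hsp hirrL a b
  intro x hx
  rw [Fin.ext_iff, Fin.val_rev] at hx
  obtain ⟨p, hp⟩ := hodd
  omega

end factor

end Pool.Agent.Y114.MU
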