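import Mathlib
import Pool.Agent.Y114.MU.Factor
import Pool.Agent.Y114.TF.Local3

/-!
# Direct sums of potentially irreducible representations which are not isomorphic
-/

set_option autoImplicit false
set_option linter.unusedSectionVars false
set_option linter.unusedVariables false

namespace Pool.Agent.Y114.MU

open Module Polynomial Pool.Agent.H204R3.GP Pool.Agent.Y114.TF

/-- Complements in a sum of minimal members of a lattice of submodules. -/
theorem exists_compl_of {k W : Type*} [Field k] [AddCommGroup W] [Module k W] {ι : Type*}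
    [Fintype ι] [DecidableEq ι] (Q : Submodule k W → Prop) (hbot : Q ⊥)
    (hsup : ∀ U U', Q U → Q U' → Q (U ⊔ U')) (hinf : ∀ U U', Q U → Q U' → Q (U ⊓ U'))
    (E : ι → Submodule k W) (hE : ∀ i, Q (E i)) (hmin : ∀ i U, Q U → U ≤ E i → U = ⊥ ∨ U = E i)
    (htop : ⨆ i, E i = ⊤) (U : Submodule k W) (hU : Q U) : ∃ U', Q U' ∧ IsCompl U U' := by
  have key : ∀ s : Finset ι, ∃ U', Q U' ∧ Disjoint U U' ∧ ∀ i ∈ s, E i ≤ U ⊔ U' := by
    intro s
    induction s using Finset.induction_on with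
    | empty => exact ⟨⊥, hbot, disjoint_bot_right, fun i hi => absurd hi (Finset.notMem_empty i)⟩
    | insert i s hi ih =>
      obtain ⟨U', h1, h2, h3⟩ := ih
      rcases hmin i ((U ⊔ U') ⊓ E i) (hinf _ _ (hsup _ _ hU h1) (hE i)) inf_le_right with h4 | h4
      · refine ⟨U' ⊔ E i, hsup _ _ h1 (hE i), ?_, ?_⟩
        · exact h2.disjoint_sup_right_of_disjoint_sup_left (disjoint_iff.2 h4)
        · intro j hj
          rcases Finset.mem_insert.1 hj with rfl | hj
          · exact le_sup_of_le_right le_sup_right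
          · exact (h3 j hj).trans (sup_le_sup_left le_sup_left U)
      · refine ⟨U', h1, h2, ?_⟩
        intro j hj
        rcases Finset.mem_insert.1 hj with rfl | hj
        · rw [← h4]
          exact inf_le_left
        · exact h3 j hj
  obtain ⟨U', h1, h2, h3⟩ := key Finset.univ
  refine ⟨U', h1, h2, ?_⟩
  rw [codisjoint_iff, eq_top_iff, ← htop]
  exact iSup_le fun i => h3 i (Finset.mem_univ i)

variable {k : Type} [Field k] [CharZero k] {ι : Type} [Fintype ι] [DecidableEq ι]
  {V : ι → Type} [∀ i, AddCommGroup (V i)] [∀ i, Module k (V i)] [∀ i, FiniteDimensional k (V i)]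
  {Γ : Type} [Group Γ] (ρ : ∀ i, Representation k Γ (V i))

theorem sumRep_single (g : Γ) (i : ι) (w : V i) :
    sumRep ρ g (Pi.single i w) = Pi.single i (ρ i g w) := by
  funext j
  change ρ j g (Pi.single (M := V) i w j) = _
  by_cases hj : j = i
  · subst hj
    rw [Pi.single_eq_same, Pi.single_eq_same]
  · rw [Pi.single_eq_of_ne hj, Pi.single_eq_of_ne hj, map_zero]

theorem semi_sum (hpot : ∀ i (Δ : Subgroup Γ), Δ.FiniteIndex →
      ∀ U : Submodule k (V i), (∀ g ∈ Δ, ∀ u ∈ U, ρ i g u ∈ U) → U = ⊥ ∨ U = ⊤) :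
    FiniteIndexSemisimple (sumRep ρ) := by
  intro Δ hΔ U hU
  refine exists_compl_of (fun U => ∀ s ∈ Δ, ∀ u ∈ U, sumRep ρ s u ∈ U) ?_ ?_ ?_
    (fun i => LinearMap.range (LinearMap.single k V i)) ?_ ?_ ?_ U hU
  · intro s _ u hu
    rw [Submodule.mem_bot] at hu ⊢
    rw [hu, map_zero]
  · intro U U' h h' s hs u hu
    obtain ⟨a, ha, b, hb, rfl⟩ := Submodule.mem_sup.1 hu
    rw [map_add]
    exact Submodule.add_mem_sup (h s hs a ha) (h' s hs b hb)
  · intro U U' h h' s hs u hu
    exact ⟨h s hs u hu.1, h' s hs u hu.2⟩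
  · rintro i s _ _ ⟨w, rfl⟩
    exact ⟨ρ i s w, (sumRep_single ρ s i w).symm⟩
  · intro i U hU hle
    rcases hpot i Δ hΔ (U.comap (LinearMap.single k V i)) (fun g hg u hu => by
      change Pi.single i (ρ i g u) ∈ U
      rw [← sumRep_single]
      exact hU g hg _ hu) with h | h
    · left
      rw [eq_bot_iff]
      intro u hu
      obtain ⟨w, rfl⟩ := hle hu
      have h1 : w ∈ U.comap (LinearMap.single k V i) := hu
      rw [h, Submodule.mem_bot] at h1
      rw [h1, map_zero]
      exact Submodule.zero_mem _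
    · right
      refine le_antisymm hle ?_
      rintro _ ⟨w, rfl⟩
      have h1 : w ∈ U.comap (LinearMap.single k V i) := by rw [h]; trivial
      exact h1
  · rw [eq_top_iff]
    intro x _
    have hx' : x = ∑ i, Pi.single i (x i) := by
      funext j
      rw [Finset.sum_apply, Finset.sum_eq_single j]
      · rw [Pi.single_eq_same]
      · intro i _ hij
        rw [Pi.single_eq_of_ne hij.symm]
      · intro h
        exact absurd (Finset.mem_univ _) h
    rw [hx']
    refine Submodule.sum_mem _ fun i _ => ?_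
    exact Submodule.mem_iSup_of_mem i ⟨x i, rfl⟩

/-- The commutant of the sum. -/
theorem comm_sum (hpot : ∀ i (Δ : Subgroup Γ), Δ.FiniteIndex →
      (∀ U : Submodule k (V i), (∀ g ∈ Δ, ∀ u ∈ U, ρ i g u ∈ U) → U = ⊥ ∨ U = ⊤) ∧
      ∀ A : End k (V i), (∀ g ∈ Δ, ∀ x, A (ρ i g x) = ρ i g (A x)) → ∃ c : k, ∀ v, A v = c • v)
    (hdist : ∀ i j, i ≠ j → ∀ Δ : Subgroup Γ, Δ.FiniteIndex → ∀ B : V j →ₗ[k] V i,
      (∀ g ∈ Δ, ∀ x, B (ρ j g x) = ρ i g (B x)) → ¬ Function.Bijective B)
    (Δ : Subgroup Γ) (hΔ : Δ.FiniteIndex) (A : End k (∀ i, V i))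
    (hA : ∀ g ∈ Δ, ∀ x, A (sumRep ρ g x) = sumRep ρ g (A x)) :
    ∃ c : ι → k, ∀ x i, A x i = c i • x i := by
  have hzero : ∀ i j, i ≠ j → ∀ x : V j, A (Pi.single j x) i = 0 := by
    intro i j hij
    let B : V j →ₗ[k] V i := LinearMap.proj i ∘ₗ A ∘ₗ LinearMap.single k V j
    have hB : ∀ x, B x = A (Pi.single j x) i := fun x => rfl
    have hBg : ∀ g ∈ Δ, ∀ x, B (ρ j g x) = ρ i g (B x) := by
      intro g hg x
      rw [hB, hB, ← sumRep_single, hA g hg]
      rfl
    have hker := (hpot j Δ hΔ).1 (LinearMap.ker B) (fun g hg u hu => by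
      rw [LinearMap.mem_ker] at hu ⊢
      rw [hBg g hg, hu, map_zero])
    have hran := (hpot i Δ hΔ).1 (LinearMap.range B) (by
      rintro g hg _ ⟨u, rfl⟩
      exact ⟨ρ j g u, hBg g hg u⟩)
    rcases hker with h1 | h1
    · rcases hran with h2 | h2
      · intro x
        have h3 : B x ∈ LinearMap.range B := ⟨x, rfl⟩
        rw [h2, Submodule.mem_bot] at h3
        exact h3
      · exact absurd ⟨LinearMap.ker_eq_bot.1 h1, LinearMap.range_eq_top.1 h2⟩
          (hdist i j hij Δ hΔ B hBg)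
    · intro x
      have h3 : x ∈ LinearMap.ker B := by rw [h1]; trivial
      exact h3
  have hdiag : ∀ i x, A x i = A (Pi.single i (x i)) i := by
    intro i x
    have hx' : x = ∑ j, Pi.single j (x j) := by
      funext j
      rw [Finset.sum_apply, Finset.sum_eq_single j]
      · rw [Pi.single_eq_same]
      · intro i _ hij
        rw [Pi.single_eq_of_ne hij.symm]
      · intro h
        exact absurd (Finset.mem_univ _) h
    conv_lhs => rw [hx']
    rw [map_sum, Finset.sum_apply, Finset.sum_eq_single i]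
    · intro j _ hj
      exact hzero i j hj.symm _
    · intro h
      exact absurd (Finset.mem_univ _) h
  have hsc : ∀ i, ∃ c : k, ∀ v, A (Pi.single i v) i = c • v := by
    intro i
    refine (hpot i Δ hΔ).2 (LinearMap.proj i ∘ₗ A ∘ₗ LinearMap.single k V i) fun g hg x => ?_
    change A (Pi.single i (ρ i g x)) i = ρ i g (A (Pi.single i x) i)
    rw [← sumRep_single, hA g hg]
    rfl
  choose c' hc' using hsc
  exact ⟨c', fun x i => by rw [hdiag, hc']⟩

/-- Representations which are distinguished by a unipotent element. -/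
theorem not_iso {i j : ι} {τ : Γ} {m : ℕ} (h1 : IsNilpotent (ρ i τ - 1)) (h2 : (ρ i τ - 1) ^ m ≠ 0)
    (h3 : (ρ j τ - 1) ^ m = 0) (Δ : Subgroup Γ) (hΔ : Δ.FiniteIndex) (B : V j →ₗ[k] V i)
    (hB : ∀ g ∈ Δ, ∀ x, B (ρ j g x) = ρ i g (B x)) : ¬ Function.Bijective B := by
  intro hbij
  obtain ⟨M, hM0, -, hM⟩ := Subgroup.exists_pow_mem_of_index_ne_zero hΔ.index_ne_zero τ
  obtain ⟨h4, -⟩ := Pool.Agent.Y114.AP.pow_sub_one_pow_ne_zero h1 h2 hM0
  apply h4
  have h5 : (ρ j τ ^ M - 1) ^ m = 0 := by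
    have h6 : ρ j τ ^ M - 1 = (ρ j τ - 1) * ∑ l ∈ Finset.range M, ρ j τ ^ l :=
      (mul_geom_sum (ρ j τ) M).symm
    have hc : Commute (ρ j τ - 1) (∑ l ∈ Finset.range M, ρ j τ ^ l) := by
      refine Commute.sum_right _ _ _ fun l _ => ?_
      exact ((Commute.refl (ρ j τ)).pow_right l).sub_left (Commute.one_left _)
    rw [h6, hc.mul_pow, h3, zero_mul]
  have h7 : ∀ x, B ((ρ j τ ^ M - 1) x) = (ρ i τ ^ M - 1) (B x) := by
    intro x
    rw [LinearMap.sub_apply, LinearMap.sub_apply, map_sub, ← map_pow, ← map_pow, hB _ hM]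
    rfl
  have h8 : ∀ (l : ℕ) (x), B (((ρ j τ ^ M - 1) ^ l) x) = ((ρ i τ ^ M - 1) ^ l) (B x) := by
    intro l
    induction l with
    | zero => intro x; rfl
    | succ l ih =>
      intro x
      rw [pow_succ, pow_succ, Module.End.mul_apply, Module.End.mul_apply, ih, h7]
  refine LinearMap.ext fun y => ?_
  obtain ⟨x, rfl⟩ := hbij.2 y
  rw [← h8, h5, LinearMap.zero_apply, map_zero, LinearMap.zero_apply]

end Pool.Agent.Y114.MU
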