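import Mathlib
import Pool.Agent.Y114.MU.SumRep
import Pool.Agent.H204R3.GP.TateG

/-!
# The Lie algebra of a direct sum of representations with maximally unipotent elements
-/

set_option autoImplicit false
set_option linter.unusedSectionVars false
set_option linter.unusedVariables false

namespace Pool.Agent.Y114.MU

open Module Polynomial Pool.Agent.H204R3.GP Pool.Agent.H204R3.SP Pool.Agent.Y114.TF

variable {k : Type} [Field k] [CharZero k] {ι : Type} [Fintype ι] [DecidableEq ι]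
  {V : ι → Type} [∀ i, AddCommGroup (V i)] [∀ i, Module k (V i)]

/-- Diagonal endomorphisms, as a homomorphism of algebras. -/
noncomputable def piE : (∀ i, End k (V i)) →ₐ[k] End k (∀ i, V i) where
  toFun := piEnd
  map_one' := rfl
  map_mul' _ _ := rfl
  map_zero' := rfl
  map_add' _ _ := rfl
  commutes' _ := rfl

theorem piE_apply (A : ∀ i, End k (V i)) (x : ∀ i, V i) (i : ι) : piE A x i = A i (x i) := rfl

theorem piE_single (A : ∀ i, End k (V i)) (i : ι) (x : V i) :
    piE A (Pi.single i x) = Pi.single i (A i x) := by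
  funext j
  rw [piE_apply]
  by_cases hj : j = i
  · subst hj
    rw [Pi.single_eq_same, Pi.single_eq_same]
  · rw [Pi.single_eq_of_ne hj, Pi.single_eq_of_ne hj, map_zero]

theorem lgA_piE (d : ℕ) (B : ∀ i, End k (V i)) (m : ℕ) :
    lgA d (piE B) m = piE (fun i => lgA d (B i) m) := by
  have h1 : (fun i => lgA d (B i) m) = ∑ j ∈ Finset.range d, (bp k j).coeff m • B ^ j := by
    funext i
    rw [Finset.sum_apply]
    rfl
  rw [h1, map_sum]
  unfold lgA
  refine Finset.sum_congr rfl fun j _ => ?_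
  rw [map_smul, map_pow]

variable {Γ : Type} [Group Γ] (ρ : ∀ i, Representation k Γ (V i)) (χ : Γ →* k)
  (ω : ∀ i, V i →ₗ[k] V i →ₗ[k] k)

theorem sumRep_eq (g : Γ) : sumRep ρ g = piE fun i => ρ i g := rfl

/-- The families of endomorphisms which kill all Tate forms. -/
noncomputable def aa : Submodule k (∀ i, End k (V i)) :=
  (lieT (sumRep ρ) χ).comap (piE (k := k) (V := V)).toLinearMap

theorem mem_aa (A : ∀ i, End k (V i)) : A ∈ aa ρ χ ↔ piE A ∈ lieT (sumRep ρ) χ := Iff.rfl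

theorem aa_bracket (A : ∀ i, End k (V i)) (hA : A ∈ aa ρ χ) (B : ∀ i, End k (V i))
    (hB : B ∈ aa ρ χ) : (fun i => A i * B i - B i * A i) ∈ aa ρ χ := by
  rw [mem_aa] at *
  have h1 := lieT_bracket (sumRep ρ) χ hA hB
  have h2 : piE (fun i => A i * B i - B i * A i) = piE A * piE B - piE B * piE A := by
    rw [← map_mul, ← map_mul, ← map_sub]
    rfl
  rw [h2]
  exact h1

theorem aa_conj (s : Γ) (A : ∀ i, End k (V i)) (hA : A ∈ aa ρ χ) :
    (fun i => ρ i s * A i * ρ i s⁻¹) ∈ aa ρ χ := by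
  rw [mem_aa] at *
  have h1 := lieT_conj (sumRep ρ) χ s hA
  rw [sumRep_eq, sumRep_eq, ← map_mul, ← map_mul] at h1
  exact h1

theorem aa_sp (hωρ : ∀ i s u v, ω i (ρ i s u) (ρ i s v) = χ s * ω i u v)
    (A : ∀ i, End k (V i)) (hA : A ∈ aa ρ χ) (i : ι) : A i ∈ SpL (ω i) := by
  intro u w
  have hB : IsTate2 (sumRep ρ) χ (partForm ω i) := by
    refine ⟨⊤, inferInstance, fun s _ u v => ?_⟩
    exact hωρ i s (u i) (v i)
  have h1 := lieT_bil (sumRep ρ) χ hB ((mem_aa ρ χ A).1 hA) (Pi.single i u) (Pi.single i w)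
  rw [piE_single, piE_single] at h1
  change ω i (Pi.single (M := V) i (A i u) i) (Pi.single (M := V) i w i) +
    ω i (Pi.single (M := V) i u i) (Pi.single (M := V) i (A i w) i) = 0 at h1
  simpa only [Pi.single_eq_same] using h1

/-- The logarithm of a unipotent element. -/
theorem exists_log [∀ i, FiniteDimensional k (V i)] {τ : Γ} (hχ : χ τ = 1)
    (hnil : ∀ i, IsNilpotent (ρ i τ - 1)) : ∃ A ∈ aa ρ χ, ∀ i, IsNilpotent (A i) ∧
      ∀ m, (A i) ^ m = 0 ↔ (ρ i τ - 1) ^ m = 0 := by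
  choose d hd using hnil
  set D := ∑ i, d i with hD
  have hle : ∀ i, d i ≤ D := fun i => Finset.single_le_sum (f := d) (fun _ _ => Nat.zero_le _)
    (Finset.mem_univ i)
  have hz : ∀ i, (ρ i τ - 1) ^ (D + 2) = 0 := by
    intro i
    obtain ⟨c, hc⟩ := Nat.exists_eq_add_of_le (hle i)
    rw [hc, add_assoc, pow_add, hd, zero_mul]
  have h0 : sumRep ρ τ - 1 = piE (fun i => ρ i τ - 1) := by
    rw [sumRep_eq, ← map_one (piE (k := k) (V := V)), ← map_sub]
    rfl
  have h1 : (sumRep ρ τ - 1) ^ (D + 2) = 0 := by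
    rw [h0, ← map_pow]
    have h2 : (fun i => ρ i τ - 1) ^ (D + 2) = (0 : ∀ i, End k (V i)) := by
      funext i
      exact hz i
    rw [h2, map_zero]
  have h3 := lg_mem (sumRep ρ) χ h1 hχ
  rw [h0, lgA_piE] at h3
  refine ⟨_, (mem_aa ρ χ _).2 h3, fun i => ⟨?_, fun m => ?_⟩⟩
  · exact lgA_one_nil D ⟨D + 2, hz i⟩
  · exact lgA_one_pow D ⟨D + 2, hz i⟩ m

/-- **The Lie algebra contains the symplectic Lie algebras of all summands.** -/
theorem sum_lie [∀ i, FiniteDimensional k (V i)] (r : ι → ℕ) (hdim : ∀ i, finrank k (V i) = r i + 1)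
    (hodd : ∀ i, Odd (r i)) (halt : ∀ i v, ω i v v = 0)
    (hnd : ∀ i u, (∀ v, ω i v u = 0) → u = 0)
    (hωρ : ∀ i s u v, ω i (ρ i s u) (ρ i s v) = χ s * ω i u v)
    (hirr : ∀ i (U : Submodule k (V i)), (∀ s, ∀ u ∈ U, ρ i s u ∈ U) → U = ⊥ ∨ U = ⊤)
    (τ : ι → Γ) (hχ : ∀ i, χ (τ i) = 1) (hnil : ∀ i j, IsNilpotent (ρ j (τ i) - 1))
    (hne : ∀ i, (ρ i (τ i) - 1) ^ r i ≠ 0)
    (hz : ∀ i j, i ≠ j → r j = r i → (ρ j (τ i) - 1) ^ r j = 0)
    (hfrob : ∀ i, 3 ≤ r i → ∃ (g : Γ) (P : ℚ[X]), (ρ i g).charpoly = P.map (algebraMap ℚ k) ∧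
      ThreeIndependent P) :
    ∃ (e : ∀ i, Basis (Fin (r i + 1)) k (V i)) (jj : ∀ i, Fin (r i + 1) → k),
      (∀ i x, jj i (Fin.rev x) = -jj i x) ∧ (∀ i x, jj i x ≠ 0) ∧
      (∀ i x y, ω i (e i x) (e i y) = JJ Fin.rev (jj i) x y) ∧
      ∀ i, ∀ X ∈ SpL (ω i), piE (Pi.single i X) ∈ lieT (sumRep ρ) χ := by
  classical
  have hlog : ∀ i, ∃ A ∈ aa ρ χ, ∀ j, IsNilpotent (A j) ∧
      ∀ m, (A j) ^ m = 0 ↔ (ρ j (τ i) - 1) ^ m = 0 := fun i =>
    exists_log ρ χ (hχ i) (hnil i)
  choose N hN hN' using hlog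
  have hreg : ∀ i, Reg (N i i) (r i) := fun i =>
    ⟨hdim i, (hN' i i).1, fun h => hne i (((hN' i i).2 _).1 h)⟩
  -- the components
  let L : ∀ i, Submodule k (End k (V i)) := fun i => (aa ρ χ).map (LinearMap.proj i)
  have hL : ∀ i X, X ∈ L i ↔ ∃ A ∈ aa ρ χ, A i = X := fun i X => Iff.rfl
  have hfac : ∀ i, ∃ (e : Basis (Fin (r i + 1)) k (V i)) (jj : Fin (r i + 1) → k),
      (∀ x, jj (Fin.rev x) = -jj x) ∧ (∀ x, jj x ≠ 0) ∧
      (∀ x y, ω i (e x) (e y) = JJ Fin.rev jj x y) ∧ ∀ u w, SS (ω i) u w ∈ L i := by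
    intro i
    refine factor (hreg i) (hodd i) (ω i) (halt i) (hnd i) (ρ i) (L i) ?_ ?_ ?_ (hirr i) ?_
      (hfrob i)
    · rintro _ ⟨A, hA, rfl⟩ _ ⟨B, hB, rfl⟩
      exact ⟨_, aa_bracket ρ χ A hA B hB, rfl⟩
    · rintro _ ⟨A, hA, rfl⟩
      exact aa_sp ρ χ ω hωρ A hA i
    · rintro s _ ⟨A, hA, rfl⟩
      exact ⟨_, aa_conj ρ χ s A hA, rfl⟩
    · exact ⟨N i, hN i, rfl⟩
  choose e jj hjj hj0 hω hSS using hfac
  have hSpL : ∀ i, SpL (ω i) ≤ L i := fun i =>
    SpL_le (ω i) (e i) Fin.rev_rev (hjj i) (hj0 i) (hω i) (hSS i)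
  have hvec : ∀ i, ∃ v : V i, ω i v ((N i i ^ r i) v) ≠ 0 := by
    intro i
    by_contra hcon
    push Not at hcon
    apply (hreg i).ne
    -- the form `(u, v) ↦ ω (N ^ r u) v` is symmetric as `r` is odd
    have hsp := aa_sp ρ χ ω hωρ (N i) (hN i) i
    have hadj : ∀ (m : ℕ) (u w : V i), ω i u ((N i i ^ m) w) = (-1) ^ m * ω i ((N i i ^ m) u) w := by
      intro m
      induction m with
      | zero => intro u w; simp
      | succ m ih =>
        intro u w
        have e1 : (N i i ^ (m + 1)) w = (N i i ^ m) (N i i w) := by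
          rw [pow_succ, Module.End.mul_apply]
        have e2 : (N i i ^ (m + 1)) u = N i i ((N i i ^ m) u) := by
          rw [pow_succ', Module.End.mul_apply]
        rw [e1, e2, ih, pow_succ]
        have h1 := hsp ((N i i ^ m) u) w
        linear_combination (-1) ^ m * h1
    refine LinearMap.ext fun u => ?_
    rw [LinearMap.zero_apply]
    refine hnd i _ fun w => ?_
    have h1 := hcon (u + w)
    simp only [map_add, LinearMap.add_apply, hcon, zero_add, add_zero] at h1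
    have h2 := hadj (r i) u w
    rw [(hodd i).neg_one_pow] at h2
    have h3 := alt_neg (ω i) (halt i) ((N i i ^ r i) u) w
    have h4 : (2 : k) * ω i w ((N i i ^ r i) u) = 0 := by
      linear_combination h1 - h2 + h3
    exact (mul_eq_zero.1 h4).resolve_left two_ne_zero
  -- the pairs
  have hpair0 : ∀ i j, i ≠ j → r j ≤ r i → ∃ A ∈ aa ρ χ, A j = 0 ∧ A i ≠ 0 := by
    intro i j hij hle
    obtain ⟨v, hv⟩ := hvec i
    obtain ⟨Y, hY, hYi⟩ := (hL i _).1 (hSS i v v)
    have hiter : ∀ m : ℕ, (fun l => ((LinearMap.mulLeft k (N i l) -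
        LinearMap.mulRight k (N i l)) ^ m) (Y l)) ∈ aa ρ χ := by
      intro m
      induction m with
      | zero => exact hY
      | succ m ih =>
        have h1 := aa_bracket ρ χ (N i) (hN i) _ ih
        have h2 : (fun l => N i l * ((LinearMap.mulLeft k (N i l) -
            LinearMap.mulRight k (N i l)) ^ m) (Y l) - ((LinearMap.mulLeft k (N i l) -
            LinearMap.mulRight k (N i l)) ^ m) (Y l) * N i l) =
            fun l => ((LinearMap.mulLeft k (N i l) -
              LinearMap.mulRight k (N i l)) ^ (m + 1)) (Y l) := by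
          funext l
          rw [pow_succ', Module.End.mul_apply]
          rfl
        rw [h2] at h1
        exact h1
    refine ⟨_, hiter (2 * r i), ?_, ?_⟩
    · beta_reduce
      refine ad_zero ?_ _
      rcases eq_or_lt_of_le hle with h | h
      · rw [← h]
        exact ((hN' i j).2 _).2 (hz i j hij h)
      · have h1 : finrank k (V j) ≤ r i := by rw [hdim]; omega
        obtain ⟨c, hc⟩ := Nat.exists_eq_add_of_le h1
        have h2 := (N i j).aeval_self_charpoly
        rw [(show LinearMap.charpoly (N i j) = _ from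
          IsNilpotent.charpoly_eq_X_pow_finrank (hN' i j).1)] at h2
        rw [map_pow, aeval_X] at h2
        rw [hc, pow_add, h2, zero_mul]
    · beta_reduce
      rw [ad_top (hreg i).pow_dim, hYi]
      refine smul_ne_zero (mul_ne_zero (pow_ne_zero _ (by norm_num))
        (Nat.cast_ne_zero.2 (Nat.choose_pos (by omega)).ne')) ?_
      intro h0
      have h1 := congrArg (fun T : End k (V i) => T v) h0
      simp only [Module.End.mul_apply, SS_apply, LinearMap.zero_apply, map_add, map_smul] at h1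
      rw [← add_smul, ← two_mul] at h1
      rcases smul_eq_zero.1 h1 with h2 | h2
      · exact (mul_ne_zero two_ne_zero hv) h2
      · rw [h2, map_zero] at hv
        exact hv rfl
  refine ⟨e, jj, hjj, hj0, hω, fun i X hX => ?_⟩
  refine (mem_aa ρ χ _).1 (goursat (aa ρ χ) (aa_bracket ρ χ) (fun i => SpL (ω i))
    (aa_sp ρ χ ω hωρ) (fun i X hX => (hL i X).1 (hSpL i hX)) ?_ ?_ ?_ i hX)
  · intro i J hJle hJ hJne
    exact SpL_le (ω i) (e i) Fin.rev_rev (hjj i) (hj0 i) (hω i)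
      fun u w => J_all (ω i) (halt i) hJle hJ (hnd i) hJne w u
  · intro i
    obtain ⟨v, hv⟩ := hvec i
    refine SpL_nab (ω i) (hnd i) (halt i) (u := v) ?_
    rintro rfl
    rw [map_zero, map_zero] at hv
    exact hv rfl
  · intro i j hij
    rcases le_total (r j) (r i) with h | h
    · exact Or.inl (hpair0 i j hij h)
    · exact Or.inr (hpair0 j i hij.symm h)

end Pool.Agent.Y114.MU
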