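import Mathlib
import Pool.Agent.Y114.MU.SumLie
import Pool.Agent.Y114.AP.Sum
import Pool.Agent.Y114.AP.Pot
import Pool.Agent.H204R3.GP.MT

/-!
# Tate classes of a direct sum of representations with maximally unipotent elements
-/

set_option autoImplicit false
set_option linter.unusedSectionVars false
set_option linter.unusedVariables false

namespace Pool.Agent.Y114.MU

open Module Polynomial Pool.Agent.H204R3.GP Pool.Agent.H204R3.SP Pool.Agent.Y114.TF

theorem hasProj_of {k V Γ : Type*} [Field k] [AddCommGroup V] [Module k V] [Group Γ]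
    {ρ : Representation k Γ V} (h : FiniteIndexSemisimple ρ) : HasProj ρ := by
  intro Δ hΔ U hU
  obtain ⟨U', hU', hc⟩ := h Δ hΔ U hU
  have hex : ∀ v : V, ∃ a ∈ U, ∃ b ∈ U', a + b = v := fun v =>
    Submodule.mem_sup.1 (by rw [hc.sup_eq_top]; trivial)
  let P : End k V := U.subtype ∘ₗ Submodule.projectionOnto U U' hc
  have hP : ∀ a ∈ U, ∀ b ∈ U', P (a + b) = a := by
    intro a ha b hb
    change ((Submodule.projectionOnto U U' hc (a + b) : U) : V) = a
    rw [map_add, Submodule.projectionOnto_apply_of_mem_right hc hb, add_zero]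
    exact congrArg Subtype.val (Submodule.projectionOnto_apply_left hc ⟨a, ha⟩)
  refine ⟨P, fun v => ?_, fun u hu => ?_, fun s hs v => ?_⟩
  · obtain ⟨a, ha, b, hb, rfl⟩ := hex v
    rw [hP a ha b hb]
    exact ha
  · have := hP u hu 0 (Submodule.zero_mem _)
    rwa [add_zero] at this
  · obtain ⟨a, ha, b, hb, rfl⟩ := hex v
    rw [hP a ha b hb, map_add, hP _ (hU s hs a ha) _ (hU' s hs b hb)]

/-- If the Lie algebra contains the torus, the Tate forms are balanced. -/
theorem balanced {Ω : Type*} [Field Ω] [CharZero Ω] {V : Type*} [AddCommGroup V] [Module Ω V]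
    {R : Type*} [Fintype R] [DecidableEq R] (e : Basis R Ω V) {inv : R → R}
    {Γ : Type*} [Group Γ] (ρ : Representation Ω Γ V) (χ : Γ →* Ω)
    (hD : ∀ y, DD e inv y ∈ lieT ρ χ) (m : ℕ)
    (φ : MultilinearMap Ω (fun _ : Fin m × Fin 2 => V) Ω) (hφ : IsTate ρ χ m φ)
    (I : Fin m × Fin 2 → R) (h0 : φ (fun k => e (I k)) ≠ 0) (y : R) :
    (Finset.univ.filter (fun k => I k = y)).card =
      (Finset.univ.filter (fun k => I k = inv y)).card := by
  have h1 := hD y m φ hφ (fun k => e (I k))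
  have h2 : ∀ k, φ (Function.update (fun l => e (I l)) k (DD e inv y (e (I k)))) =
      dd inv y (I k) * φ (fun l => e (I l)) := by
    intro k
    rw [DD_basis, MultilinearMap.map_update_smul, smul_eq_mul]
    congr 2
    exact Function.update_eq_self k (fun l => e (I l))
  rw [Finset.sum_congr rfl (fun k _ => h2 k), ← Finset.sum_mul] at h1
  have h3 := (mul_eq_zero.1 h1).resolve_right h0
  unfold dd at h3
  rw [Finset.sum_sub_distrib, Finset.sum_boole, Finset.sum_boole, sub_eq_zero] at h3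
  exact_mod_cast h3

variable {k : Type} [Field k] [CharZero k] {ι : Type} [Fintype ι] [DecidableEq ι]
  {V : ι → Type} [∀ i, AddCommGroup (V i)] [∀ i, Module k (V i)] [∀ i, FiniteDimensional k (V i)]
  {Γ : Type} [Group Γ] (ρ : ∀ i, Representation k Γ (V i)) (χ : Γ →* k)
  (ω : ∀ i, V i →ₗ[k] V i →ₗ[k] k)

/-- **Tate classes of the sum.** -/
theorem sum_tate (r : ι → ℕ) (hdim : ∀ i, finrank k (V i) = r i + 1)
    (hodd : ∀ i, Odd (r i)) (halt : ∀ i v, ω i v v = 0)
    (hnd : ∀ i u, (∀ v, ω i v u = 0) → u = 0)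
    (hωρ : ∀ i s u v, ω i (ρ i s u) (ρ i s v) = χ s * ω i u v)
    (hirr : ∀ i (U : Submodule k (V i)), (∀ s, ∀ u ∈ U, ρ i s u ∈ U) → U = ⊥ ∨ U = ⊤)
    (τ : ι → Γ) (hχ : ∀ i, χ (τ i) = 1) (hnil : ∀ i j, IsNilpotent (ρ j (τ i) - 1))
    (hne : ∀ i, (ρ i (τ i) - 1) ^ r i ≠ 0)
    (hz : ∀ i j, i ≠ j → r j = r i → (ρ j (τ i) - 1) ^ r j = 0)
    (hfrob : ∀ i, 3 ≤ r i → ∃ (g : Γ) (P : ℚ[X]), (ρ i g).charpoly = P.map (algebraMap ℚ k) ∧
      ThreeIndependent P) :
    FiniteIndexSemisimple (sumRep ρ) ∧ HomsGeneratedByPolarizations ρ χ ω := by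
  classical
  have hpot : ∀ i (Δ : Subgroup Γ), Δ.FiniteIndex →
      (∀ U : Submodule k (V i), (∀ g ∈ Δ, ∀ u ∈ U, ρ i g u ∈ U) → U = ⊥ ∨ U = ⊤) ∧
      ∀ A : End k (V i), (∀ g ∈ Δ, ∀ x, A (ρ i g x) = ρ i g (A x)) → ∃ c : k, ∀ v, A v = c • v := by
    intro i Δ hΔ
    refine Pool.Agent.Y114.AP.potentially (ρ i) (hirr i) (τ := τ i) (e := 1)
      (by rw [pow_one]; exact hnil i i) ?_ Δ hΔ
    rw [pow_one, hdim]
    intro h0
    apply hne i
    obtain ⟨p, hp⟩ := hodd i
    obtain ⟨c, hc⟩ := Nat.exists_eq_add_of_le (show (r i + 1) / 2 ≤ r i by omega)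
    rw [hc, pow_add, h0, zero_mul]
  have hss : FiniteIndexSemisimple (sumRep ρ) := semi_sum ρ fun i Δ hΔ => (hpot i Δ hΔ).1
  have hcm := comm_sum ρ hpot (fun i j hij Δ hΔ B hB hbij => by
    have h1 : finrank k (V j) = finrank k (V i) := (LinearEquiv.ofBijective B hbij).finrank_eq
    rw [hdim, hdim] at h1
    have h2 : r j = r i := by omega
    refine not_iso ρ (hnil i i) (hne i) ?_ Δ hΔ B hB hbij
    rw [← h2]
    exact hz i j hij h2)
  refine ⟨hss, ?_⟩
  obtain ⟨e, jj, hjj, hj0, hω, hmem⟩ := sum_lie ρ χ ω r hdim hodd halt hnd hωρ hirr τ hχ hnil hne hz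
    hfrob
  -- the basis of the sum
  let E : Basis (Σ i, Fin (r i + 1)) k (∀ i, V i) := Pi.basis e
  let inv : (Σ i, Fin (r i + 1)) → (Σ i, Fin (r i + 1)) := fun x => ⟨x.1, Fin.rev x.2⟩
  let J : (Σ i, Fin (r i + 1)) → k := fun x => jj x.1 x.2
  have hE : ∀ i a, E ⟨i, a⟩ = Pi.single i (e i a) := fun i a => Pi.basis_apply e ⟨i, a⟩
  have hinv : ∀ x, inv (inv x) = x := by
    rintro ⟨i, a⟩
    simp [inv]
  have hrev : ∀ i (a : Fin (r i + 1)), Fin.rev a ≠ a := by
    intro i a ha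
    rw [Fin.ext_iff, Fin.val_rev] at ha
    obtain ⟨p, hp⟩ := hodd i
    omega
  have hinvne : ∀ x, inv x ≠ x := by
    rintro ⟨i, a⟩ h
    exact hrev i a (eq_of_heq (Sigma.mk.inj h).2)
  have hJ : ∀ x, J (inv x) = -J x := fun x => hjj x.1 x.2
  have hJ0 : ∀ x, J x ≠ 0 := fun x => hj0 x.1 x.2
  have hform : ∀ x y, sumForm ω (E x) (E y) = JJ inv J x y := by
    rintro ⟨i, a⟩ ⟨j, b⟩
    rw [hE, hE, sumForm_apply, Finset.sum_eq_single i]
    · rw [Pi.single_eq_same]
      by_cases hij : j = i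
      · subst hij
        rw [Pi.single_eq_same, hω]
        unfold JJ
        by_cases hb : b = Fin.rev a
        · rw [if_pos hb, if_pos (by simp [inv, hb])]
        · rw [if_neg hb, if_neg]
          intro h
          exact hb (eq_of_heq (Sigma.mk.inj h).2)
      · rw [Pi.single_eq_of_ne (Ne.symm hij), map_zero]
        unfold JJ
        rw [if_neg]
        intro h
        exact hij (Sigma.mk.inj h).1
    · intro l _ hl
      rw [Pi.single_eq_of_ne hl, map_zero, LinearMap.zero_apply]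
    · intro h
      exact absurd (Finset.mem_univ _) h
  have hDDi : ∀ i a, DD (e i) Fin.rev a ∈ SpL (ω i) := by
    intro i a
    have h1 := SS_inv (e i) (ω i) Fin.rev_rev (hrev i) (hjj i) (hω i) a
    have h2 := SS_mem_SpL (ω i) (halt i) (e i a) (e i (Fin.rev a))
    rw [h1] at h2
    have h3 := Submodule.smul_mem _ (-jj i a)⁻¹ h2
    rwa [smul_smul, inv_mul_cancel₀ (neg_ne_zero.2 (hj0 i a)), one_smul] at h3
  have hDD : ∀ y, DD E inv y ∈ lieT (sumRep ρ) χ := by
    rintro ⟨i, a⟩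
    have h1 := hmem i _ (hDDi i a)
    have h2 : DD E inv ⟨i, a⟩ = piE (Pi.single i (DD (e i) Fin.rev a)) := by
      refine E.ext ?_
      rintro ⟨j, b⟩
      rw [DD_basis, hE, piE_single]
      by_cases hij : j = i
      · subst hij
        rw [Pi.single_eq_same, DD_basis, ← Pi.single_smul]
        congr 2
        unfold dd
        have e1 : ((⟨j, b⟩ : Σ i, Fin (r i + 1)) = ⟨j, a⟩) ↔ b = a := by
          constructor
          · intro h
            exact eq_of_heq (Sigma.mk.inj h).2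
          · rintro rfl
            rfl
        have e2 : ((⟨j, b⟩ : Σ i, Fin (r i + 1)) = inv ⟨j, a⟩) ↔ b = Fin.rev a := by
          constructor
          · intro h
            exact eq_of_heq (Sigma.mk.inj h).2
          · rintro rfl
            rfl
        simp only [e1, e2]
      · rw [Pi.single_eq_of_ne hij, LinearMap.zero_apply, Pi.single_zero, dd_other, zero_smul]
        · intro h
          exact hij (Sigma.mk.inj h).1
        · intro h
          exact hij (Sigma.mk.inj h).1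
    rw [h2]
    exact h1
  intro s₀ t₀ c₀ d₀ hst φ hφ
  have hmain := homs_of (sumRep ρ) χ (sumForm ω) (sumForm_alt _ halt)
    (sumForm_nondeg _ hnd) (sumForm_sim ρ χ ω hωρ)
    (Set.range (partForm ω)) (fun m φ hφ => by
      have h1 := tateG_mem E hinv hinvne hJ hJ0 (sumForm ω) hform (sumRep ρ) χ
        (sumForm_sim ρ χ ω hωρ) (hasProj_of hss)
        (fun m φ hφ I h0 y => balanced E (sumRep ρ) χ hDD m φ hφ I h0 y) φ hφ
      refine Submodule.span_induction ?_ (Submodule.zero_mem _)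
        (fun _ _ _ _ h1 h2 => Submodule.add_mem _ h1 h2) (fun c _ _ h => Submodule.smul_mem _ c h) h1
      rintro _ ⟨σ, B, hB, rfl⟩
      have h2 := mmG_mem_span σ (Set.range (partForm ω)) B fun l =>
        tate2_mem_span ρ χ ω halt hnd hωρ hcm (B l) (hB l)
      refine Submodule.span_mono ?_ h2
      rintro _ ⟨B', hB', rfl⟩
      exact ⟨σ, B', hB', rfl⟩) s₀ t₀ c₀ d₀ hst φ hφ
  refine Submodule.span_mono ?_ hmain
  rintro f' ⟨m, e, B, hB, hf'⟩
  choose u hu using hB
  refine ⟨m, e, u, fun x y => ?_⟩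
  rw [hf']
  refine Finset.prod_congr rfl fun l _ => ?_
  rw [← hu l]

end Pool.Agent.Y114.MU
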