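import Mathlib
import Pool.Agent.Y115.Main
import Pool.Agent.Y114.GF.Isotropic
import Pool.Agent.Y114.MU.SumTate

/-!
# The weights of an `ℓ`-adic character at different places
-/

set_option autoImplicit false
set_option linter.unusedSectionVars false
set_option linter.unusedVariables false

namespace Pool.Agent.Y114.MU

open NumberField IsDedekindDomain Module Pool.Agent.W569.FM Pool.Agent.W571.FM
open Pool.Agent.Y115.CQ Pool.Agent.Y115.T Pool.Agent.Y115.Chi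

variable {F : Type} [Field F] [NumberField F]

variable {ℓ : ℕ} [hℓ : Fact ℓ.Prime]

/-- The weights of a character at the places above different primes. -/
theorem two_weights (ψ : GF F →* ℚ_[ℓ]ˣ) (hψ : Continuous ψ) (T : Set ℕ) (hT3 : 3 ≤ T.encard)
    (hT : ∀ p ∈ T, p.Prime ∧ p ≠ ℓ ∧ Unram F p) {p₁ : ℕ} (hp₁ : p₁.Prime ∧ p₁ ≠ ℓ ∧ Unram F p₁)
    (d : HeightOneSpectrum (𝓞 F) → ℚ_[ℓ]ˣ)
    (hd : ∀ p, p ∈ T ∨ p = p₁ → ∀ v : HeightOneSpectrum (𝓞 F), (p : 𝓞 F) ∈ v.asIdeal →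
      ∀ Q : Ideal (OO F), Q.IsPrime → cm Q = v.asIdeal → (∀ τ, InInertia Q τ → ψ τ = 1) ∧
        ∀ φ, FrobAt (Ideal.absNorm v.asIdeal) Q φ → ψ φ = d v)
    (halg : ∀ p ∈ T, ∀ v : HeightOneSpectrum (𝓞 F), (p : 𝓞 F) ∈ v.asIdeal →
      IsAlgebraic ℚ (d v : ℚ_[ℓ])) (j : ℚ_[ℓ] →+* ℂ) (a : ℤ)
    (hw : ∀ p ∈ T, ∀ v : HeightOneSpectrum (𝓞 F), (p : 𝓞 F) ∈ v.asIdeal →
      ‖j (d v : ℚ_[ℓ])‖ ^ 2 = (Ideal.absNorm v.asIdeal : ℝ) ^ a)
    (b : HeightOneSpectrum (𝓞 F) → ℤ)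
    (hb : ∀ v : HeightOneSpectrum (𝓞 F), (p₁ : 𝓞 F) ∈ v.asIdeal →
      ‖j (d v : ℚ_[ℓ])‖ ^ 2 = (Ideal.absNorm v.asIdeal : ℝ) ^ b v)
    (hab : ∀ v : HeightOneSpectrum (𝓞 F), (p₁ : 𝓞 F) ∈ v.asIdeal → a ≤ b v) :
    ∀ v : HeightOneSpectrum (𝓞 F), (p₁ : 𝓞 F) ∈ v.asIdeal → b v = a := by
  classical
  set θ : GF ℚ →* ℚ_[ℓ]ˣ := MonoidHom.transfer (ψ.comp (cc F)) with hθ
  have hθc : Continuous θ := continuous_transfer (isOpen_core F) _ (hψ.comp (continuous_cc F))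
  obtain ⟨t, htT, ht3⟩ := Set.exists_subset_encard_eq hT3
  have htfin : t.Finite := Set.finite_of_encard_eq_coe ht3
  have htc : Nat.card t = 3 := by
    have h1 : Nat.card t = t.ncard := Nat.card_coe_set_eq t
    have h2 : (t.ncard : ℕ∞) = 3 := by rw [htfin.cast_ncard_eq]; exact ht3
    rw [h1]
    exact_mod_cast h2
  have hfin : Finite t := htfin
  obtain ⟨e⟩ : Nonempty (Fin 3 ≃ t) := by
    rw [← htc]
    exact ⟨(Finite.equivFin t).symm⟩
  set l : Fin 3 → ℕ := fun i => (e i : ℕ) with hl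
  have hlT : ∀ i, l i ∈ T := fun i => htT (e i).2
  have hchoose : ∀ p : ℕ, p.Prime → ∃ (P : Ideal (OO ℚ)) (σ : GF ℚ), P.IsMaximal ∧
    (p : OO ℚ) ∈ P ∧ FrobAt p P σ := fun p hp => exists_frobQ hp
  choose P σ hP hpP hσ using hchoose
  have key := char_main θ hθc l (fun i => (hT _ (hlT i)).1)
    (fun i j hij => e.injective (Subtype.ext hij)) (fun i => (hT _ (hlT i)).2.1)
    (fun i => P (l i) (hT _ (hlT i)).1) (fun i => (hP _ _).isPrime) (fun i => hpP _ _)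
    (fun i => σ (l i) (hT _ (hlT i)).1) (fun i => hσ _ _) (by
      intro i
      obtain ⟨M, S, hM, hS, heq, -⟩ := transfer_frob ψ (hT _ (hlT i)).1 (hP (l i) (hT _ (hlT i)).1)
        (hpP (l i) (hT _ (hlT i)).1) (hσ (l i) (hT _ (hlT i)).1) (hT _ (hlT i)).2.2 d
        (hd _ (Or.inl (hlT i)))
      have h1 : IsAlgebraic ℚ ((θ (σ (l i) (hT _ (hlT i)).1) : ℚ_[ℓ]) ^ M) := by
        rw [← Units.val_pow_eq_pow_val, hθ, heq, Units.val_pow_eq_pow_val]
        apply IsAlgebraic.pow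
        rw [Units.coe_prod]
        have h2 : ∀ s : Finset (HeightOneSpectrum (𝓞 F)),
            (∀ v ∈ s, IsAlgebraic ℚ (d v : ℚ_[ℓ])) →
            IsAlgebraic ℚ (∏ v ∈ s, (d v : ℚ_[ℓ])) := by
          intro s
          induction s using Finset.induction_on with
          | empty =>
            intro _
            rw [Finset.prod_empty]
            exact isAlgebraic_one
          | insert v s hv ih =>
            intro h
            rw [Finset.prod_insert hv]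
            exact (h v (Finset.mem_insert_self v s)).mul
              (ih fun w hw => h w (Finset.mem_insert_of_mem hw))
        exact h2 S fun v hv => halg _ (hlT i) v ((hS v).1 hv)
      exact IsAlgebraic.of_pow hM h1)
  obtain ⟨N, a', hN, hNa⟩ := key
  -- the relation at one prime
  have hrel : ∀ p, p ∈ T ∨ p = p₁ → ∀ c : HeightOneSpectrum (𝓞 F) → ℤ,
      (∀ v : HeightOneSpectrum (𝓞 F), (p : 𝓞 F) ∈ v.asIdeal →
        ‖j (d v : ℚ_[ℓ])‖ ^ 2 = (Ideal.absNorm v.asIdeal : ℝ) ^ c v) →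
      ∃ (S : Finset (HeightOneSpectrum (𝓞 F))) (f : HeightOneSpectrum (𝓞 F) → ℕ),
        (∀ v, v ∈ S ↔ (p : 𝓞 F) ∈ v.asIdeal) ∧ (∀ v ∈ S, 0 < f v) ∧
        ∑ v ∈ S, f v = Module.finrank ℚ F ∧ (∑ v ∈ S, (f v : ℤ) * c v) * N = 2 * a' := by
    intro p hpT c hc
    obtain ⟨hp, hne, hur⟩ : p.Prime ∧ p ≠ ℓ ∧ Unram F p := by
      rcases hpT with h | rfl
      · exact hT p h
      · exact hp₁
    obtain ⟨M, S, hM, hS, heq, f, hf, hsum⟩ := transfer_frob ψ hp (hP p hp) (hpP p hp) (hσ p hp) hur d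
      (hd p hpT)
    refine ⟨S, f, hS, ?_, hsum, ?_⟩
    · intro v hv
      rcases Nat.eq_zero_or_pos (f v) with h | h
      · exfalso
        have h1 := hf v hv
        rw [h, pow_zero, Ideal.absNorm_eq_one_iff] at h1
        exact v.isPrime.ne_top h1
      · exact h
    · have hpr : (1 : ℝ) < p := by exact_mod_cast hp.one_lt
      have hp0 : (p : ℝ) ≠ 0 := by positivity
      have h1 : (∏ v ∈ S, d v) ^ (M * N) = (chiE ℓ ℚ_[ℓ] (σ p hp) ^ a') ^ M := by
        rw [pow_mul, ← heq, ← pow_mul, mul_comm, pow_mul, ← hNa]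
      have h2 : (chiE ℓ ℚ_[ℓ] (σ p hp) : ℚ_[ℓ]) = (p : ℚ_[ℓ]) := by
        rw [coe_chiE, chi_frob (hP p hp).isPrime (not_mem_of_ne hp hne (hP p hp).ne_top (hpP p hp))
          (hσ p hp)]
        simp
      have h3 := congrArg (fun u : ℚ_[ℓ]ˣ => ‖j (u : ℚ_[ℓ])‖ ^ 2) h1
      simp only [Units.val_pow_eq_pow_val, Units.coe_prod, Units.val_zpow_eq_zpow_val] at h3
      rw [h2, map_pow, map_prod, map_pow, map_zpow₀, map_natCast, norm_pow, norm_pow, norm_zpow,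
        Complex.norm_natCast, norm_prod] at h3
      have h4 : (∏ v ∈ S, ‖j (d v : ℚ_[ℓ])‖) ^ 2 = (p : ℝ) ^ (∑ v ∈ S, (f v : ℤ) * c v) := by
        rw [← Finset.prod_pow]
        have h5 : ∀ s : Finset (HeightOneSpectrum (𝓞 F)), s ⊆ S →
            ∏ v ∈ s, ‖j (d v : ℚ_[ℓ])‖ ^ 2 = (p : ℝ) ^ (∑ v ∈ s, (f v : ℤ) * c v) := by
          intro s
          induction s using Finset.induction_on with
          | empty => intro _; simp
          | insert v s hv ih =>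
            intro hsS
            rw [Finset.prod_insert hv, Finset.sum_insert hv,
              ih ((Finset.subset_insert v s).trans hsS), zpow_add₀ hp0]
            congr 1
            have hvS := hsS (Finset.mem_insert_self v s)
            rw [hc v ((hS v).1 hvS), hf v hvS, zpow_mul, zpow_natCast]
            push_cast
            rfl
        exact h5 S subset_rfl
      have h5 : ((∏ v ∈ S, ‖j (d v : ℚ_[ℓ])‖) ^ (M * N)) ^ 2 =
          (p : ℝ) ^ ((∑ v ∈ S, (f v : ℤ) * c v) * (M * N)) := by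
        rw [← pow_mul, mul_comm (M * N) 2, pow_mul, h4, zpow_mul (p : ℝ) _ ((M : ℤ) * N)]
        exact_mod_cast rfl
      rw [h5] at h3
      have h6 : (((p : ℝ) ^ a') ^ M) ^ 2 = (p : ℝ) ^ (a' * M * 2) := by
        rw [zpow_mul, zpow_mul]
        exact_mod_cast rfl
      rw [h6] at h3
      have h7 := zpow_right_injective₀ (by linarith) hpr.ne' h3
      have hM0 : (M : ℤ) ≠ 0 := by exact_mod_cast hM.ne'
      have h8 : (M : ℤ) * ((∑ v ∈ S, (f v : ℤ) * c v) * N - 2 * a') = 0 := by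
        linear_combination h7
      have h9 := (mul_eq_zero.1 h8).resolve_left hM0
      linear_combination h9
  obtain ⟨S, f, hS, hfpos, hsum, h1⟩ := hrel p₁ (Or.inr rfl) b hb
  obtain ⟨S', f', hS', hfpos', hsum', h2⟩ := hrel (l 0) (Or.inl (hlT 0)) (fun _ => a)
    (hw _ (hlT 0))
  have h3 : (∑ v ∈ S', (f' v : ℤ) * a) = (finrank ℚ F : ℤ) * a := by
    rw [← Finset.sum_mul]
    congr 1
    exact_mod_cast hsum'
  rw [h3] at h2
  have hN0 : (N : ℤ) ≠ 0 := by exact_mod_cast hN.ne'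
  have h4 : (∑ v ∈ S, (f v : ℤ) * b v) = (finrank ℚ F : ℤ) * a :=
    mul_right_cancel₀ hN0 (h1.trans h2.symm)
  have h5 : ∑ v ∈ S, (f v : ℤ) * (b v - a) = 0 := by
    have h6 : ∑ v ∈ S, (f v : ℤ) * (b v - a) = (∑ v ∈ S, (f v : ℤ) * b v) -
        (∑ v ∈ S, (f v : ℤ)) * a := by
      rw [Finset.sum_mul, ← Finset.sum_sub_distrib]
      exact Finset.sum_congr rfl fun v _ => by ring
    rw [h6, h4, ← Nat.cast_sum, hsum, sub_self]
  intro v hv
  have hvS := (hS v).2 hv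
  have h6 := (Finset.sum_eq_zero_iff_of_nonneg (fun v hv => mul_nonneg (by positivity)
    (by have := hab v ((hS v).1 hv); omega))).1 h5 v hvS
  have h7 : (f v : ℤ) ≠ 0 := by exact_mod_cast (hfpos v hvS).ne'
  have h8 := (mul_eq_zero.1 h6).resolve_left h7
  linarith

end Pool.Agent.Y114.MU
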