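import Mathlib
import Pool.Agent.Y114.MU.Weight

/-!
# The determinant of Frobenius on the stable subspaces, at a place of maximally unipotent monodromy
-/

set_option autoImplicit false
set_option linter.unusedSectionVars false
set_option linter.unusedVariables false

namespace Pool.Agent.Y114.MU

open Module Polynomial

variable {k : Type*} [Field k] [CharZero k] {V : Type*} [AddCommGroup V] [Module k V]
  [FiniteDimensional k V] {N : End k V} {r : ℕ}

/-- The restriction of a regular nilpotent endomorphism to a stable subspace. -/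
theorem Reg.restrict (h : Reg N r) {W : Submodule k V} (hWN : ∀ u ∈ W, N u ∈ W) {s : ℕ}
    (hs : finrank k W = s + 1) : Reg (N.restrict hWN) s := by
  refine ⟨hs, ?_, ?_⟩
  · obtain ⟨m, hm⟩ := h.nil
    refine ⟨m, ?_⟩
    rw [Module.End.pow_restrict]
    ext x
    change (N ^ m) x = 0
    rw [hm]
    rfl
  · intro h0
    obtain ⟨v, hv⟩ := h.exists_vec
    have hW := h.stable hWN
    rw [hs] at hW
    have hle : s + 1 ≤ r + 1 := by
      rw [← hs, ← h.dim]
      exact Submodule.finrank_le W
    have h1 : (N ^ (r - s)) v ∈ W := by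
      rw [hW, LinearMap.mem_ker, ← Module.End.mul_apply, ← pow_add,
        show s + 1 + (r - s) = r + 1 by omega, h.pow_dim, LinearMap.zero_apply]
    rw [Module.End.pow_restrict] at h0
    have h2 := congrArg Subtype.val (LinearMap.congr_fun h0 ⟨_, h1⟩)
    change (N ^ s) ((N ^ (r - s)) v) = 0 at h2
    rw [← Module.End.mul_apply, ← pow_add, show s + (r - s) = r by omega] at h2
    exact hv h2

theorem Reg.sub_det (h : Reg N r) {F : End k V} {q : k} (hF : F * N = q • (N * F))
    {W : Submodule k V} (hWN : ∀ u ∈ W, N u ∈ W) (hWF : ∀ u ∈ W, F u ∈ W) {s : ℕ}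
    (hs : finrank k W = s + 1) {w : V} (hw0 : w ≠ 0) (hw : N w = 0) {b : k} (hb : F w = b • w) :
    LinearMap.det (F.restrict hWF) * q ^ (s * (s + 1) / 2) = b ^ (s + 1) := by
  have hwW : w ∈ W := by
    rw [h.stable hWN, LinearMap.mem_ker, hs, pow_succ, Module.End.mul_apply, hw, map_zero]
  refine (h.restrict hWN hs).det (w := ⟨w, hwW⟩) ?_ ?_ ?_ ?_
  · refine LinearMap.ext fun x => Subtype.ext ?_
    have h1 := congrArg (fun T : End k V => T x.1) hF
    exact h1
  · exact fun h0 => hw0 (congrArg Subtype.val h0)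
  · exact Subtype.ext hw
  · exact Subtype.ext hb

/-- The eigenvalue of Frobenius on the kernel of the monodromy operator. -/
theorem Reg.b_sq (h : Reg N r) {F : End k V} {q : k} (hF : F * N = q • (N * F))
    (ω : V →ₗ[k] V →ₗ[k] k) (halt : ∀ v, ω v v = 0) (hnd : ∀ u, (∀ v, ω v u = 0) → u = 0)
    (hN : N ∈ SpL ω) {c : k} (hsim : ∀ u v, ω (F u) (F v) = c * ω u v) {w : V} (hw0 : w ≠ 0)
    (hw : N w = 0) {b : k} (hb : F w = b • w) : b ^ 2 = q ^ r * c := by
  obtain ⟨v, hv⟩ := h.exists_vec
  obtain ⟨a, ha⟩ := h.exists_coeff hv (F v)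
  have hFp : ∀ m, F * N ^ m = q ^ m • (N ^ m * F) := by
    intro m
    induction m with
    | zero => simp
    | succ m ih =>
      rw [pow_succ, ← mul_assoc, ih, smul_mul_assoc, mul_assoc, hF, mul_smul_comm, smul_smul,
        ← pow_succ, mul_assoc]
  obtain ⟨d, hd⟩ := h.ker_one hv hw
  have hd0 : d ≠ 0 := by
    rintro rfl
    rw [zero_smul] at hd
    exact hw0 hd
  set w0 := (N ^ r) v with hw0'
  have hFw0 : F w0 = b • w0 := by
    have h1 : F (d • w0) = b • (d • w0) := by rw [← hd, hb]
    rw [map_smul, smul_comm] at h1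
    exact smul_right_injective V hd0 h1
  have hNFv : (N ^ r) (F v) = a 0 • w0 := by
    rw [ha, map_sum, Finset.sum_range_succ', Finset.sum_eq_zero, zero_add, map_smul, pow_zero,
      Module.End.one_apply]
    intro i _
    rw [map_smul, ← Module.End.mul_apply, ← pow_add, h.pow_zero_of_lt (show r < r + (i + 1) by omega),
      LinearMap.zero_apply, smul_zero]
  have hba : b = q ^ r * a 0 := by
    have h1 : F w0 = q ^ r • (N ^ r) (F v) := by
      have h2 := congrArg (fun T : End k V => T v) (hFp r)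
      exact h2
    rw [hFw0, hNFv, smul_smul] at h1
    have h2 : (b - q ^ r * a 0) • w0 = 0 := by rw [sub_smul, h1, sub_self]
    exact sub_eq_zero.1 ((smul_eq_zero.1 h2).resolve_right hv)
  have hadj : ∀ (m : ℕ) (u x : V), ω u ((N ^ m) x) = (-1) ^ m * ω ((N ^ m) u) x := by
    intro m
    induction m with
    | zero => intro u x; simp
    | succ m ih =>
      intro u x
      have e1 : (N ^ (m + 1)) x = (N ^ m) (N x) := by
        rw [pow_succ, Module.End.mul_apply]
      have e2 : (N ^ (m + 1)) u = N ((N ^ m) u) := by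
        rw [pow_succ', Module.End.mul_apply]
      rw [e1, e2, ih, pow_succ]
      have h1 := hN ((N ^ m) u) x
      linear_combination (-1) ^ m * h1
  have hzero : ∀ i, ω w0 ((N ^ (i + 1)) v) = 0 := by
    intro i
    rw [hadj, hw0', ← Module.End.mul_apply, ← pow_add, h.pow_zero_of_lt (show r < i + 1 + r by omega),
      LinearMap.zero_apply, map_zero, LinearMap.zero_apply, mul_zero]
  have hexp : ∀ x, (∃ c : ℕ → k, x = ∑ i ∈ Finset.range (r + 1), c i • (N ^ i) v ∧
      ω w0 x = c 0 * ω w0 v) := by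
    intro x
    obtain ⟨c, hc⟩ := h.exists_coeff hv x
    refine ⟨c, hc, ?_⟩
    conv_lhs => rw [hc]
    rw [map_sum, Finset.sum_range_succ', Finset.sum_eq_zero, zero_add, map_smul, pow_zero,
      Module.End.one_apply, smul_eq_mul]
    intro i _
    rw [map_smul, hzero, smul_zero]
  have hne : ω w0 v ≠ 0 := by
    intro h0
    apply hv
    refine hnd _ fun x => ?_
    obtain ⟨c, -, hc⟩ := hexp x
    have h1 := alt_neg ω halt x w0
    rw [h1, hc, h0, mul_zero, neg_zero]
  have h1 : ω w0 (F v) = a 0 * ω w0 v := by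
    rw [ha, map_sum, Finset.sum_range_succ', Finset.sum_eq_zero, zero_add, map_smul, pow_zero,
      Module.End.one_apply, smul_eq_mul]
    intro i _
    rw [map_smul, hzero, smul_zero]
  have h2 := hsim w0 v
  rw [hFw0, map_smul, LinearMap.smul_apply, smul_eq_mul, h1] at h2
  have h3 : (b * a 0 - c) * ω w0 v = 0 := by linear_combination h2
  have h4 := (mul_eq_zero.1 h3).resolve_right hne
  linear_combination q ^ r * h4 + (b - 0) * hba

/-- Frobenius and the logarithm. -/
theorem lgA_qpow {u : End k V} {d q : ℕ} (hd : 2 ≤ d) (hu : (u - 1) ^ d = 0)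
    (huq : (u ^ q - 1) ^ d = 0) :
    lgA d (u ^ q - 1) 1 = (q : k) • lgA d (u - 1) 1 := by
  have h1 : ∀ m : ℕ, ∑ i ∈ Finset.range d, ((m : k) ^ i) • (lgA d (u ^ q - 1) i -
      ((q : k) ^ i) • lgA d (u - 1) i) = 0 := by
    intro m
    have h2 := lgA_pow huq m
    have h3 := lgA_pow hu (q * m)
    rw [add_sub_cancel] at h2 h3
    rw [← pow_mul, h3] at h2
    simp only [smul_sub, Finset.sum_sub_distrib]
    rw [← h2, sub_eq_zero]
    refine Finset.sum_congr rfl fun i _ => ?_
    rw [smul_smul, Nat.cast_mul, mul_pow, mul_comm]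
  rw [← sub_eq_zero]
  have key : ∀ l : Dual k (End k V), l (lgA d (u ^ q - 1) 1 - (q : k) • lgA d (u - 1) 1) = 0 := by
    intro l
    let G : k[X] := ∑ i ∈ Finset.range d, C (l (lgA d (u ^ q - 1) i -
      ((q : k) ^ i) • lgA d (u - 1) i)) * X ^ i
    have hG : G = 0 := by
      refine Polynomial.eq_zero_of_infinite_isRoot G ?_
      refine Set.infinite_of_injective_forall_mem (f := fun t : ℕ => (t : k)) Nat.cast_injective ?_
      intro t
      change G.IsRoot _
      rw [IsRoot.def]
      simp only [G, eval_finsetSum, eval_mul, eval_C, eval_pow, eval_X]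
      have h2 := congrArg l (h1 t)
      rw [map_sum, map_zero] at h2
      rw [← h2]
      refine Finset.sum_congr rfl fun i _ => ?_
      rw [map_smul, smul_eq_mul, mul_comm]
    have h2 := congrArg (fun p : k[X] => p.coeff 1) hG
    simp only [G, finsetSum_coeff, coeff_C_mul, coeff_X_pow, coeff_zero] at h2
    rw [Finset.sum_eq_single 1] at h2
    · rw [if_pos rfl, mul_one, pow_one] at h2
      exact h2
    · intro i _ hi
      rw [if_neg hi.symm, mul_zero]
    · intro h
      exact absurd (Finset.mem_range.2 (by omega)) h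
  exact (Module.forall_dual_apply_eq_zero_iff k _).1 key

theorem comm_lgA {F ν ν' : End k V} (h : F * ν = ν' * F) (d i : ℕ) :
    F * lgA d ν i = lgA d ν' i * F := by
  have hp : ∀ j : ℕ, F * ν ^ j = ν' ^ j * F := by
    intro j
    induction j with
    | zero => simp
    | succ j ih => rw [pow_succ, ← mul_assoc, ih, mul_assoc, h, ← mul_assoc, ← pow_succ]
  unfold lgA
  rw [Finset.mul_sum, Finset.sum_mul]
  refine Finset.sum_congr rfl fun j _ => ?_
  rw [mul_smul_comm, smul_mul_assoc, hp]

/-- The monodromy operator of a maximally unipotent element and a Frobenius element. -/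
theorem exists_monodromy {Γ : Type*} [Group Γ] (ρ : Representation k Γ V) (χ : Γ →* k) {τ φ : Γ}
    {q r : ℕ} (hdim : finrank k V = r + 1) (hχ : χ τ = 1)
    (hu : IsNilpotent (ρ τ - 1)) (hr : (ρ τ - 1) ^ r ≠ 0) (hF : ρ φ * ρ τ = ρ τ ^ q * ρ φ)
    (ω : V →ₗ[k] V →ₗ[k] k) (hωρ : ∀ s x y, ω (ρ s x) (ρ s y) = χ s * ω x y) :
    ∃ N : End k V, Reg N r ∧ ρ φ * N = (q : k) • (N * ρ φ) ∧ N ∈ SpL ω ∧
      (∀ W : Submodule k V, (∀ x ∈ W, ρ τ x ∈ W) → ∀ x ∈ W, N x ∈ W) := by
  set u := ρ τ with hudef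
  set F := ρ φ with hFdef
  obtain ⟨m, hm⟩ := hu
  have h1 : (u - 1) ^ (m + 2) = 0 := by rw [pow_add, hm, zero_mul]
  have h2 : (u ^ q - 1) ^ (m + 2) = 0 := by
    have h6 : u ^ q - 1 = (u - 1) * ∑ l ∈ Finset.range q, u ^ l := (mul_geom_sum u q).symm
    have hc : Commute (u - 1) (∑ l ∈ Finset.range q, u ^ l) := by
      refine Commute.sum_right _ _ _ fun l _ => ?_
      exact ((Commute.refl u).pow_right l).sub_left (Commute.one_left _)
    rw [h6, hc.mul_pow, h1, zero_mul]
  refine ⟨lgA (m + 2) (u - 1) 1, ⟨hdim, lgA_one_nil m ⟨m, hm⟩, fun h0 => hr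
    ((lgA_one_pow m ⟨m, hm⟩ r).1 h0)⟩, ?_, fun x y => Pool.Agent.H204R3.SP.lieT_sp ρ χ ω hωρ
      (lg_mem ρ χ h1 hχ) x y, ?_⟩
  · have h3 : F * (u - 1) = (u ^ q - 1) * F := by
      rw [mul_sub, sub_mul, hF, mul_one, one_mul]
    rw [comm_lgA h3, lgA_qpow (by omega) h1 h2, smul_mul_assoc]
  · intro W hW
    have h3 : ∀ x ∈ W, (u - 1) x ∈ W := by
      intro x hx
      rw [LinearMap.sub_apply, Module.End.one_apply]
      exact Submodule.sub_mem _ (hW x hx) hx
    have h4 : ∀ j : ℕ, ∀ x ∈ W, ((u - 1) ^ j) x ∈ W := by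
      intro j
      induction j with
      | zero => intro x hx; exact hx
      | succ j ih =>
        intro x hx
        rw [pow_succ, Module.End.mul_apply]
        exact ih _ (h3 x hx)
    intro x hx
    unfold lgA
    rw [LinearMap.sum_apply]
    exact Submodule.sum_mem _ fun j _ => Submodule.smul_mem _ _ (h4 j x hx)

end Pool.Agent.Y114.MU
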