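import Mathlib
import Pool.Agent.Y114.MU.LinDet
import Pool.Agent.Y114.GF.MainS

/-!
# Irreducibility of the representations with maximally unipotent monodromy
-/

set_option autoImplicit false
set_option linter.unusedSectionVars false
set_option linter.unusedVariables false

namespace Pool.Agent.Y114.MU

open NumberField IsDedekindDomain Polynomial Module Pool.Agent.Y114.TF Pool.Agent.Y114.GF
open Pool.Agent.W569.FM Pool.Agent.W571.FM Pool.Agent.Y115.R Pool.Agent.Y115.T Pool.Agent.Y115.Chi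

variable {F : Type} [Field F] [NumberField F]

theorem frob_value {A : Type*} [CommGroup A] (ψ : GF F →* A) (v : HeightOneSpectrum (𝓞 F))
    (hin : ∀ Q : Ideal (OO F), Q.IsPrime → cm Q = v.asIdeal → ∀ g, InInertia Q g → ψ g = 1)
    {Q₀ Q : Ideal (OO F)} (hQ₀ : Q₀.IsPrime) (hQ : Q.IsPrime) (hQ₀v : cm Q₀ = v.asIdeal)
    (hQv : cm Q = v.asIdeal) {σ g : GF F} (hσ : FrobAt (Ideal.absNorm v.asIdeal) Q₀ σ)
    (hg : FrobAt (Ideal.absNorm v.asIdeal) Q g) : ψ g = ψ σ := by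
  obtain ⟨h, hh⟩ := exists_smul Q₀ Q hQ₀ hQ (hQ₀v.trans hQv.symm)
  have hq0 : Ideal.absNorm v.asIdeal ≠ 0 := by
    rw [Ne, Ideal.absNorm_eq_zero_iff]
    exact v.ne_bot
  have h1 : FrobAt (Ideal.absNorm v.asIdeal) Q₀ (h⁻¹ * g * h) := by
    intro x
    have h2 := (hh _).1 (hg (h • x))
    rw [smul_sub, smul_pow', inv_smul_smul, smul_smul, smul_smul] at h2
    exact h2
  have h2 := hin Q₀ hQ₀ hQ₀v _ (frob_inertia hq0 hQ₀ hσ h1)
  rw [map_mul, map_mul, map_mul, map_inv, map_inv, mul_comm (ψ h)⁻¹, mul_assoc (ψ g),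
    inv_mul_cancel, mul_one, inv_mul_eq_one] at h2
  exact h2.symm

theorem det_one_add_nilpotent {k V : Type*} [Field k] [AddCommGroup V] [Module k V]
    [FiniteDimensional k V] {ν : End k V} (h : IsNilpotent ν) : LinearMap.det (1 + ν) = 1 := by
  have h1 := LinearMap.eval_charpoly (f := -ν) (1 : k)
  rw [(show LinearMap.charpoly (-ν) = _ from IsNilpotent.charpoly_eq_X_pow_finrank h.neg)] at h1
  rw [map_one, sub_neg_eq_add] at h1
  rw [← h1]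
  simp

section det

variable {ℓ : ℕ} [hℓ : Fact ℓ.Prime]

/-- The determinant on a stable subspace, at a place of good reduction. -/
theorem det_good (j : ℚ_[ℓ] →+* ℂ) {V : Type} [AddCommGroup V] [Module ℚ_[ℓ] V]
    [FiniteDimensional ℚ_[ℓ] V] (g : End ℚ_[ℓ] V) (W : Submodule ℚ_[ℓ] V) (hW : W ≤ W.comap g)
    {P : ℚ[X]} (hP : g.charpoly = P.map (algebraMap ℚ ℚ_[ℓ])) {c : ℝ}
    (hc : ∀ a ∈ P.aroots ℂ, ‖a‖ ^ 2 = c) :
    IsAlgebraic ℚ (LinearMap.det (g.restrict hW)) ∧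
      ‖j (LinearMap.det (g.restrict hW))‖ ^ 2 = c ^ finrank ℚ_[ℓ] W := by
  set C : ℚ_[ℓ][X] := (g.restrict hW).charpoly with hC
  have hCm : C.Monic := LinearMap.charpoly_monic _
  have hdeg : C.natDegree = finrank ℚ_[ℓ] W := LinearMap.charpoly_natDegree _
  have hsplit : (C.map j).Splits := IsAlgClosed.splits _
  have hmapP : g.charpoly.map j = P.map (algebraMap ℚ ℂ) := by
    rw [hP, Polynomial.map_map]
    congr 1
    exact Subsingleton.elim _ _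
  have hgm : g.charpoly.Monic := LinearMap.charpoly_monic _
  have hle : (C.map j).roots ≤ P.aroots ℂ := by
    have h1 := Pool.Agent.W522.C.charpoly_eq_mul g W hW
    have h2 : (C.map j) ∣ (g.charpoly.map j) := Polynomial.map_dvd j (Dvd.intro _ h1.symm)
    have h3 := Polynomial.roots.le_of_dvd (hgm.map j).ne_zero h2
    rw [hmapP] at h3
    exact h3
  have hprod : j (LinearMap.det (g.restrict hW)) = (C.map j).roots.prod := by
    rw [LinearMap.det_eq_sign_charpoly_coeff, map_mul, map_pow, map_neg, map_one, ← hC,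
      ← Polynomial.coeff_map, hsplit.coeff_zero_eq_prod_roots_of_monic (hCm.map j),
      Polynomial.natDegree_map, hdeg, ← mul_assoc, ← pow_add, ← two_mul, pow_mul, neg_one_sq,
      one_pow, one_mul]
  have hcard : Multiset.card (C.map j).roots = finrank ℚ_[ℓ] W := by
    rw [← hsplit.natDegree_eq_card_roots, Polynomial.natDegree_map, hdeg]
  refine ⟨?_, ?_⟩
  · have h1 : IsAlgebraic ℚ (j (LinearMap.det (g.restrict hW))) := by
      rw [hprod]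
      apply Pool.Agent.Y115.M.isAlgebraic_multiset_prod
      intro a ha
      have h2 := Multiset.mem_of_le hle ha
      rw [mem_aroots] at h2
      exact ⟨P, h2.1, h2.2⟩
    exact (isAlgebraic_algHom_iff (RingHom.toRatAlgHom j) j.injective).1 h1
  · rw [hprod, Pool.Agent.Y115.M.norm_multiset_prod _ c
      (fun a ha => hc a (Multiset.mem_of_le hle ha)), hcard]

end det

section irr

variable {ι : Type} [Fintype ι] {n : ι → ℕ} {P : HeightOneSpectrum (𝓞 F) → ι → ℚ[X]}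

theorem chi_inertia {ℓ : ℕ} [hℓ : Fact ℓ.Prime] {v : HeightOneSpectrum (𝓞 F)}
    {Q : Ideal (OO F)} (hQ : Q.IsPrime) (hQv : cm Q = v.asIdeal) (hℓv : ¬ Above v ℓ) {τ φ : GF F}
    (hτ : InInertia Q τ) (hφ : FrobAt (Ideal.absNorm v.asIdeal) Q φ) :
    ((chi F ℓ φ : ℤ_[ℓ]ˣ) : ℤ_[ℓ]) = (Ideal.absNorm v.asIdeal : ℤ_[ℓ]) ∧ chi F ℓ τ = 1 := by
  have hℓQ : (ℓ : OO F) ∉ Q := by
    rw [← natCast_mem_cm, hQv]
    exact hℓv
  have h1 := chi_frob (ℓ := ℓ) hQ hℓQ hφ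
  refine ⟨h1, ?_⟩
  have h2 : FrobAt (Ideal.absNorm v.asIdeal) Q (τ * φ) := by
    intro x
    have h3 := hφ x
    have h4 := hτ (φ • x)
    rw [mul_smul]
    have h5 : τ • φ • x - x ^ Ideal.absNorm v.asIdeal =
        (τ • φ • x - φ • x) + (φ • x - x ^ Ideal.absNorm v.asIdeal) := by abel
    rw [h5]
    exact Q.add_mem h4 h3
  have h3 := chi_frob (ℓ := ℓ) hQ hℓQ h2
  have h4 : chi F ℓ (τ * φ) = chi F ℓ φ := Units.ext (h3.trans h1.symm)
  rw [map_mul] at h4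
  exact mul_eq_right.1 h4

theorem char_inertia (R : Realizations n Gal(AlgebraicClosure F/F)) {w : ℕ} (hR : IsSystem R w)
    {ℓ : ℕ} [hℓ : Fact ℓ.Prime] {v : HeightOneSpectrum (𝓞 F)}
    {Q : Ideal (OO F)} (hQ : Q.IsPrime) (hQv : cm Q = v.asIdeal) (hℓv : ¬ Above v ℓ) {τ φ : GF F}
    (hτ : InInertia Q τ) (hφ : FrobAt (Ideal.absNorm v.asIdeal) Q φ) :
    R.χ ℓ φ * (Ideal.absNorm v.asIdeal : ℚ_[ℓ]) ^ w = 1 ∧ R.χ ℓ τ = 1 := by
  obtain ⟨h1, h2⟩ := chi_inertia hQ hQv hℓv hτ hφ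
  have h3 := hR.similitude ℓ φ
  have h4 := hR.similitude ℓ τ
  have h5 : ((cyclotomicCharacter (AlgebraicClosure F) ℓ φ : ℤ_[ℓ]) : ℚ_[ℓ]) =
      (Ideal.absNorm v.asIdeal : ℚ_[ℓ]) := by
    have h6 := congrArg (fun z : ℤ_[ℓ] => (z : ℚ_[ℓ])) h1
    simp only [PadicInt.coe_natCast] at h6
    exact h6
  have h6 : ((cyclotomicCharacter (AlgebraicClosure F) ℓ τ : ℤ_[ℓ]) : ℚ_[ℓ]) = 1 := by
    have h7 := congrArg (fun z : ℤ_[ℓ]ˣ => ((z : ℤ_[ℓ]) : ℚ_[ℓ])) h2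
    simp only [Units.val_one, PadicInt.coe_one] at h7
    exact h7
  rw [h5] at h3
  rw [h6, one_pow, mul_one] at h4
  exact ⟨h3, h4⟩

theorem irreducible_of_mum (R : Realizations n Gal(AlgebraicClosure F/F)) {w : ℕ}
    (hR : IsSystem R w) {ℓ : ℕ} [hℓ : Fact ℓ.Prime] (T : Set ℕ) (hT3 : 3 ≤ T.encard)
    (hT : ∀ p ∈ T, p.Prime ∧ p ≠ ℓ ∧ UnramifiedIn F p)
    (hgood : ∀ p ∈ T, ∀ v, Above v p → GoodAt R w v (P v)) (i : ι) {p₁ : ℕ}
    (hp₁ : p₁.Prime ∧ p₁ ≠ ℓ ∧ UnramifiedIn F p₁) {v₁ : HeightOneSpectrum (𝓞 F)}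
    (hv₁ : Above v₁ p₁) (hmum : MaxUnipotentAt R i v₁)
    (hall : ∀ v, Above v p₁ → MaxUnipotentAt R i v ∨ GoodFor R w i v) (hn : 0 < n i)
    (W : Submodule ℚ_[ℓ] (Fin (n i) → ℚ_[ℓ])) (hW : ∀ g, ∀ x ∈ W, R.ρ ℓ i g x ∈ W) :
    W = ⊥ ∨ W = ⊤ := by
  classical
  by_cases hW0 : finrank ℚ_[ℓ] W = 0
  · exact Or.inl (Submodule.finrank_eq_zero.1 hW0)
  obtain ⟨s, hs⟩ := Nat.exists_eq_succ_of_ne_zero hW0
  rw [Nat.succ_eq_add_one] at hs
  obtain ⟨r, hr⟩ := Nat.exists_eq_succ_of_ne_zero hn.ne'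
  rw [Nat.succ_eq_add_one] at hr
  have hfr : finrank ℚ_[ℓ] (Fin (n i) → ℚ_[ℓ]) = r + 1 := by simp [hr]
  have hsr : s ≤ r := by
    have := Submodule.finrank_le W
    omega
  obtain ⟨j, hj⟩ := exists_j ℓ ℚ_[ℓ] ℚ (algebraMap ℚ ℚ_[ℓ]) (algebraMap ℚ ℂ)
  -- the character
  have hW' : ∀ g, W ≤ W.comap (act (matRep (R.ρ ℓ i)) g) := fun g x hx => by
    rw [Submodule.mem_comap, act_matRep]
    exact hW g x hx
  have hW'' : ∀ g, W ≤ W.comap (R.ρ ℓ i g) := fun g x hx => hW g x hx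
  set ψ : GF F →* ℚ_[ℓ]ˣ := dt (matRep (R.ρ ℓ i)) W hW' with hψ
  have hψc : Continuous ψ :=
    continuous_dt ℓ (matRep (R.ρ ℓ i)) (continuous_matRep _ (hR.continuous ℓ i)) W hW'
  have hψdet : ∀ g, (ψ g : ℚ_[ℓ]) = LinearMap.det ((R.ρ ℓ i g).restrict (hW'' g)) := by
    intro g
    rw [hψ, coe_dt]
    congr 1
    refine LinearMap.ext fun x => Subtype.ext ?_
    exact act_matRep (R.ρ ℓ i) g x
  -- Frobenius elements
  have hfr₀ : ∀ v : HeightOneSpectrum (𝓞 F), ∃ (Q : Ideal (OO F)) (σ : GF F), Q.IsMaximal ∧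
      cm Q = v.asIdeal ∧ FrobAt (Ideal.absNorm v.asIdeal) Q σ := fun v => frob_cm v
  choose Q₀ σ₀ hQ₀ hQ₀v hσ₀ using hfr₀
  have hℓv : ∀ p, p.Prime → p ≠ ℓ → ∀ v : HeightOneSpectrum (𝓞 F), Above v p → ¬ Above v ℓ :=
    fun p hp hne v hv => not_above_of_ne hp hℓ.out hne hv
  have hq0 : ∀ v : HeightOneSpectrum (𝓞 F), (Ideal.absNorm v.asIdeal : ℝ) ≠ 0 := by
    intro v
    rw [Nat.cast_ne_zero, Ne, Ideal.absNorm_eq_zero_iff]
    exact v.ne_bot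
  -- inertia at places of good reduction
  have hgoodin : ∀ v : HeightOneSpectrum (𝓞 F), ¬ Above v ℓ → GoodFor R w i v →
      (∀ Q : Ideal (OO F), Q.IsPrime → cm Q = v.asIdeal → ∀ g, InInertia Q g → ψ g = 1) ∧
      IsAlgebraic ℚ (ψ (σ₀ v) : ℚ_[ℓ]) ∧
      ‖j (ψ (σ₀ v) : ℚ_[ℓ])‖ ^ 2 = (Ideal.absNorm v.asIdeal : ℝ) ^ (-((s + 1 : ℕ) * w : ℤ)) := by
    rintro v hv ⟨P', hpure, hP'⟩
    refine ⟨fun Q hQ hQv g hg => ?_, ?_⟩
    · apply Units.ext
      rw [hψdet, Units.val_one]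
      have h1 : R.ρ ℓ i g = 1 := by
        have h0 := (hP' ℓ hv Q ⟨hQ, hQv⟩ g).1 hg
        rw [SameAction, map_one] at h0
        exact h0
      have h2 : (R.ρ ℓ i g).restrict (hW'' g) = LinearMap.id := by
        refine LinearMap.ext fun x => Subtype.ext ?_
        change R.ρ ℓ i g x = x
        rw [h1]
        rfl
      rw [h2, LinearMap.det_id]
    · have h1 := (hP' ℓ hv (Q₀ v) ⟨(hQ₀ v).isPrime, hQ₀v v⟩ (σ₀ v)).2 (hσ₀ v)
      obtain ⟨h2, h3⟩ := det_good j (R.ρ ℓ i (σ₀ v)⁻¹) W (hW'' _) h1 hpure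
      rw [← hψdet] at h2 h3
      have h4 : (ψ (σ₀ v)⁻¹ : ℚ_[ℓ]) = (ψ (σ₀ v) : ℚ_[ℓ])⁻¹ := by
        rw [map_inv, Units.val_inv_eq_inv_val]
      rw [h4] at h2 h3
      refine ⟨IsAlgebraic.inv_iff.1 h2, ?_⟩
      rw [map_inv₀, norm_inv, inv_pow, hs] at h3
      rw [zpow_neg, ← inv_eq_iff_eq_inv, h3]
      unfold q
      rw [← pow_mul, mul_comm, ← zpow_natCast]
      push_cast
      rfl
  -- the places of maximally unipotent monodromy
  have hmumin : ∀ v : HeightOneSpectrum (𝓞 F), ¬ Above v ℓ → MaxUnipotentAt R i v →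
      (∀ Q : Ideal (OO F), Q.IsPrime → cm Q = v.asIdeal → ∀ g, InInertia Q g → ψ g = 1) ∧
      ‖j (ψ (σ₀ v) : ℚ_[ℓ])‖ ^ 2 = (Ideal.absNorm v.asIdeal : ℝ) ^
        (((s + 1 : ℕ) * (r - s : ℕ) : ℤ) - ((s + 1 : ℕ) * w : ℤ)) := by
    intro v hv hm
    refine ⟨fun Q hQ hQv g hg => ?_, ?_⟩
    · apply Units.ext
      rw [hψdet, Units.val_one]
      have h1 := (hm ℓ hv Q ⟨hQ, hQv⟩).1 g hg
      have h2 : IsNilpotent ((R.ρ ℓ i g).restrict (hW'' g) - 1) := by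
        obtain ⟨m, hm⟩ := h1
        have h3 : ∀ x ∈ W, (R.ρ ℓ i g - 1) x ∈ W := by
          intro x hx
          rw [LinearMap.sub_apply, Module.End.one_apply]
          exact Submodule.sub_mem _ (hW g x hx) hx
        have h4 : (R.ρ ℓ i g).restrict (hW'' g) - 1 = (R.ρ ℓ i g - 1).restrict h3 := by
          refine LinearMap.ext fun x => Subtype.ext ?_
          rfl
        refine ⟨m, ?_⟩
        rw [h4, Module.End.pow_restrict]
        refine LinearMap.ext fun x => Subtype.ext ?_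
        change ((R.ρ ℓ i g - 1) ^ m) x = 0
        rw [hm]
        rfl
      have h3 : (R.ρ ℓ i g).restrict (hW'' g) = 1 + ((R.ρ ℓ i g).restrict (hW'' g) - 1) := by abel
      rw [h3]
      exact det_one_add_nilpotent h2
    · obtain ⟨-, τ, hτ, hne, hφ⟩ := hm ℓ hv (Q₀ v) ⟨(hQ₀ v).isPrime, hQ₀v v⟩
      obtain ⟨hχφ, hχτ⟩ := char_inertia R hR (hQ₀ v).isPrime (hQ₀v v) hv hτ (hσ₀ v)
      have hrel := hφ (σ₀ v) (hσ₀ v)
      have hrel' : R.ρ ℓ i (σ₀ v) * R.ρ ℓ i τ = R.ρ ℓ i τ ^ q v * R.ρ ℓ i (σ₀ v) := by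
        rw [← map_pow, ← hrel, ← map_mul, ← map_mul]
        congr 1
        group
      have hnil := (hm ℓ hv (Q₀ v) ⟨(hQ₀ v).isPrime, hQ₀v v⟩).1 τ hτ
      obtain ⟨N, hN, hFN, hNsp, hNW⟩ := exists_monodromy (R.ρ ℓ i) (R.χ ℓ) hfr hχτ hnil
        (by rwa [show n i - 1 = r by omega] at hne) hrel' (R.ω ℓ i) (R.sim ℓ i)
      obtain ⟨u, hu⟩ := hN.exists_vec
      have hNw : N ((N ^ r) u) = 0 := by
        rw [← Module.End.mul_apply, ← pow_succ', hN.pow_dim, LinearMap.zero_apply]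
      have hFNx : ∀ x, R.ρ ℓ i (σ₀ v) (N x) = (q v : ℚ_[ℓ]) • N (R.ρ ℓ i (σ₀ v) x) := fun x =>
        congrArg (fun X : End ℚ_[ℓ] (Fin (n i) → ℚ_[ℓ]) => X x) hFN
      have hqℓ : (q v : ℚ_[ℓ]) ≠ 0 := by
        rw [Nat.cast_ne_zero]
        unfold q
        rw [Ne, Ideal.absNorm_eq_zero_iff]
        exact v.ne_bot
      have h1 : N (R.ρ ℓ i (σ₀ v) ((N ^ r) u)) = 0 := by
        have h2 := hFNx ((N ^ r) u)
        rw [hNw, map_zero] at h2
        exact (smul_eq_zero.1 h2.symm).resolve_left hqℓ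
      obtain ⟨b, hb⟩ := hN.ker_one hu h1
      have hdet := hN.sub_det hFN (hNW W (hW τ)) (hW (σ₀ v)) hs hu hNw hb
      have hbsq := hN.b_sq hFN (R.ω ℓ i) (R.alt ℓ i) (R.nondeg ℓ i) hNsp (R.sim ℓ i (σ₀ v)) hu hNw
        hb
      have hdet' : (ψ (σ₀ v) : ℚ_[ℓ]) * (q v : ℚ_[ℓ]) ^ (s * (s + 1) / 2) = b ^ (s + 1) := by
        rw [hψdet]
        exact hdet
      -- absolute values
      have hqv : (q v : ℝ) = (Ideal.absNorm v.asIdeal : ℝ) := rfl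
      have e1 : ‖j b‖ ^ 2 = (q v : ℝ) ^ ((r : ℤ) - w) := by
        have h2 := congrArg (fun z => ‖j z‖) hbsq
        have h3 := congrArg (fun z => ‖j z‖) hχφ
        simp only [map_pow, map_mul, map_natCast, norm_pow, norm_mul, Complex.norm_natCast,
          map_one, norm_one] at h2 h3
        rw [h2]
        have h4 : ‖j (R.χ ℓ (σ₀ v))‖ = ((q v : ℝ) ^ w)⁻¹ := eq_inv_of_mul_eq_one_left h3
        rw [h4, zpow_sub₀ (by rw [hqv]; exact hq0 v), zpow_natCast, zpow_natCast]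
        rfl
      have e2 : ‖j (ψ (σ₀ v) : ℚ_[ℓ])‖ ^ 2 * (q v : ℝ) ^ (s * (s + 1)) =
          ((q v : ℝ) ^ ((r : ℤ) - w)) ^ (s + 1) := by
        have h2 := congrArg (fun z => ‖j z‖ ^ 2) hdet'
        simp only [map_pow, map_mul, map_natCast, norm_pow, norm_mul, Complex.norm_natCast] at h2
        have h5 : (‖j b‖ ^ (s + 1)) ^ 2 = (‖j b‖ ^ 2) ^ (s + 1) := by
          rw [← pow_mul, ← pow_mul, mul_comm]
        rw [h5, e1, mul_pow, ← pow_mul, Nat.div_mul_cancel (Nat.even_mul_succ_self s).two_dvd] at h2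
        exact h2
      have hqr : (q v : ℝ) ≠ 0 := by rw [hqv]; exact hq0 v
      rw [← hqv]
      have h6 : ((q v : ℝ) ^ ((r : ℤ) - w)) ^ (s + 1) =
          (q v : ℝ) ^ ((((s + 1 : ℕ) * (r - s : ℕ) : ℤ) - ((s + 1 : ℕ) * w : ℤ))) *
            (q v : ℝ) ^ (s * (s + 1)) := by
        rw [← zpow_natCast, ← zpow_mul, ← zpow_natCast, ← zpow_add₀ hqr]
        congr 1
        push_cast [Nat.cast_sub hsr]
        ring
      rw [h6] at e2
      exact mul_right_cancel₀ (pow_ne_zero _ hqr) e2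
  -- the weights
  have hGF : ∀ p ∈ T, ∀ v : HeightOneSpectrum (𝓞 F), Above v p → GoodFor R w i v := by
    intro p hp v hv
    have h1 := hgood p hp v hv
    exact ⟨P v i, h1.pure i, fun ℓ' _ hℓ' Q hQ g =>
      ⟨fun hg => (h1.unramified ℓ' hℓ' i Q hQ g hg).trans (map_one _).symm,
      h1.frobenius ℓ' hℓ' i Q hQ g⟩⟩
  have key := two_weights ψ hψc T hT3 hT hp₁ (fun v => ψ (σ₀ v)) (by
    intro p hp v hv Q hQ hQv
    have hpp : p.Prime ∧ p ≠ ℓ := by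
      rcases hp with h | rfl
      · exact ⟨(hT p h).1, (hT p h).2.1⟩
      · exact ⟨hp₁.1, hp₁.2.1⟩
    have hvℓ := hℓv p hpp.1 hpp.2 v hv
    have hin : ∀ Q : Ideal (OO F), Q.IsPrime → cm Q = v.asIdeal → ∀ g, InInertia Q g →
        ψ g = 1 := by
      rcases hp with h | rfl
      · exact (hgoodin v hvℓ (hGF p h v hv)).1
      · rcases hall v hv with h | h
        · exact (hmumin v hvℓ h).1
        · exact (hgoodin v hvℓ h).1
    exact ⟨hin Q hQ hQv, fun φ hφ => frob_value ψ v hin (hQ₀ v).isPrime hQ (hQ₀v v) hQv (hσ₀ v) hφ⟩)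
    (fun p hp v hv => (hgoodin v (hℓv p (hT p hp).1 (hT p hp).2.1 v hv) (hGF p hp v hv)).2.1) j
    (-((s + 1 : ℕ) * w : ℤ))
    (fun p hp v hv => (hgoodin v (hℓv p (hT p hp).1 (hT p hp).2.1 v hv) (hGF p hp v hv)).2.2)
    (fun v => if MaxUnipotentAt R i v then ((s + 1 : ℕ) * (r - s : ℕ) : ℤ) - ((s + 1 : ℕ) * w : ℤ)
      else -((s + 1 : ℕ) * w : ℤ)) (by
      intro v hv
      have hvℓ := hℓv p₁ hp₁.1 hp₁.2.1 v hv
      split_ifs with h
      · exact (hmumin v hvℓ h).2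
      · exact (hgoodin v hvℓ ((hall v hv).resolve_left h)).2.2) (by
      intro v hv
      split_ifs with h
      · have : (0 : ℤ) ≤ ((s + 1 : ℕ) : ℤ) * ((r - s : ℕ) : ℤ) := by positivity
        linarith
      · exact le_rfl) v₁ hv₁
  beta_reduce at key
  rw [if_pos hmum] at key
  right
  have h1 : ((s + 1 : ℕ) : ℤ) * ((r - s : ℕ) : ℤ) = 0 := by linarith
  have h2 : (s + 1) * (r - s) = 0 := by exact_mod_cast h1
  have h3 : r - s = 0 := (Nat.mul_eq_zero.1 h2).resolve_left (by omega)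
  apply Submodule.eq_top_of_finrank_eq
  rw [hs, hfr]
  omega

end irr

end Pool.Agent.Y114.MU
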