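import Mathlib
import Pool.Agent.Y114.MU.Irr
import Pool.Agent.Y114.MU.SumTate

/-!
# Motives with maximally unipotent monodromy: the Tate conjecture at every prime `ℓ`
-/

set_option autoImplicit false
set_option linter.unusedSectionVars false
set_option linter.unusedVariables false

namespace Pool.Agent.Y114.MU

open NumberField IsDedekindDomain Polynomial Module Pool.Agent.Y114.TF Pool.Agent.Y114.GF
open Pool.Agent.W569.FM Pool.Agent.W571.FM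

theorem pow_sub_zero {k V : Type*} [Field k] [AddCommGroup V] [Module k V] {u : End k V} {m : ℕ}
    (h : (u - 1) ^ m = 0) (M : ℕ) : (u ^ M - 1) ^ m = 0 := by
  have h6 : u ^ M - 1 = (u - 1) * ∑ l ∈ Finset.range M, u ^ l := (mul_geom_sum u M).symm
  have hc : Commute (u - 1) (∑ l ∈ Finset.range M, u ^ l) := by
    refine Commute.sum_right _ _ _ fun l _ => ?_
    exact ((Commute.refl u).pow_right l).sub_left (Commute.one_left _)
  rw [h6, hc.mul_pow, h, zero_mul]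

variable {F : Type} [Field F] [NumberField F] {ι : Type} [Fintype ι] {n : ι → ℕ}
  {P : HeightOneSpectrum (𝓞 F) → ι → ℚ[X]}

theorem pos_of_mum (R : Realizations n Gal(AlgebraicClosure F/F)) {ℓ : ℕ} [hℓ : Fact ℓ.Prime]
    {i : ι} {v : HeightOneSpectrum (𝓞 F)} (hv : ¬ Above v ℓ) (h : MaxUnipotentAt R i v) :
    0 < n i := by
  obtain ⟨Q, σ, hQ, hQv, hσ⟩ := frob_cm v
  obtain ⟨-, τ, hτ, hne, -⟩ := h ℓ hv Q ⟨hQ.isPrime, hQv⟩
  rcases Nat.eq_zero_or_pos (n i) with h0 | h0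
  · exfalso
    apply hne
    have h1 : finrank ℚ_[ℓ] (Fin (n i) → ℚ_[ℓ]) = 0 := by simp [h0]
    have h2 : Subsingleton (Fin (n i) → ℚ_[ℓ]) := Module.finrank_zero_iff.1 h1
    exact LinearMap.ext fun x => Subsingleton.elim _ _
  · exact h0

/-- **Motives with maximally unipotent monodromy.** -/
theorem tateAt (R : Realizations n Gal(AlgebraicClosure F/F)) {w : ℕ}
    (hR : IsSystem R w) {ℓ : ℕ} (hℓ : ℓ.Prime) (T : Set ℕ) (hT3 : 3 ≤ (T \ {ℓ}).encard)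
    (hT : ∀ p ∈ T, p.Prime ∧ UnramifiedIn F p)
    (hgood : ∀ p ∈ T, ∀ v, Above v p → GoodAt R w v (P v))
    (hmum : ∀ i, ∃ p v, p.Prime ∧ p ≠ ℓ ∧ UnramifiedIn F p ∧ Above v p ∧ MaxUnipotentAt R i v ∧
      DistinguishedAt R i v ∧ ∀ v', Above v' p → MaxUnipotentAt R i v' ∨ GoodFor R w i v')
    (hind : ∀ i, 4 ≤ n i → ∃ p ∈ T, p ≠ ℓ ∧ ∃ v, Above v p ∧ ThreeIndependent (P v i)) :
    R.TateAt ℓ := by
  classical
  have hfact : Fact ℓ.Prime := ⟨hℓ⟩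
  choose p v hp hpℓ hpur hvp hm hd hall using hmum
  have hvℓ : ∀ i, ¬ Above (v i) ℓ := fun i => not_above_of_ne (hp i) hℓ (hpℓ i) (hvp i)
  have hpos : ∀ i, 0 < n i := fun i => pos_of_mum R (hvℓ i) (hm i)
  -- the unipotent elements
  have hτ : ∀ i, ∃ τ : Gal(AlgebraicClosure F/F), R.χ ℓ τ = 1 ∧
      (∀ j, IsNilpotent (R.ρ ℓ j τ - 1)) ∧ (R.ρ ℓ i τ - 1) ^ (n i - 1) ≠ 0 ∧
      ∀ j, j ≠ i → n j = n i → (R.ρ ℓ j τ - 1) ^ (n j - 1) = 0 := by
    intro i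
    obtain ⟨Q, σ, hQ, hQv, hσ⟩ := frob_cm (v i)
    obtain ⟨hun, τ, hτ, hne, -⟩ := hm i ℓ (hvℓ i) Q ⟨hQ.isPrime, hQv⟩
    obtain ⟨-, hχτ⟩ := char_inertia R hR hQ.isPrime hQv (hvℓ i) hτ hσ
    have hex : ∀ j, ∃ e : ℕ, 0 < e ∧ IsNilpotent (R.ρ ℓ j (τ ^ e) - 1) ∧
        (j ≠ i → n j = n i → (R.ρ ℓ j (τ ^ e) - 1) ^ (n j - 1) = 0) := by
      intro j
      by_cases hj : j = i
      · subst hj
        refine ⟨1, one_pos, ?_, fun h => absurd rfl h⟩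
        rw [pow_one]
        exact hun τ hτ
      · obtain ⟨e, he, h1, h2⟩ := hd i j hj ℓ (hvℓ i) Q ⟨hQ.isPrime, hQv⟩ τ hτ
        exact ⟨e, he, h1, fun _ => h2⟩
    choose e he hen hez using hex
    have hdvd : ∀ j, ∃ c, ∏ j, e j = e j * c := fun j =>
      Finset.dvd_prod_of_mem e (Finset.mem_univ j)
    have hE : 0 < ∏ j, e j := Finset.prod_pos fun j _ => he j
    have hpow : ∀ j m, (R.ρ ℓ j (τ ^ e j) - 1) ^ m = 0 →
        (R.ρ ℓ j (τ ^ ∏ j, e j) - 1) ^ m = 0 := by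
      intro j m h
      obtain ⟨c, hc⟩ := hdvd j
      have h1 := pow_sub_zero h c
      rwa [← map_pow, ← pow_mul, ← hc] at h1
    refine ⟨τ ^ ∏ j, e j, ?_, fun j => ?_, ?_, fun j hj hnj => ?_⟩
    · rw [map_pow, hχτ, one_pow]
    · obtain ⟨m, hm⟩ := hen j
      exact ⟨m, hpow j m hm⟩
    · rw [map_pow]
      exact (Pool.Agent.Y114.AP.pow_sub_one_pow_ne_zero (hun τ hτ) hne hE).1
    · exact hpow j _ (hez j hj hnj)
  choose τ hχ hnil hne hz using hτ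
  have hdim : ∀ i, finrank ℚ_[ℓ] (Fin (n i) → ℚ_[ℓ]) = (n i - 1) + 1 := by
    intro i
    have := hpos i
    rw [Module.finrank_fin_fun]
    omega
  have hodd : ∀ i, Odd (n i - 1) := by
    intro i
    have h1 := even_of_alt (R.ω ℓ i) (R.alt ℓ i) (R.nondeg ℓ i)
    rw [Module.finrank_fin_fun] at h1
    obtain ⟨m, hm⟩ := h1
    have := hpos i
    exact ⟨m - 1, by omega⟩
  have hmain := sum_tate (R.ρ ℓ) (R.χ ℓ) (R.ω ℓ) (fun i => n i - 1) hdim hodd (R.alt ℓ)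
    (R.nondeg ℓ) (R.sim ℓ)
    (fun i U hU => irreducible_of_mum (P := P) R hR (T \ {ℓ}) hT3
      (fun p hp => ⟨(hT p hp.1).1, hp.2, (hT p hp.1).2⟩) (fun p hp => hgood p hp.1) i
      ⟨hp i, hpℓ i, hpur i⟩ (hvp i) (hm i) (hall i) (hpos i) U hU)
    τ hχ hnil hne (fun i j hij hr => hz i j hij.symm (by
      have h1 := hpos i
      have h2 := hpos j
      omega)) (fun i hi => by
      obtain ⟨p', hp', hp'ℓ, v', hv', hP'⟩ := hind i (by omega)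
      obtain ⟨γ, hγ⟩ := exists_frobenius R hR v' (hgood p' hp' v' hv')
      exact ⟨γ, P v' i, (hγ ℓ (not_above_of_ne (hT p' hp').1 hℓ hp'ℓ hv')).2 i, hP'⟩)
  exact ⟨hfact, hmain.1, hmain.2⟩

end Pool.Agent.Y114.MU
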